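import Pool.Agent.H20.JT.Stm

/-! # Project JT, stub AV: averaging over the relabellings -/

namespace H20JT

open Finset

theorem av_one (h : S_SW) {A X : Type} [DecidableEq A] [Fintype X] [DecidableEq X]
    (cl : X → Option A) (m : ℕ) (M N : X → X) (x : X) (hm : 16 ≤ m)
    (hc : ∀ p, (univ.filter fun x => cl x = some p).card = m) (hM : Fpf M) (hN : Fpf N)
    (hn : ∀ x, cl x = none → cl (M x) ≠ none) :
    ∑ σ ∈ Om cl, (1 : ℝ) / (Function.minimalPeriod (rel σ M ∘ N) x : ℝ) ≤
      3 / (Nat.sqrt m : ℝ) * (Om cl).card := by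
  set s := Nat.sqrt m with hs
  have hs2 : s * s ≤ m := Nat.sqrt_le m
  have hs4 : 4 ≤ s := by
    rw [hs]
    exact Nat.le_sqrt.2 (by omega)
  have hsR : (0 : ℝ) < s := by
    have : (4 : ℝ) ≤ s := by exact_mod_cast hs4
    linarith
  have hmR : (0 : ℝ) < m := by
    have : (16 : ℝ) ≤ m := by exact_mod_cast hm
    linarith
  have hs2R : (s : ℝ) * s ≤ m := by exact_mod_cast hs2
  -- each length
  have hl : ∀ l ∈ Finset.Icc 1 s,
      (((Om cl).filter fun σ => Function.minimalPeriod (rel σ M ∘ N) x = l).card : ℝ) ≤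
        2 * (Om cl).card / m := by
    intro l hl
    rw [Finset.mem_Icc] at hl
    have h1 := h A X cl m M N x l hc hM hN hn hl.1
    have h4 : 4 * s ≤ m := le_trans (Nat.mul_le_mul_right s hs4) hs2
    have h2 : m ≤ 2 * (m - 2 * l) := by omega
    have h3 : ((Om cl).filter fun σ => Function.minimalPeriod (rel σ M ∘ N) x = l).card * m ≤
        2 * (Om cl).card := by
      calc _ ≤ ((Om cl).filter fun σ => Function.minimalPeriod (rel σ M ∘ N) x = l).card *
            (2 * (m - 2 * l)) := Nat.mul_le_mul_left _ h2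
        _ = 2 * (((Om cl).filter fun σ =>
            Function.minimalPeriod (rel σ M ∘ N) x = l).card * (m - 2 * l)) := by ring
        _ ≤ _ := Nat.mul_le_mul_left _ h1
    rw [le_div_iff₀ hmR]
    exact_mod_cast h3
  -- small lengths together
  have hsmall : (((Om cl).filter fun σ =>
      Function.minimalPeriod (rel σ M ∘ N) x ∈ Finset.Icc 1 s).card : ℝ) ≤
      2 / s * (Om cl).card := by
    have h5 : ((Om cl).filter fun σ =>
        Function.minimalPeriod (rel σ M ∘ N) x ∈ Finset.Icc 1 s).card =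
        ∑ l ∈ Finset.Icc 1 s,
          ((Om cl).filter fun σ => Function.minimalPeriod (rel σ M ∘ N) x = l).card := by
      rw [Finset.card_eq_sum_card_fiberwise
        (f := fun σ => Function.minimalPeriod (rel σ M ∘ N) x) (t := Finset.Icc 1 s)]
      · apply Finset.sum_congr rfl
        intro l hl'
        congr 1
        ext σ
        simp only [Finset.mem_filter]
        constructor
        · rintro ⟨⟨h1, _⟩, h3⟩
          exact ⟨h1, h3⟩
        · rintro ⟨h1, h3⟩
          exact ⟨⟨h1, h3 ▸ hl'⟩, h3⟩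
      · intro σ hσ
        have := Finset.mem_coe.1 hσ
        rw [Finset.mem_filter] at this
        exact Finset.mem_coe.2 this.2
    rw [h5]
    push_cast
    calc _ ≤ ∑ _l ∈ Finset.Icc 1 s, (2 * (Om cl).card / m : ℝ) := Finset.sum_le_sum hl
      _ = s * (2 * (Om cl).card / m : ℝ) := by
          rw [Finset.sum_const, Nat.card_Icc, nsmul_eq_mul]
          simp
      _ ≤ _ := by
          have h6 : (s : ℝ) / m ≤ 1 / s := by
            rw [div_le_div_iff₀ hmR hsR]
            linarith
          have h7 : (0 : ℝ) ≤ 2 * (Om cl).card := by positivity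
          calc (s : ℝ) * (2 * (Om cl).card / m) = (s / m) * (2 * (Om cl).card) := by ring
            _ ≤ (1 / s) * (2 * (Om cl).card) := mul_le_mul_of_nonneg_right h6 h7
            _ = _ := by ring
  have hpt : ∀ σ ∈ Om cl, (1 : ℝ) / (Function.minimalPeriod (rel σ M ∘ N) x : ℝ) ≤
      (if Function.minimalPeriod (rel σ M ∘ N) x ∈ Finset.Icc 1 s then 1 else 0) + 1 / s := by
    intro σ _
    by_cases h0 : Function.minimalPeriod (rel σ M ∘ N) x ∈ Finset.Icc 1 s
    · rw [if_pos h0]
      rw [Finset.mem_Icc] at h0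
      have h8 : (1 : ℝ) ≤ (Function.minimalPeriod (rel σ M ∘ N) x : ℝ) := by
        exact_mod_cast h0.1
      have h9 : (1 : ℝ) / (Function.minimalPeriod (rel σ M ∘ N) x : ℝ) ≤ 1 := by
        rw [div_le_one (by linarith)]
        exact h8
      have h10 : (0 : ℝ) ≤ 1 / s := by positivity
      linarith
    · rw [if_neg h0, zero_add]
      rcases Nat.eq_zero_or_pos (Function.minimalPeriod (rel σ M ∘ N) x) with h11 | h11
      · rw [h11]
        simp
      · have h12 : s < Function.minimalPeriod (rel σ M ∘ N) x := by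
          by_contra h13
          exact h0 (Finset.mem_Icc.2 ⟨h11, not_lt.1 h13⟩)
        have h14 : (s : ℝ) ≤ (Function.minimalPeriod (rel σ M ∘ N) x : ℝ) := by
          exact_mod_cast h12.le
        exact one_div_le_one_div_of_le hsR h14
  calc _ ≤ ∑ σ ∈ Om cl, ((if Function.minimalPeriod (rel σ M ∘ N) x ∈ Finset.Icc 1 s
        then (1 : ℝ) else 0) + 1 / s) := Finset.sum_le_sum hpt
    _ = (((Om cl).filter fun σ =>
          Function.minimalPeriod (rel σ M ∘ N) x ∈ Finset.Icc 1 s).card : ℝ) +
          (Om cl).card * (1 / s) := by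
        rw [Finset.sum_add_distrib, Finset.sum_const, nsmul_eq_mul, Finset.sum_ite]
        simp
    _ ≤ 2 / s * (Om cl).card + (Om cl).card * (1 / s) := by linarith
    _ = _ := by ring

theorem av (h : S_SW) : S_AV := by
  intro A X _ _ _ cl m M N w hm hc hM hN hn hw
  have hne : (Om cl).Nonempty := ⟨1, by simp [Om]⟩
  have hcard : (0 : ℝ) < (Om cl).card := by exact_mod_cast hne.card_pos
  have key : ∑ σ ∈ Om cl, ∑ j, cost (rel σ (M j)) (N j) w ≤
      ∑ _σ ∈ Om cl, 3 * m / (Nat.sqrt m : ℝ) * ∑ x, w x := by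
    rw [Finset.sum_comm]
    have h1 : ∀ j ∈ (univ : Finset (Fin m)), ∑ σ ∈ Om cl, cost (rel σ (M j)) (N j) w ≤
        3 / (Nat.sqrt m : ℝ) * (Om cl).card * ∑ x, w x := by
      intro j _
      unfold cost
      rw [Finset.sum_comm, Finset.mul_sum]
      apply Finset.sum_le_sum
      intro x _
      have h2 := av_one h cl m (M j) (N j) x hm hc (hM j) (hN j) (hn j)
      calc ∑ σ ∈ Om cl, w x / (Function.minimalPeriod (rel σ (M j) ∘ N j) x : ℝ)
          = w x * ∑ σ ∈ Om cl, (1 : ℝ) / (Function.minimalPeriod (rel σ (M j) ∘ N j) x : ℝ) := by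
            rw [Finset.mul_sum]
            exact Finset.sum_congr rfl fun σ _ => by ring
        _ ≤ w x * (3 / (Nat.sqrt m : ℝ) * (Om cl).card) := mul_le_mul_of_nonneg_left h2 (hw x)
        _ = _ := by ring
    calc _ ≤ ∑ _j : Fin m, 3 / (Nat.sqrt m : ℝ) * (Om cl).card * ∑ x, w x :=
          Finset.sum_le_sum h1
      _ = _ := by
          rw [Finset.sum_const, Finset.sum_const, nsmul_eq_mul, nsmul_eq_mul, Finset.card_univ,
            Fintype.card_fin]
          ring
  obtain ⟨σ, hσ, h3⟩ := Finset.exists_le_of_sum_le hne key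
  exact ⟨σ, hσ, h3⟩

end H20JT
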