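import Pool.Agent.H20.JT.Stm2

/-! # Project JT, stub AV2: averaging over the relabellings, harmonic sum -/

namespace H20JT

open Finset

theorem av_one2 (h : S_SW) {A X : Type} [DecidableEq A] [Fintype X] [DecidableEq X]
    (cl : X → Option A) (m : ℕ) (M N : X → X) (x : X) (hm : 16 ≤ m)
    (hc : ∀ p, (univ.filter fun x => cl x = some p).card = m) (hM : Fpf M) (hN : Fpf N)
    (hn : ∀ x, cl x = none → cl (M x) ≠ none) :
    ∑ σ ∈ Om cl, (1 : ℝ) / (Function.minimalPeriod (rel σ M ∘ N) x : ℝ) ≤
      lam m / m * (Om cl).card := by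
  set L := m / 4 with hL
  have hL4 : 4 * L ≤ m := by omega
  have hL1 : m < 4 * (L + 1) := by omega
  have hLpos : 1 ≤ L := by omega
  have hmR : (0 : ℝ) < m := by
    have : (16 : ℝ) ≤ m := by exact_mod_cast hm
    linarith
  -- each length
  have hl : ∀ l ∈ Finset.Icc 1 L,
      (((Om cl).filter fun σ => Function.minimalPeriod (rel σ M ∘ N) x = l).card : ℝ) ≤
        2 * (Om cl).card / m := by
    intro l hl
    rw [Finset.mem_Icc] at hl
    have h1 := h A X cl m M N x l hc hM hN hn hl.1
    have h2 : m ≤ 2 * (m - 2 * l) := by omega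
    have h3 : ((Om cl).filter fun σ => Function.minimalPeriod (rel σ M ∘ N) x = l).card * m ≤
        2 * (Om cl).card := by
      calc _ ≤ ((Om cl).filter fun σ => Function.minimalPeriod (rel σ M ∘ N) x = l).card *
            (2 * (m - 2 * l)) := Nat.mul_le_mul_left _ h2
        _ = 2 * (((Om cl).filter fun σ =>
            Function.minimalPeriod (rel σ M ∘ N) x = l).card * (m - 2 * l)) := by ring
        _ ≤ _ := Nat.mul_le_mul_left _ h1
    rw [le_div_iff₀ hmR]
    exact_mod_cast h3
  have hpt : ∀ σ ∈ Om cl, (1 : ℝ) / (Function.minimalPeriod (rel σ M ∘ N) x : ℝ) ≤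
      (∑ l ∈ Finset.Icc 1 L, if Function.minimalPeriod (rel σ M ∘ N) x = l then (1 : ℝ) / l else 0) +
        1 / ((L : ℝ) + 1) := by
    intro σ _
    by_cases h0 : Function.minimalPeriod (rel σ M ∘ N) x ∈ Finset.Icc 1 L
    · rw [Finset.sum_ite_eq, if_pos h0]
      have : (0 : ℝ) ≤ 1 / ((L : ℝ) + 1) := by positivity
      linarith
    · rw [Finset.sum_ite_eq, if_neg h0, zero_add]
      rcases Nat.eq_zero_or_pos (Function.minimalPeriod (rel σ M ∘ N) x) with h11 | h11
      · rw [h11]
        simp
        positivity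
      · have h12 : L + 1 ≤ Function.minimalPeriod (rel σ M ∘ N) x := by
          by_contra h13
          exact h0 (Finset.mem_Icc.2 ⟨h11, by omega⟩)
        have h14 : (L : ℝ) + 1 ≤ (Function.minimalPeriod (rel σ M ∘ N) x : ℝ) := by
          exact_mod_cast h12
        exact one_div_le_one_div_of_le (by positivity) h14
  have hharm : ∑ l ∈ Finset.Icc 1 L, (1 : ℝ) / l ≤ 1 + Real.log m := by
    have h1 := harmonic_le_one_add_log L
    have h2 : ((harmonic L : ℚ) : ℝ) = ∑ l ∈ Finset.Icc 1 L, (1 : ℝ) / l := by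
      rw [harmonic_eq_sum_Icc]
      push_cast
      exact Finset.sum_congr rfl fun l _ => by rw [one_div]
    rw [← h2]
    refine h1.trans ?_
    have h3 : Real.log L ≤ Real.log m := by
      apply Real.log_le_log
      · exact_mod_cast hLpos
      · have : L ≤ m := by omega
        exact_mod_cast this
    linarith
  have hcard0 : (0 : ℝ) ≤ (Om cl).card := Nat.cast_nonneg _
  calc _ ≤ ∑ σ ∈ Om cl, ((∑ l ∈ Finset.Icc 1 L,
        if Function.minimalPeriod (rel σ M ∘ N) x = l then (1 : ℝ) / l else 0) +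
        1 / ((L : ℝ) + 1)) := Finset.sum_le_sum hpt
    _ = (∑ l ∈ Finset.Icc 1 L,
          (((Om cl).filter fun σ => Function.minimalPeriod (rel σ M ∘ N) x = l).card : ℝ) *
            (1 / l)) + (Om cl).card * (1 / ((L : ℝ) + 1)) := by
        rw [Finset.sum_add_distrib, Finset.sum_const, nsmul_eq_mul, Finset.sum_comm]
        congr 1
        refine Finset.sum_congr rfl fun l _ => ?_
        rw [← Finset.sum_filter, Finset.sum_const, nsmul_eq_mul]
    _ ≤ (∑ l ∈ Finset.Icc 1 L, (2 * (Om cl).card / m : ℝ) * (1 / l)) +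
          (Om cl).card * (4 / m) := by
        apply add_le_add
        · exact Finset.sum_le_sum fun l hl' =>
            mul_le_mul_of_nonneg_right (hl l hl') (by positivity)
        · apply mul_le_mul_of_nonneg_left _ hcard0
          rw [div_le_div_iff₀ (by positivity) hmR]
          have : (m : ℝ) < 4 * (L + 1) := by exact_mod_cast hL1
          linarith
    _ = (2 * (Om cl).card / m : ℝ) * (∑ l ∈ Finset.Icc 1 L, (1 : ℝ) / l) +
          (Om cl).card * (4 / m) := by rw [Finset.mul_sum]
    _ ≤ (2 * (Om cl).card / m : ℝ) * (1 + Real.log m) + (Om cl).card * (4 / m) := by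
        have := mul_le_mul_of_nonneg_left hharm
          (show (0 : ℝ) ≤ 2 * (Om cl).card / m by positivity)
        linarith
    _ = _ := by unfold lam; ring

theorem av2 (h : S_SW) : S_AV2 := by
  intro A X _ _ _ cl m M N w hm hc hM hN hn hw
  have hne : (Om cl).Nonempty := ⟨1, by simp [Om]⟩
  have hmR : (0 : ℝ) < m := by
    have : (16 : ℝ) ≤ m := by exact_mod_cast hm
    linarith
  have key : ∑ σ ∈ Om cl, ∑ j, cost (rel σ (M j)) (N j) w ≤
      ∑ _σ ∈ Om cl, lam m * ∑ x, w x := by
    rw [Finset.sum_comm]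
    have h1 : ∀ j ∈ (univ : Finset (Fin m)), ∑ σ ∈ Om cl, cost (rel σ (M j)) (N j) w ≤
        lam m / m * (Om cl).card * ∑ x, w x := by
      intro j _
      unfold cost
      rw [Finset.sum_comm, Finset.mul_sum]
      apply Finset.sum_le_sum
      intro x _
      have h2 := av_one2 h cl m (M j) (N j) x hm hc (hM j) (hN j) (hn j)
      calc ∑ σ ∈ Om cl, w x / (Function.minimalPeriod (rel σ (M j) ∘ N j) x : ℝ)
          = w x * ∑ σ ∈ Om cl, (1 : ℝ) / (Function.minimalPeriod (rel σ (M j) ∘ N j) x : ℝ) := by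
            rw [Finset.mul_sum]
            exact Finset.sum_congr rfl fun σ _ => by ring
        _ ≤ w x * (lam m / m * (Om cl).card) := mul_le_mul_of_nonneg_left h2 (hw x)
        _ = _ := by ring
    calc _ ≤ ∑ _j : Fin m, lam m / m * (Om cl).card * ∑ x, w x :=
          Finset.sum_le_sum h1
      _ = _ := by
          rw [Finset.sum_const, Finset.sum_const, nsmul_eq_mul, nsmul_eq_mul, Finset.card_univ,
            Fintype.card_fin]
          field_simp
  obtain ⟨σ, hσ, h3⟩ := Finset.exists_le_of_sum_le hne key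
  exact ⟨σ, hσ, h3⟩

end H20JT
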