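import Pool.Agent.H20.JT.Stm

/-! # Project JT, stub AVL -/

set_option autoImplicit false

namespace H20JT

open Finset

theorem avl : S_AVL := by
  classical
  intro A X _ _ _ _ cl κ m n₀ R g T N U E T' E' hC hI a p h hR ha hTa hld
  have hinj : Function.Injective T := fun x y hxy => by
    have := congrArg T hxy
    rwa [hC.typ.fpf.1, hC.typ.fpf.1] at this
  have hTap : cl (T a) = some (p + g) := by
    rcases hC.typ.some' a p ha with h1 | h1
    · exact h1
    · exact absurd h1 hTa
  let C : Finset X := univ.filter fun c => cl c = some (p + h) ∧ Good cl m T U E T' c ∧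
      (a, c) ∉ U ∧ (T a, T c) ∉ U
  refine ⟨C, ?_, fun c hc => (mem_filter.1 hc).2⟩
  let B1 : Finset X := univ.filter fun x => T' x ≠ T x
  let B2 : Finset X := univ.filter fun x => cl (T x) = none
  let B3 : Finset X := univ.filter fun x => m ≤ 16 * ld U x
  let B4 : Finset X := univ.filter fun x => m ≤ 16 * ld U (T x)
  let B6 : Finset X := univ.filter fun x => T x ∈ E
  let B7 : Finset X := univ.filter fun x => cl x = some (p + h) ∧ (a, x) ∈ U
  let B8 : Finset X := univ.filter fun x => cl x = some (p + h) ∧ cl (T x) ≠ none ∧ (T a, T x) ∈ U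
  have hsub : (univ.filter fun x => cl x = some (p + h)) ⊆
      C ∪ (B1 ∪ (B2 ∪ (B3 ∪ (B4 ∪ (E ∪ (B6 ∪ (B7 ∪ B8))))))) := by
    intro x hx
    have hx1 : cl x = some (p + h) := (mem_filter.1 hx).2
    by_contra hn
    simp only [mem_union, not_or] at hn
    obtain ⟨n0, n1, n2, n3, n4, n5, n6, n7, n8⟩ := hn
    apply n0
    have m1 : T' x = T x := by
      by_contra hh
      exact n1 (mem_filter.2 ⟨mem_univ _, hh⟩)
    have m2 : cl (T x) ≠ none := fun hh => n2 (mem_filter.2 ⟨mem_univ _, hh⟩)
    have m3 : 16 * ld U x < m := by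
      by_contra hh
      exact n3 (mem_filter.2 ⟨mem_univ _, not_lt.1 hh⟩)
    have m4 : 16 * ld U (T x) < m := by
      by_contra hh
      exact n4 (mem_filter.2 ⟨mem_univ _, not_lt.1 hh⟩)
    have m6 : T x ∉ E := fun hh => n6 (mem_filter.2 ⟨mem_univ _, hh⟩)
    have m7 : (a, x) ∉ U := fun hh => n7 (mem_filter.2 ⟨mem_univ _, hx1, hh⟩)
    have m8 : (T a, T x) ∉ U := fun hh => n8 (mem_filter.2 ⟨mem_univ _, hx1, m2, hh⟩)
    refine mem_filter.2 ⟨mem_univ _, hx1, ⟨m1, ?_, m2, m3, m4, n5, m6⟩, m7, m8⟩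
    rw [hx1]
    exact Option.some_ne_none _
  have h0 := (card_le_card hsub).trans ((card_union_le _ _).trans (add_le_add_right ((card_union_le _ _).trans
    (add_le_add_right ((card_union_le _ _).trans (add_le_add_right ((card_union_le _ _).trans
    (add_le_add_right ((card_union_le _ _).trans (add_le_add_right ((card_union_le _ _).trans
    (add_le_add_right ((card_union_le _ _).trans (add_le_add_right (card_union_le _ _) _)) _)) _)) _)) _)) _)) _))
  rw [hC.card_cl] at h0
  have c1 : B1.card + 4 * E'.card ≤ 4 * E.card := hI.cnt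
  have c2 : B2.card ≤ n₀ := by
    rw [← hC.card_none]
    refine card_le_card_of_injOn T (fun x hx => ?_) hinj.injOn
    have : cl (T x) = none := (mem_filter.1 hx).2
    exact mem_coe.2 (mem_filter.2 ⟨mem_univ _, this⟩)
  have c3 : 32 * B3.card ≤ m := hC.light
  have c4 : B4.card ≤ B3.card := by
    refine card_le_card_of_injOn T (fun x hx => ?_) hinj.injOn
    have : m ≤ 16 * ld U (T x) := (mem_filter.1 hx).2
    exact mem_coe.2 (mem_filter.2 ⟨mem_univ _, this⟩)
  have c6 : B6.card ≤ E.card := by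
    refine card_le_card_of_injOn T (fun x hx => ?_) hinj.injOn
    have : T x ∈ E := (mem_filter.1 hx).2
    exact mem_coe.2 this
  have c7 : B7.card ≤ ldh cl U h a := by
    refine card_le_card_of_injOn (fun x => (a, x)) (fun x hx => ?_) (fun x _ y _ hxy => (Prod.mk.inj hxy).2)
    obtain ⟨h1, h2⟩ := (mem_filter.1 hx).2
    refine mem_coe.2 (mem_filter.2 ⟨h2, rfl, ?_⟩)
    rw [h1, ha]
    rfl
  have c8 : B8.card ≤ ldh cl U h (T a) := by
    refine card_le_card_of_injOn (fun x => (T a, T x)) (fun x hx => ?_)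
      (fun x _ y _ hxy => hinj (Prod.mk.inj hxy).2)
    obtain ⟨h1, h2, h3⟩ := (mem_filter.1 hx).2
    refine mem_coe.2 (mem_filter.2 ⟨h3, rfl, ?_⟩)
    rcases hC.typ.some' x _ h1 with h4 | h4
    · simp only [h4, hTap, Option.map_some]
      rw [add_right_comm]
    · exact absurd h4 h2
  have c5 := hC.E3
  have cn := hC.n₀m
  have cm := hC.mpos
  omega

end H20JT
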