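import Pool.Agent.H20.JT.Stm2
import Pool.Agent.H20.JT.Bl

/-! # Project JT, stub BL2: one block of the selection -/

namespace H20JT

open Finset

theorem bl2 : S_AV2 → S_DES → S_BL2 := by
  classical
  intro hAV hDES A X _ _ _ _ m n₀ F γ N w hγ hm hN hw hwm
  have hw0 : ∀ x, 0 ≤ w x := fun x => zero_le_one.trans (hw x)
  obtain ⟨σ, hσ, hsum⟩ := hAV A X F.cl m (F.M γ) N w hm F.card_cl (fun j => (F.typ γ hγ j).fpf) hN
    (fun j x hx => by rw [(F.typ γ hγ j).none' x hx]; exact Option.some_ne_none _) hw0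
  have hσ' := hσ
  unfold Om at hσ'
  rw [mem_filter] at hσ'
  have hσ1 : ∀ x, F.cl (σ x) = F.cl x := fun x => (hσ'.2 x).1
  have hσ2 : ∀ x, F.cl (σ.symm x) = F.cl x := fun x => by
    have := hσ1 (σ.symm x)
    rw [Equiv.apply_symm_apply] at this
    exact this.symm
  have hm0 : 0 < m := by omega
  have hmR : (0:ℝ) < m := by exact_mod_cast hm0
  set T : Fin m → X → X := fun j => rel σ (F.M γ j) with hT
  set K : ℝ := 2 + 4 * n₀ with hK
  have hK0 : 0 < K := by positivity
  have hTf : ∀ j, Fpf (T j) := fun j => bl_fpf_rel σ (F.typ γ hγ j).fpf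
  have hTn : ∀ j x, F.cl x = none → F.cl (T j x) ≠ none := by
    intro j x hx
    have h1 : F.cl (T j x) = F.cl (F.M γ j (σ x)) := hσ2 _
    rw [h1, (F.typ γ hγ j).none' (σ x) ((hσ1 x).trans hx)]
    exact Option.some_ne_none _
  have hc0 : ∀ j, 0 ≤ cost (T j) (N j) w := fun j => bl_cost_nonneg _ _ _ hw0
  set J : Finset (Fin m) := univ.filter fun j => 16 * K * cost (T j) (N j) w ≤ m with hJ
  have hex : ∀ j, ∃ E : Finset X, j ∈ J → (∀ a ∈ E, F.cl a ≠ none ∧ F.cl (T j a) ≠ none) ∧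
      (∀ x, ∃ a ∈ E, Reach (T j) (N j) x a) ∧
      ∑ a ∈ E, (w a + w (T j a)) ≤ K * cost (T j) (N j) w := by
    intro j
    by_cases hj : j ∈ J
    · obtain ⟨E, hE⟩ := hDES A X F.cl m n₀ (T j) (N j) w hm0 F.card_none (hTf j) (hN j) (hTn j) hw
        hwm (mem_filter.1 hj).2
      exact ⟨E, fun _ => hE⟩
    · exact ⟨∅, fun h => absurd h hj⟩
  choose E hE using hex
  refine ⟨σ, J, E, hσ, ?_, ?_, ?_⟩
  · -- the number of the bad colours
    have h1 : ((univ \ J).card : ℝ) * m ≤ 16 * K * ∑ j, cost (T j) (N j) w := by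
      calc ((univ \ J).card : ℝ) * m = ∑ _j ∈ univ \ J, (m : ℝ) := by
            rw [sum_const, nsmul_eq_mul]
        _ ≤ ∑ j ∈ univ \ J, 16 * K * cost (T j) (N j) w := by
            refine sum_le_sum fun j hj => ?_
            rw [mem_sdiff, hJ, mem_filter] at hj
            by_contra h
            exact hj.2 ⟨mem_univ _, (not_le.1 h).le⟩
        _ ≤ ∑ j, 16 * K * cost (T j) (N j) w :=
            sum_le_sum_of_subset_of_nonneg (subset_univ _) fun j _ _ =>
              mul_nonneg (by positivity) (hc0 j)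
        _ = _ := by rw [← mul_sum]
    have h2 : ((univ \ J).card : ℝ) = m - J.card := by
      rw [card_sdiff_of_subset (subset_univ _), card_univ, Fintype.card_fin, Nat.cast_sub]
      have := card_le_univ J
      simpa using this
    rw [h2] at h1
    have h3 : 16 * K * ∑ j, cost (T j) (N j) w ≤
        16 * K * (lam m * ∑ x, w x) :=
      mul_le_mul_of_nonneg_left hsum (by positivity)
    have h4 : 16 * K * (lam m * ∑ x, w x) =
        (16 * K / (m : ℝ) * (lam m * ∑ x, w x)) * m := by field_simp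
    have h5 := h1.trans (h3.trans (le_of_eq h4))
    exact le_of_mul_le_mul_right h5 hmR
  · intro j hj
    obtain ⟨h1, h2, h3⟩ := hE j hj
    refine ⟨h1, h2, ?_⟩
    have h4 : 2 * ((E j).card : ℝ) ≤ ∑ a ∈ E j, (w a + w (T j a)) := by
      calc 2 * ((E j).card : ℝ) = ∑ _a ∈ E j, (2 : ℝ) := by
            rw [sum_const, nsmul_eq_mul, mul_comm]
        _ ≤ _ := sum_le_sum fun a _ => by linarith [hw a, hw (T j a)]
    have h5 := (mem_filter.1 hj).2
    have h6 : 32 * ((E j).card : ℝ) ≤ m := by linarith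
    exact_mod_cast h6
  · calc ∑ j ∈ J, ∑ a ∈ E j, (w a + w (rel σ (F.M γ j) a))
        ≤ ∑ j ∈ J, K * cost (T j) (N j) w := sum_le_sum fun j hj => (hE j hj).2.2
      _ ≤ ∑ j, K * cost (T j) (N j) w :=
          sum_le_sum_of_subset_of_nonneg (subset_univ _) fun j _ _ =>
            mul_nonneg hK0.le (hc0 j)
      _ = K * ∑ j, cost (T j) (N j) w := by rw [← mul_sum]
      _ ≤ _ := mul_le_mul_of_nonneg_left hsum hK0.le

end H20JT
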