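import Pool.Agent.H20.JT.Stm

/-! Stub JT-CORE of project JT (MP_fe131b_co). -/

namespace H20JT

open Finset

theorem core : S_SEL → S_PROC → S_CORE := by
  intro hSEL hPROC A X _ _ _ _ _ m n₀ F R r hn₀ hm h0R hR gen hRA hr N hN
  have hlt : Fintype.card A < 2 ^ Fintype.card A := Nat.lt_two_pow_self
  have hsm : Nat.sqrt m ≤ m := Nat.sqrt_le_self m
  have hbig : 32 * Fintype.card A + 16 ≤ 2 ^ (10 * Fintype.card A + 60) := by
    have h1 : 2 ^ (10 * Fintype.card A + 60) = 2 ^ Fintype.card A * 2 ^ (9 * Fintype.card A + 60) := by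
      rw [← pow_add]; congr 1; ring
    have h2 : (2 : ℕ) ^ 6 ≤ 2 ^ (9 * Fintype.card A + 60) := Nat.pow_le_pow_right (by norm_num) (by omega)
    have h3 : 1 ≤ 2 ^ Fintype.card A := Nat.one_le_two_pow
    rw [h1]
    calc 32 * Fintype.card A + 16 ≤ 2 ^ Fintype.card A * 2 ^ 6 := by omega
      _ ≤ _ := Nat.mul_le_mul_left _ h2
  set P : Finset A := univ \ insert 0 R with hP
  have hPc : P.card = Fintype.card A - (R.card + 1) := by
    rw [hP, card_sdiff_of_subset (subset_univ _), card_univ, card_insert_of_notMem h0R]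
  have h0P : (0 : A) ∉ P := by simp [hP]
  have hdisj : Disjoint P R := by
    rw [hP, disjoint_left]
    intro a ha haR
    rw [mem_sdiff] at ha
    exact ha.2 (mem_insert_of_mem haR)
  obtain ⟨g, T, E, hsel, hcnt, hsum⟩ := hSEL A X m n₀ F r N P hn₀ hm h0P (by omega)
    (by
      have : P.card - 2 = Fintype.card A - (R.card + 3) := by omega
      rw [this]; exact hr) hN
  exact hPROC A X m n₀ F R P r N g T E h0R hR gen hdisj h0P (by omega) (by omega) hN hsel hcnt hsum

end H20JT
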