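import Pool.Agent.H20.JT.Stm2

/-! Stub JT-CORE2 of project JT (MP_fe131b_co). -/

namespace H20JT

open Finset

theorem lam_ge (m : ℕ) : 6 ≤ lam m := by
  unfold lam
  have : 0 ≤ Real.log m := Real.log_natCast_nonneg m
  linarith

/-- the hypothesis on `m` gives `16 ≤ m` and `32 u ≤ m` -/
theorem big_of (u m : ℕ) (hu : 1 ≤ u)
    (h : 4 * 10 ^ 10 * (u : ℝ) ^ 7 * lam m ^ 3 ≤ (m : ℝ) ^ 2) : 16 ≤ m ∧ 32 * u ≤ m := by
  have hl : (1 : ℝ) ≤ lam m ^ 3 := one_le_pow₀ (by linarith [lam_ge m])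
  have hu1 : (1 : ℝ) ≤ u := by exact_mod_cast hu
  have h7 : (u : ℝ) ^ 2 ≤ (u : ℝ) ^ 7 := pow_le_pow_right₀ hu1 (by norm_num)
  have h0 : (0 : ℝ) < (u : ℝ) ^ 7 := by positivity
  have h1 : (200000 * (u : ℝ)) ^ 2 ≤ (m : ℝ) ^ 2 := by
    refine le_trans ?_ h
    calc (200000 * (u : ℝ)) ^ 2 = 4 * 10 ^ 10 * (u : ℝ) ^ 2 * 1 := by ring
      _ ≤ 4 * 10 ^ 10 * (u : ℝ) ^ 7 * lam m ^ 3 := by gcongr
  have h2 : 200000 * (u : ℝ) ≤ m :=
    le_of_sq_le_sq h1 (Nat.cast_nonneg m)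
  have h3 : 200000 * u ≤ m := by exact_mod_cast h2
  omega

theorem core2 : S_SEL2 → S_PROC → S_CORE2 := by
  intro hSEL hPROC A X _ _ _ _ _ m n₀ F R r hn₀ hm h0R hR gen hRA hr N hN
  obtain ⟨h16, h32⟩ := big_of (Fintype.card A) m (by omega) hm
  set P : Finset A := univ \ insert 0 R with hP
  have hPc : P.card = Fintype.card A - (R.card + 1) := by
    rw [hP, card_sdiff_of_subset (subset_univ _), card_univ, card_insert_of_notMem h0R]
  have h0P : (0 : A) ∉ P := by simp [hP]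
  have hdisj : Disjoint P R := by
    rw [hP, disjoint_left]
    intro a ha haR
    rw [mem_sdiff] at ha
    exact ha.2 (mem_insert_of_mem haR)
  obtain ⟨g, T, E, hsel, hcnt, hsum⟩ := hSEL A X m n₀ F r N P hn₀ hm h0P (by omega)
    (by
      have : P.card - 2 = Fintype.card A - (R.card + 3) := by omega
      rw [this]; exact hr) hN
  exact hPROC A X m n₀ F R P r N g T E h0R hR gen hdisj h0P h16 (by omega) hN hsel hcnt hsum

end H20JT
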