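import Pool.Agent.H20.JT.Stm

/-! # Project JT, stub CP -/

set_option autoImplicit false

namespace H20JT

open Finset

theorem cp_reach_symm {X : Type*} {T N : X → X} (hT : ∀ x, T (T x) = x) (hN : ∀ x, N (N x) = x)
    {x y : X} (h : Reach T N x y) : Reach T N y x := by
  induction h with
  | refl => exact Relation.ReflTransGen.refl
  | tail _ h2 ih =>
    refine Relation.ReflTransGen.head ?_ ih
    rcases h2 with h2 | h2
    · exact Or.inl (by rw [h2, hT])
    · exact Or.inr (by rw [h2, hN])

theorem cp : S_EXM → S_MRG.{0} → S_CP := by
  classical
  intro hEXM hMRG A X _ _ _ _ cl κ m n₀ R g T N U E hC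
  have hN := hC.fpfN.1
  have hTT := hC.typ.fpf.1
  suffices H : ∀ n : ℕ, ∀ (T' : X → X) (E' : Finset X), E'.card = n → Inv cl m R T N U E T' E' →
      ∃ T'' : X → X, ∃ E'' : Finset X, Inv cl m R T N U E T'' E'' ∧ Conn T'' N by
    obtain ⟨T'', E'', hI, hcon⟩ := H E.card T E rfl
      { fpf := hC.typ.fpf
        sub := subset_rfl
        keep := fun _ _ => rfl
        cov := hC.E2
        edge := fun x => Or.inl rfl
        chg := fun x hx => absurd rfl hx
        cnt := by simp }
    exact ⟨T'', hI.fpf, hcon, hI.edge, hI.chg, by have := hI.cnt; omega⟩
  intro n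
  induction n with
  | zero =>
    intro T' E' hc hI
    refine ⟨T', E', hI, fun x y => ?_⟩
    obtain ⟨a, ha, _⟩ := hI.cov x
    rw [card_eq_zero] at hc
    rw [hc] at ha
    exact absurd ha (notMem_empty _)
  | succ n ih =>
    intro T' E' hc hI
    have hT' := hI.fpf.1
    by_cases h1 : E'.card ≤ 1
    · refine ⟨T', E', hI, fun x y => ?_⟩
      obtain ⟨a, ha, h2⟩ := hI.cov x
      obtain ⟨b, hb, h3⟩ := hI.cov y
      have : a = b := card_le_one.1 h1 a ha b hb
      rw [← this] at h3
      exact h2.trans (cp_reach_symm hT' hN h3)
    by_cases hsep : ∀ a ∈ E', ∀ b ∈ E', a ≠ b → ¬ Reach T' N a b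
    swap
    · -- two designated vertices in one orbit
      push Not at hsep
      obtain ⟨a, ha, b, hb, hab, hr⟩ := hsep
      refine ih T' (E'.erase b) (by rw [card_erase_of_mem hb]; omega) ?_
      exact
        { fpf := hI.fpf
          sub := (erase_subset _ _).trans hI.sub
          keep := fun x hx => hI.keep x (mem_of_mem_erase hx)
          cov := by
            intro x
            obtain ⟨c, hc1, hc2⟩ := hI.cov x
            by_cases hcb : c = b
            · refine ⟨a, mem_erase.2 ⟨hab, ha⟩, ?_⟩
              rw [hcb] at hc2
              exact hc2.trans (cp_reach_symm hT' hN hr)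
            · exact ⟨c, mem_erase.2 ⟨hcb, hc1⟩, hc2⟩
          edge := hI.edge
          chg := hI.chg
          cnt := by
            have := hI.cnt
            rw [card_erase_of_mem hb]
            omega }
    · -- a merge
      obtain ⟨a, c, h2, h3, h4, h5, h6, h7, h8, h9⟩ :=
        hEXM A X cl κ m n₀ R g T N U E T' E' hC hI hsep (by omega)
      obtain ⟨m1, m2, m3, m4, m5, m6, m7, m8⟩ := hMRG X T' N a c hI.fpf hC.fpfN h9
      obtain ⟨e, he, hae⟩ := hI.cov a
      obtain ⟨e2, he2, hce⟩ := hI.cov c
      have hne : e ≠ e2 := by
        rintro rfl
        exact h9 (hae.trans (cp_reach_symm hT' hN hce))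
      obtain ⟨g1, g2, g3, g4, g5, g6, g7⟩ := h3
      have hTa : T' (T a) = a := by rw [← h4, hT']
      have hTc : T' (T c) = c := by rw [← g1, hT']
      rw [h4] at m3
      rw [g1] at m3 m5
      rw [h4] at m5
      have m6' : ∀ x, x ≠ a → x ≠ T a → x ≠ c → x ≠ T c → mrg T' a c x = T' x := by
        intro x q1 q2 q3 q4
        exact m6 x q1 (by rw [h4]; exact q2) q3 (by rw [g1]; exact q4)
      obtain ⟨p, h, hR, hp, hq⟩ := h6
      have hTap : cl (T a) = some (p + g) := by
        rcases hC.typ.some' a p hp with q | q
        · exact q
        · exact absurd q h5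
      have hTcp : cl (T c) = some (p + h + g) := by
        rcases hC.typ.some' c _ hq with q | q
        · exact q
        · exact absurd q g3
      have htwo := hC.two
      refine ih (mrg T' a c) (E'.erase e) (by rw [card_erase_of_mem he]; omega) ?_
      exact
        { fpf := m1
          sub := (erase_subset _ _).trans hI.sub
          keep := by
            intro b hb
            obtain ⟨hb1, hb2⟩ := mem_erase.1 hb
            rw [m6' b, hI.keep b hb2]
            · rintro rfl
              exact hsep b hb2 e he hb1 hae
            · intro hba
              refine hsep b hb2 e he hb1 ?_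
              refine Relation.ReflTransGen.head (Or.inl ?_) hae
              rw [hba, hTa]
            · rintro rfl
              exact g6 (hI.sub hb2)
            · intro hbc
              rw [hbc] at hb2
              exact g7 (hI.sub hb2)
          cov := by
            intro x
            obtain ⟨y, hy1, hy2⟩ := hI.cov x
            by_cases hye : y = e
            · refine ⟨e2, mem_erase.2 ⟨hne.symm, he2⟩, ?_⟩
              rw [hye] at hy2
              have q1 : Reach T' N x a := hy2.trans (cp_reach_symm hT' hN hae)
              exact (m7 _ _ q1).trans (m8.trans (m7 _ _ hce))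
            · exact ⟨y, mem_erase.2 ⟨hye, hy1⟩, m7 _ _ hy2⟩
          edge := by
            intro x
            by_cases q1 : x = a
            · right
              rw [q1, m2]
              exact ⟨⟨p, h, hR, hp, hq⟩, h7⟩
            by_cases q2 : x = c
            · right
              rw [q2, m4]
              refine ⟨⟨p + h, h, hR, hq, ?_⟩, fun hh => h7 (hC.symU _ _ hh)⟩
              rw [hp, add_assoc, htwo, add_zero]
            by_cases q3 : x = T a
            · right
              rw [q3, m3]
              refine ⟨⟨p + g, h, hR, hTap, ?_⟩, h8⟩
              rw [hTcp, add_right_comm]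
            by_cases q4 : x = T c
            · right
              rw [q4, m5]
              refine ⟨⟨p + h + g, h, hR, hTcp, ?_⟩, fun hh => h8 (hC.symU _ _ hh)⟩
              rw [hTap, add_right_comm p h g, add_assoc, htwo, add_zero]
            · rw [m6' x q1 q3 q2 q4]
              exact hI.edge x
          chg := by
            intro x hx
            by_cases q1 : x = a
            · rcases h2 with h2 | h2
              · exact Or.inr (Or.inl (by rw [q1]; exact hI.sub h2))
              · exact Or.inl (by rw [q1]; exact h2.2.2.2.1)
            by_cases q2 : x = c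
            · exact Or.inl (by rw [q2]; exact g4)
            by_cases q3 : x = T a
            · rcases h2 with h2 | h2
              · exact Or.inr (Or.inr (by rw [q3, hTT]; exact hI.sub h2))
              · exact Or.inl (by rw [q3]; exact h2.2.2.2.2.1)
            by_cases q4 : x = T c
            · exact Or.inl (by rw [q4]; exact g5)
            · rw [m6' x q1 q3 q2 q4] at hx
              exact hI.chg x hx
          cnt := by
            have q1 : (univ.filter fun x => mrg T' a c x ≠ T x) ⊆
                (univ.filter fun x => T' x ≠ T x) ∪ {a, T a, c, T c} := by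
              intro x hx
              rw [mem_union]
              by_contra hcon
              simp only [mem_insert, mem_singleton, not_or] at hcon
              obtain ⟨w0, w1, w2, w3, w4⟩ := hcon
              have hx2 : mrg T' a c x ≠ T x := (mem_filter.1 hx).2
              rw [m6' x w1 w2 w3 w4] at hx2
              exact w0 (mem_filter.2 ⟨mem_univ _, hx2⟩)
            have q2 := (card_le_card q1).trans (card_union_le _ _)
            have q3 : ({a, T a, c, T c} : Finset X).card ≤ 4 := card_le_four
            have q4 := hI.cnt
            rw [card_erase_of_mem he]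
            omega }

end H20JT
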