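import Pool.Agent.H20.JT.Stm

namespace H20JT

open Finset

universe u

theorem dart : S_LL → S_TR.{0,u} → S_STEP.{u} → S_EUL.{u} → S_DART.{u} := by
  intro ll tr step eul ε hε
  obtain ⟨n₁, hn₁⟩ := ll ε hε
  refine ⟨n₁, ?_⟩
  intro D V _ _ _ _ ρ src r hρ hev hbig hr hconn
  have key : ∀ W : Finset V, ∃ τ : Fin r → D → D,
      (∀ i, Fpf (τ i) ∧ (∀ x, src (τ i x) = src x) ∧ Conn (τ i) ρ) ∧
      ∀ i j, i ≠ j → ∀ x, src x ∈ W → τ i x ≠ τ j x := by
    intro W
    induction W using Finset.induction_on with
    | empty =>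
      obtain ⟨τ, h1, h2, h3⟩ := eul D V ρ src hρ hev hconn
      exact ⟨fun _ => τ, fun _ => ⟨h1, h2, h3⟩, fun i j _ x hx => absurd hx (Finset.notMem_empty _)⟩
    | insert v W hv ih =>
      obtain ⟨τ, hτ, hd⟩ := ih
      let A : Finset D := univ.filter fun x => src x = v
      have hA : ∀ x, x ∈ A ↔ src x = v := fun x => by simp [A]
      have hcl : ∀ i, ∀ x ∈ A, τ i x ∈ A := by
        intro i x hx
        rw [hA] at hx ⊢
        rw [(hτ i).2.1, hx]
      choose N hN hNT using fun i => step D (τ i) ρ A (hτ i).1 hρ (hτ i).2.2 (hcl i)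
      have hLL : LLX A r := by
        refine tr (Fin A.card) A A.equivFin.symm r (hn₁ A.card r (hev v) (hbig v) (hr v))
      obtain ⟨T, hT, hTd, hTc⟩ := hLL N hN
      refine ⟨fun i x => if h : x ∈ A then (T i ⟨x, h⟩ : D) else τ i x, fun i => ⟨?_, ?_, ?_⟩, ?_⟩
      · constructor
        · intro x
          by_cases h : x ∈ A
          · simp only [h, dif_pos, (T i ⟨x, h⟩).2, Subtype.coe_eta, (hT i).1]
          · have h2 : τ i x ∉ A := by
              rw [hA] at h ⊢
              rwa [(hτ i).2.1]
            simp only [h, h2, dif_neg, not_false_eq_true, (hτ i).1.1]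
        · intro x
          by_cases h : x ∈ A
          · simp only [h, dif_pos]
            intro he
            exact (hT i).2 ⟨x, h⟩ (Subtype.ext he)
          · simp only [h, dif_neg, not_false_eq_true]
            exact (hτ i).1.2 x
      · intro x
        by_cases h : x ∈ A
        · simp only [h, dif_pos]
          rw [(hA _).1 (T i ⟨x, h⟩).2, (hA _).1 h]
        · simp only [h, dif_neg, not_false_eq_true]
          exact (hτ i).2.1 x
      · exact hNT i (T i) (hT i) (hTc i)
      · intro i j hij x hx
        by_cases h : x ∈ A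
        · simp only [h, dif_pos]
          intro he
          exact hTd i j hij ⟨x, h⟩ (Subtype.ext he)
        · simp only [h, dif_neg, not_false_eq_true]
          have hxv : src x ≠ v := fun hh => h ((hA x).2 hh)
          exact hd i j hij x ((Finset.mem_insert.1 hx).resolve_left hxv)
  obtain ⟨τ, h1, h2⟩ := key univ
  exact ⟨τ, h1, fun i j hij x => h2 i j hij x (Finset.mem_univ _)⟩

end H20JT
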