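import Mathlib

/-! # Project JT: definitions

Asymptotic Jackson conjecture (MP_fe131b_co): an Eulerian simple graph of minimum degree `2d`,
`d ≥ d₀(ε)`, has at least `(2-ε)d` pairwise compatible Euler tours. -/

namespace H20JT

open Finset

universe u v

/-- `T` is a fixed point free involution (a perfect matching of `X`) -/
def Fpf {X : Type*} (T : X → X) : Prop := (∀ x, T (T x) = x) ∧ ∀ x, T x ≠ x

/-- `y` can be reached from `x` along edges of the matchings `T` and `N` -/
def Reach {X : Type*} (T N : X → X) : X → X → Prop :=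
  Relation.ReflTransGen fun x y => y = T x ∨ y = N x

/-- the union of the matchings `T` and `N` is one cycle -/
def Conn {X : Type*} (T N : X → X) : Prop := ∀ x y, Reach T N x y

/-- replace the `T`-edges `a T(a)` and `c T(c)` by `a c` and `T(a) T(c)` -/
def mrg {X : Type*} [DecidableEq X] (T : X → X) (a c : X) (x : X) : X :=
  Equiv.swap (T a) c (T (Equiv.swap (T a) c x))

/-- the local statement for the set `X` and `r` given matchings -/
def LLX (X : Type u) (r : ℕ) : Prop :=
  ∀ N : Fin r → X → X, (∀ i, Fpf (N i)) →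
    ∃ T : Fin r → X → X, (∀ i, Fpf (T i)) ∧ (∀ i j, i ≠ j → ∀ x, T i x ≠ T j x) ∧
      ∀ i, Conn (T i) (N i)

/-! ## walks -/

/-- the transitions of a closed walk: the unordered pairs of cyclically consecutive edges -/
def transitions {V : Type u} {G : SimpleGraph V} {v : V} (p : G.Walk v v) :
    Set (Sym2 (Sym2 V)) :=
  {t | ∃ e ∈ p.edges.zip (p.edges.rotate 1), t = s(e.1, e.2)}

/-! ## the local lemma -/

/-- class preserving relabellings, fixing the points without class -/
noncomputable def Om {A X : Type} [Fintype X] [DecidableEq X] [DecidableEq A]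
    (cl : X → Option A) : Finset (Equiv.Perm X) :=
  univ.filter fun σ => ∀ x, cl (σ x) = cl x ∧ (cl x = none → σ x = x)

/-- the matching `M` relabelled by `σ` -/
def rel {X : Type} (σ : Equiv.Perm X) (M : X → X) (x : X) : X := σ.symm (M (σ x))

/-- weighted sum of the inverse lengths of the cycles; `minimalPeriod (T ∘ N) x` is the number
of `T`-edges of the cycle of `x` -/
noncomputable def cost {X : Type} [Fintype X] (T N : X → X) (w : X → ℝ) : ℝ :=
  ∑ x, w x / (Function.minimalPeriod (T ∘ N) x : ℝ)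

/-- `T` is a matching of type `g`: a vertex of class `p` is matched with a vertex of class
`p + g` or with a vertex without class; a vertex `x` without class is matched with a vertex of
class `κ x g` -/
structure IsType {A X : Type} [AddCommGroup A] (cl : X → Option A) (κ : X → A → A) (g : A)
    (T : X → X) : Prop where
  fpf : Fpf T
  some' : ∀ x p, cl x = some p → cl (T x) = some (p + g) ∨ cl (T x) = none
  none' : ∀ x, cl x = none → cl (T x) = some (κ x g)

/-- the base system of matchings `M g j` -/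
structure Frame (A X : Type) [AddCommGroup A] [DecidableEq A] [Fintype X] [DecidableEq X]
    (m n₀ : ℕ) where
  cl : X → Option A
  κ : X → A → A
  M : A → Fin m → X → X
  two : ∀ p : A, p + p = 0
  card_cl : ∀ p, (univ.filter fun x => cl x = some p).card = m
  card_none : (univ.filter fun x => cl x = none).card = n₀
  typ : ∀ g, g ≠ 0 → ∀ j, IsType cl κ g (M g j)
  disj : ∀ g, g ≠ 0 → ∀ i j, i ≠ j → ∀ x, M g i x ≠ M g j x
  κ_inj : ∀ x, Function.Injective (κ x)

/-- number of used reserve edges at `x` -/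
def ld {X : Type} [DecidableEq X] (U : Finset (X × X)) (x : X) : ℕ :=
  (U.filter fun e => e.1 = x).card

/-- number of used reserve edges of type `h` at `x` -/
def ldh {A X : Type} [AddCommGroup A] [DecidableEq A] [DecidableEq X] (cl : X → Option A)
    (U : Finset (X × X)) (h : A) (x : X) : ℕ :=
  (U.filter fun e => e.1 = x ∧ cl e.2 = (cl x).map (· + h)).card

/-- `x y` is a reserve edge -/
def ResEdge {A X : Type} [AddCommGroup A] (cl : X → Option A) (R : Finset A) (x y : X) : Prop :=
  ∃ p, ∃ h ∈ R, cl x = some p ∧ cl y = some (p + h)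

/-- hypotheses of the merging stage for one colour: `T` the matching of type `g`, `N` the given
matching, `U` the used reserve edges, `E` the designated vertices (the `T`-edges `a T(a)`,
`a ∈ E`, are the designated edges; every cycle contains at least one) -/
structure Ctx {A X : Type} [AddCommGroup A] [DecidableEq A] [Fintype X] [DecidableEq X]
    (cl : X → Option A) (κ : X → A → A) (m n₀ : ℕ) (R : Finset A) (g : A) (T N : X → X)
    (U : Finset (X × X)) (E : Finset X) : Prop where
  two : ∀ p : A, p + p = 0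
  g0 : g ≠ 0
  gR : g ∉ R
  R0 : (0 : A) ∉ R
  Rcard : 64 ≤ R.card
  gen : ∀ S : Set A, S.Nonempty → (∀ p ∈ S, ∀ h ∈ R, p + h ∈ S) → ∀ p, p ∈ S
  mpos : 0 < m
  card_cl : ∀ p, (univ.filter fun x => cl x = some p).card = m
  card_none : (univ.filter fun x => cl x = none).card = n₀
  n₀m : 16 * n₀ ≤ m
  typ : IsType cl κ g T
  fpfN : Fpf N
  symU : ∀ x y, (x, y) ∈ U → (y, x) ∈ U
  E1 : ∀ a ∈ E, cl a ≠ none ∧ cl (T a) ≠ none
  E2 : ∀ x, ∃ a ∈ E, Reach T N x a
  E3 : 32 * E.card ≤ m
  E4 : ∀ a ∈ E, ld U a + ld U (T a) ≤ 8 * m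
  light : 32 * (univ.filter fun x => m ≤ 16 * ld U x).card ≤ m

/-- invariant during the merging of one colour: `T'` is the current matching, `E'` the set of
designated vertices that are left -/
structure Inv {A X : Type} [AddCommGroup A] [DecidableEq A] [Fintype X] [DecidableEq X]
    (cl : X → Option A) (m : ℕ) (R : Finset A) (T N : X → X)
    (U : Finset (X × X)) (E : Finset X) (T' : X → X) (E' : Finset X) : Prop where
  fpf : Fpf T'
  sub : E' ⊆ E
  keep : ∀ a ∈ E', T' a = T a
  cov : ∀ x, ∃ a ∈ E', Reach T' N x a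
  edge : ∀ x, T' x = T x ∨ (ResEdge cl R x (T' x) ∧ (x, T' x) ∉ U)
  chg : ∀ x, T' x ≠ T x → 16 * ld U x < m ∨ x ∈ E ∨ T x ∈ E
  cnt : (univ.filter fun x => T' x ≠ T x).card + 4 * E'.card ≤ 4 * E.card

/-- `c` can be used as a free partner: the `T`-edge `c T(c)` is still there, it is light and not
designated -/
def Good {A X : Type} [AddCommGroup A] [DecidableEq A] [Fintype X] [DecidableEq X]
    (cl : X → Option A) (m : ℕ) (T : X → X) (U : Finset (X × X)) (E : Finset X) (T' : X → X)
    (c : X) : Prop :=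
  T' c = T c ∧ cl c ≠ none ∧ cl (T c) ≠ none ∧ 16 * ld U c < m ∧ 16 * ld U (T c) < m ∧
    c ∉ E ∧ T c ∉ E

/-- outcome of the selection stage for the indices in `S` -/
structure Sel {A X : Type} [AddCommGroup A] [DecidableEq A] [Fintype X] [DecidableEq X]
    {m n₀ : ℕ} (F : Frame A X m n₀) {r : ℕ} (N : Fin r → X → X) (P : Finset A)
    (S : Finset (Fin r)) (g : Fin r → A) (T : Fin r → X → X) (E : Fin r → Finset X) : Prop where
  gP : ∀ i ∈ S, g i ∈ P
  typ : ∀ i ∈ S, IsType F.cl F.κ (g i) (T i)
  disj : ∀ i ∈ S, ∀ j ∈ S, i ≠ j → ∀ x, T i x ≠ T j x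
  E1 : ∀ i ∈ S, ∀ a ∈ E i, F.cl a ≠ none ∧ F.cl (T i a) ≠ none
  E2 : ∀ i ∈ S, ∀ x, ∃ a ∈ E i, Reach (T i) (N i) x a
  E3 : ∀ i ∈ S, 32 * (E i).card ≤ m

/-- state of the selection stage after the types in `P` have been used. `B` is the base of the
potential, `w` the weights -/
structure St {A X : Type} [AddCommGroup A] [Fintype A] [DecidableEq A] [Fintype X]
    [DecidableEq X] {m n₀ : ℕ} (F : Frame A X m n₀) {r : ℕ} (N : Fin r → X → X) (B : ℕ)
    (P : Finset A) (S : Finset (Fin r)) (g : Fin r → A) (T : Fin r → X → X)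
    (E : Fin r → Finset X) (w : X → ℝ) : Prop where
  sel : Sel F N P S g T E
  w1 : ∀ x, 1 ≤ w x
  wm : ∀ x, F.cl x = none → (m : ℝ) ≤ w x
  tot : ∑ x, w x ≤ 2 ^ P.card * ((Fintype.card A + n₀) * m)
  pot : ∀ x, ∃ b : ℕ, (B : ℝ) ^ b ≤ w x ∧
    16 * Fintype.card A * (S.filter fun i => x ∈ E i ∨ T i x ∈ E i).card ≤
      16 * Fintype.card A * m * b + P.card * m
  sumE : ((∑ i ∈ S, (E i).card : ℕ) : ℝ) ≤
    P.card * ((2 + 4 * n₀) * (3 * m / (2 * (Nat.sqrt m : ℝ))) *
      (2 ^ Fintype.card A * ((Fintype.card A + n₀) * m)))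

end H20JT
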