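import Pool.Agent.H20.JT.Stm

namespace H20JT

open Finset

theorem des_symm {X : Type*} {T N : X → X} (hT : ∀ x, T (T x) = x) (hN : ∀ x, N (N x) = x)
    {x y : X} (h : Reach T N x y) : Reach T N y x := by
  induction h with
  | refl => exact Relation.ReflTransGen.refl
  | tail _ hbc ih =>
    refine Relation.ReflTransGen.head ?_ ih
    rcases hbc with h | h
    · left; rw [h, hT]
    · right; rw [h, hN]

theorem des_class {A X : Type} [DecidableEq A] [Fintype X] [DecidableEq X]
    (cl : X → Option A) (m n₀ : ℕ) (T N : X → X) (w : X → ℝ) (hm : 0 < m)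
    (hn : (univ.filter fun x => cl x = none).card = n₀) (hT : Fpf T) (hN : Fpf N)
    (hw : ∀ x, 1 ≤ w x) (hwm : ∀ x, cl x = none → (m : ℝ) ≤ w x)
    (hc : 16 * (2 + 4 * n₀) * cost T N w ≤ m)
    (O : Finset X) (hO : O.Nonempty) (hOT : ∀ x ∈ O, T x ∈ O) (hON : ∀ x ∈ O, N x ∈ O) :
    ∃ a ∈ O, (cl a ≠ none ∧ cl (T a) ≠ none) ∧ w a + w (T a) ≤
      (2 + 4 * n₀) * ∑ x ∈ O, w x / (Function.minimalPeriod (T ∘ N) x : ℝ) := by
  classical
  have hinjT : Function.Injective T := fun a b h => by rw [← hT.1 a, h, hT.1]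
  have hinjN : Function.Injective N := fun a b h => by rw [← hN.1 a, h, hN.1]
  have hinj : Function.Injective (T ∘ N) := hinjT.comp hinjN
  have hpos : ∀ x, 0 < Function.minimalPeriod (T ∘ N) x := fun x =>
    Function.minimalPeriod_pos_of_mem_periodicPts (hinj.mem_periodicPts x)
  have hmem : ∀ (i : ℕ) (x : X), x ∈ O → (T ∘ N)^[i] x ∈ O := by
    intro i
    induction i with
    | zero => intro x hx; simpa using hx
    | succ i ih =>
      intro x hx
      rw [Function.iterate_succ_apply]
      exact ih _ (hOT _ (hON _ hx))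
  have hle : ∀ x ∈ O, Function.minimalPeriod (T ∘ N) x ≤ O.card := by
    intro x hx
    have := Finset.card_le_card_of_injOn (s := Finset.range (Function.minimalPeriod (T ∘ N) x))
      (t := O) (fun i => (T ∘ N)^[i] x) (fun i _ => hmem i x hx) (by
        intro i hi j hj h
        exact Function.iterate_injOn_Iio_minimalPeriod
          (by simpa using hi) (by simpa using hj) h)
    simpa using this
  -- the good part
  set O' := O.filter fun x => cl x ≠ none ∧ cl (T x) ≠ none with hO'
  have hbad : (O \ O').card ≤ 2 * n₀ := by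
    have h1 : O \ O' ⊆ (univ.filter fun x => cl x = none) ∪
        (univ.filter fun x => cl x = none).image T := by
      intro x hx
      rw [mem_sdiff, hO', mem_filter, not_and] at hx
      have := hx.2 hx.1
      rw [mem_union, mem_filter, mem_image]
      by_cases h : cl x = none
      · left; exact ⟨mem_univ _, h⟩
      · right
        refine ⟨T x, ?_, hT.1 x⟩
        rw [mem_filter]
        refine ⟨mem_univ _, ?_⟩
        by_contra h2
        exact this ⟨h, h2⟩
    have h2 := card_le_card h1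
    have h3 := card_union_le (univ.filter fun x => cl x = none)
      ((univ.filter fun x => cl x = none).image T)
    have h4 : ((univ.filter fun x => cl x = none).image T).card ≤ n₀ := by
      rw [← hn]; exact card_image_le
    omega
  have hsub : O' ⊆ O := filter_subset _ _
  have hcard : O.card ≤ O'.card + 2 * n₀ := by
    have := card_sdiff_add_card_eq_card hsub
    omega
  have hterm : ∀ x, 0 ≤ w x / (Function.minimalPeriod (T ∘ N) x : ℝ) := fun x =>
    div_nonneg (by linarith [hw x]) (Nat.cast_nonneg _)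
  have hne : O'.Nonempty := by
    by_contra hcon
    rw [not_nonempty_iff_eq_empty] at hcon
    have hOc : O.card ≤ 2 * n₀ := by rw [hcon] at hcard; simpa using hcard
    obtain ⟨x, hx⟩ := hO
    have hxO' : x ∉ O' := by rw [hcon]; simp
    have hz : ∃ z ∈ O, cl z = none := by
      by_cases h : cl x = none
      · exact ⟨x, hx, h⟩
      · refine ⟨T x, hOT x hx, ?_⟩
        by_contra h2
        exact hxO' (mem_filter.2 ⟨hx, h, h2⟩)
    obtain ⟨z, hzO, hz⟩ := hz
    have h1 : w z / (Function.minimalPeriod (T ∘ N) z : ℝ) ≤ cost T N w :=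
      Finset.single_le_sum (f := fun x => w x / (Function.minimalPeriod (T ∘ N) x : ℝ))
        (fun x _ => hterm x) (mem_univ z)
    have hpz : (0 : ℝ) < (Function.minimalPeriod (T ∘ N) z : ℝ) := by exact_mod_cast hpos z
    have h2 : (Function.minimalPeriod (T ∘ N) z : ℝ) ≤ 2 * n₀ := by
      exact_mod_cast (hle z hzO).trans hOc
    have h3 : (m : ℝ) ≤ w z := hwm z hz
    have hm' : (0 : ℝ) < m := by exact_mod_cast hm
    rw [div_le_iff₀ hpz] at h1
    have hcn : 0 ≤ cost T N w := Finset.sum_nonneg fun x _ => hterm x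
    have h4 : cost T N w * (Function.minimalPeriod (T ∘ N) z : ℝ) ≤ cost T N w * (2 * n₀) :=
      mul_le_mul_of_nonneg_left h2 hcn
    nlinarith
  obtain ⟨a, ha, hmin⟩ := Finset.exists_min_image O' (fun x => w x + w (T x)) hne
  have ha' := mem_filter.1 ha
  refine ⟨a, ha'.1, ha'.2, ?_⟩
  have h1 : (O'.card : ℝ) * (w a + w (T a)) ≤ ∑ x ∈ O', (w x + w (T x)) := by
    rw [← nsmul_eq_mul]
    exact Finset.card_nsmul_le_sum _ _ _ hmin
  have h2 : ∑ x ∈ O', w (T x) = ∑ x ∈ O', w x := by
    refine Finset.sum_nbij' T T ?_ ?_ (fun x _ => hT.1 x) (fun x _ => hT.1 x) (fun x _ => rfl)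
    · intro x hx
      have := mem_filter.1 hx
      refine mem_filter.2 ⟨hOT x this.1, this.2.2, ?_⟩
      rw [hT.1]; exact this.2.1
    · intro x hx
      have := mem_filter.1 hx
      refine mem_filter.2 ⟨hOT x this.1, this.2.2, ?_⟩
      rw [hT.1]; exact this.2.1
  rw [Finset.sum_add_distrib, h2] at h1
  have hOpos : (0 : ℝ) < O'.card := by exact_mod_cast hne.card_pos
  have hOpos' : (0 : ℝ) < O.card := by exact_mod_cast hO.card_pos
  have h3 : (∑ x ∈ O', w x) / O.card ≤ ∑ x ∈ O, w x / (Function.minimalPeriod (T ∘ N) x : ℝ) := by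
    rw [Finset.sum_div]
    calc ∑ x ∈ O', w x / (O.card : ℝ)
        ≤ ∑ x ∈ O', w x / (Function.minimalPeriod (T ∘ N) x : ℝ) := by
          refine Finset.sum_le_sum fun x hx => ?_
          refine div_le_div_of_nonneg_left (by linarith [hw x]) ?_ ?_
          · exact_mod_cast hpos x
          · exact_mod_cast hle x (hsub hx)
      _ ≤ _ := Finset.sum_le_sum_of_subset_of_nonneg hsub fun x _ _ => hterm x
  have h5 : (O.card : ℝ) ≤ (1 + 2 * n₀) * O'.card := by
    have h6 : (O.card : ℝ) ≤ O'.card + 2 * n₀ := by exact_mod_cast hcard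
    have h7 : (1 : ℝ) ≤ O'.card := by exact_mod_cast hne.card_pos
    have h8 : (0 : ℝ) ≤ n₀ := Nat.cast_nonneg _
    nlinarith
  have hS : 0 ≤ ∑ x ∈ O', w x := Finset.sum_nonneg fun x _ => by linarith [hw x]
  have h9 : w a + w (T a) ≤ (2 + 4 * n₀) * ((∑ x ∈ O', w x) / O.card) := by
    rw [← mul_div_assoc, le_div_iff₀ hOpos']
    have h10 : 0 ≤ w a + w (T a) := by linarith [hw a, hw (T a)]
    have h8 : (0 : ℝ) ≤ n₀ := Nat.cast_nonneg _
    calc (w a + w (T a)) * O.card ≤ (w a + w (T a)) * ((1 + 2 * n₀) * O'.card) :=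
          mul_le_mul_of_nonneg_left h5 h10
      _ = (1 + 2 * n₀) * (O'.card * (w a + w (T a))) := by ring
      _ ≤ (1 + 2 * n₀) * (∑ x ∈ O', w x + ∑ x ∈ O', w x) :=
          mul_le_mul_of_nonneg_left h1 (by linarith)
      _ = _ := by ring
  refine h9.trans ?_
  refine mul_le_mul_of_nonneg_left h3 ?_
  have h8 : (0 : ℝ) ≤ n₀ := Nat.cast_nonneg _
  linarith

theorem des : S_DES := by
  intro A X _ _ _ cl m n₀ T N w hm hn hT hN hno hw hwm hc
  classical
  let s : Setoid X := ⟨Reach T N, fun x => Relation.ReflTransGen.refl,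
    fun h => des_symm hT.1 hN.1 h, fun h1 h2 => Relation.ReflTransGen.trans h1 h2⟩
  have hcls : ∀ q : Quotient s, ∃ a, (Quotient.mk s a = q) ∧ (cl a ≠ none ∧ cl (T a) ≠ none) ∧
      w a + w (T a) ≤ (2 + 4 * n₀) *
        ∑ x ∈ univ.filter (fun x => Quotient.mk s x = q),
          w x / (Function.minimalPeriod (T ∘ N) x : ℝ) := by
    intro q
    obtain ⟨x₀, hx₀⟩ := Quotient.exists_rep q
    obtain ⟨a, haO, ha1, ha2⟩ := des_class cl m n₀ T N w hm hn hT hN hw hwm hc
      (univ.filter (fun x => Quotient.mk s x = q)) ⟨x₀, by simpa using hx₀⟩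
      (by
        intro x hx
        rw [mem_filter] at hx ⊢
        refine ⟨mem_univ _, ?_⟩
        rw [← hx.2]
        exact Quotient.sound (show Reach T N (T x) x from
          Relation.ReflTransGen.single (Or.inl (hT.1 x).symm)))
      (by
        intro x hx
        rw [mem_filter] at hx ⊢
        refine ⟨mem_univ _, ?_⟩
        rw [← hx.2]
        exact Quotient.sound (show Reach T N (N x) x from
          Relation.ReflTransGen.single (Or.inr (hN.1 x).symm)))
    exact ⟨a, (mem_filter.1 haO).2, ha1, ha2⟩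
  choose a ha1 ha2 ha3 using hcls
  have hainj : Function.Injective a := fun p q h => by rw [← ha1 p, h, ha1]
  refine ⟨univ.image a, ?_, ?_, ?_⟩
  · intro b hb
    obtain ⟨q, -, rfl⟩ := mem_image.1 hb
    exact ha2 q
  · intro x
    refine ⟨a (Quotient.mk s x), mem_image_of_mem _ (mem_univ _), ?_⟩
    have := Quotient.exact (ha1 (Quotient.mk s x))
    exact des_symm hT.1 hN.1 this
  · rw [Finset.sum_image (fun x _ y _ h => hainj h)]
    calc ∑ q, (w (a q) + w (T (a q)))
        ≤ ∑ q, (2 + 4 * n₀) * ∑ x ∈ univ.filter (fun x => Quotient.mk s x = q),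
          w x / (Function.minimalPeriod (T ∘ N) x : ℝ) := Finset.sum_le_sum fun q _ => ha3 q
      _ = (2 + 4 * n₀) * cost T N w := by
        rw [← Finset.mul_sum]
        congr 1
        exact Finset.sum_fiberwise univ (fun x => Quotient.mk s x)
          (fun x => w x / (Function.minimalPeriod (T ∘ N) x : ℝ))

end H20JT
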