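import Pool.Agent.H20.JT.Mrg

/-! # Project JT, stub EUL: an Euler tour exists. -/

namespace H20JT

open Finset

universe u

theorem eul : S_EVEN.{u, u} → S_MRG.{u} → S_EUL.{u} := by
  intro hEven hMrg D V _ _ _ ρ src hρ hev hconn
  classical
  obtain ⟨τ₀, hτ₀, hs₀⟩ := hEven D V src hev
  rcases isEmpty_or_nonempty D with hD | ⟨⟨x₀⟩⟩
  · exact ⟨τ₀, hτ₀, hs₀, fun x => (hD.false x).elim⟩
  have : Nonempty {τ : D → D // Fpf τ ∧ ∀ x, src (τ x) = src x} := ⟨⟨τ₀, hτ₀, hs₀⟩⟩
  obtain ⟨⟨τ, hτ, hs⟩, hmax⟩ := Finite.exists_max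
    (fun τ : {τ : D → D // Fpf τ ∧ ∀ x, src (τ x) = src x} =>
      (univ.filter fun x => Reach τ.1 ρ x₀ x).card)
  refine ⟨τ, hτ, hs, ?_⟩
  have hall : ∀ y, Reach τ ρ x₀ y := by
    by_contra hno
    have hcross : ∃ a c, Reach τ ρ x₀ a ∧ src c = src a ∧ ¬ Reach τ ρ x₀ c := by
      by_contra hc
      push Not at hc
      apply hno
      intro y
      induction hconn x₀ y with
      | refl => exact Relation.ReflTransGen.refl
      | @tail y z _ hyz ih =>
        rcases hyz with h | h
        · exact ih.tail (Or.inr h)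
        · exact hc y z ih h
    obtain ⟨a, c, ha, hsc, hc⟩ := hcross
    have hac : ¬ Reach τ ρ a c := fun h => hc (ha.trans h)
    obtain ⟨h1, h2, h3, h4, h5, h6, h7, h8⟩ := hMrg D τ ρ a c hτ hρ hac
    have hs' : ∀ x, src (mrg τ a c x) = src x := by
      intro x
      by_cases x1 : x = a
      · rw [x1, h2, hsc]
      by_cases x2 : x = τ a
      · rw [x2, h3, hs, hs, hsc]
      by_cases x3 : x = c
      · rw [x3, h4, hsc]
      by_cases x4 : x = τ c
      · rw [x4, h5, hs, hs, hsc]
      rw [h6 x x1 x2 x3 x4, hs]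
    have hlt : (univ.filter fun x => Reach τ ρ x₀ x).card <
        (univ.filter fun x => Reach (mrg τ a c) ρ x₀ x).card := by
      apply Finset.card_lt_card
      rw [Finset.ssubset_iff_of_subset]
      · exact ⟨c, by
          simp only [Finset.mem_filter, Finset.mem_univ, true_and]
          exact (h7 _ _ ha).trans h8, by simpa using hc⟩
      · intro x hx
        simp only [Finset.mem_filter, Finset.mem_univ, true_and] at hx ⊢
        exact h7 _ _ hx
    exact absurd (hmax ⟨mrg τ a c, h1, hs'⟩) (not_le.2 hlt)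
  exact fun x y => (mrg_reach_symm hτ.1 hρ.1 (hall x)).trans (hall y)

end H20JT
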