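import Pool.Agent.H20.JT.Stm

/-! Stub JT-EVEN of project JT (MP_fe131b_co). -/

namespace H20JT

open Finset

universe u v

theorem even_aux {X : Type u} {ι : Type v} [DecidableEq X] [DecidableEq ι] (c : X → ι) :
    ∀ (n : ℕ) (S : Finset X), S.card = n → (∀ i, Even (S.filter fun x => c x = i).card) →
      ∃ N : X → X, ∀ x ∈ S, N x ∈ S ∧ N (N x) = x ∧ N x ≠ x ∧ c (N x) = c x := by
  intro n
  induction n using Nat.strong_induction_on with
  | _ n ih =>
    intro S hS hev
    rcases S.eq_empty_or_nonempty with rfl | ⟨a, ha⟩
    · exact ⟨id, by simp⟩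
    have haf : a ∈ S.filter fun x => c x = c a := by simp [ha]
    have h1 : 1 < (S.filter fun x => c x = c a).card := by
      have h2 := hev (c a)
      have h3 : 0 < (S.filter fun x => c x = c a).card := card_pos.2 ⟨a, haf⟩
      rcases h2 with ⟨k, hk⟩
      omega
    obtain ⟨b, hb, hba⟩ := exists_mem_ne h1 a
    rw [mem_filter] at hb
    have hbS : b ∈ S.erase a := mem_erase.2 ⟨hba, hb.1⟩
    have hcard : ((S.erase a).erase b).card + 2 = S.card := by
      have h2 := card_erase_add_one ha
      have h3 := card_erase_add_one hbS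
      omega
    obtain ⟨N, hN⟩ := ih ((S.erase a).erase b).card (by omega) ((S.erase a).erase b) rfl (by
      intro i
      rw [filter_erase, filter_erase]
      by_cases hi : c a = i
      · have haf' : a ∈ S.filter fun x => c x = i := by simp [ha, hi]
        have hbf' : b ∈ (S.filter fun x => c x = i).erase a := by
          simp [hba, hb.1, hb.2, hi]
        have h2 := card_erase_add_one haf'
        have h3 := card_erase_add_one hbf'
        have h4 := hev i
        rcases h4 with ⟨k, hk⟩
        exact ⟨k - 1, by omega⟩
      · have h2 : a ∉ S.filter fun x => c x = i := by simp [hi]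
        have h3 : b ∉ S.filter fun x => c x = i := by simp [hb.2, hi]
        rw [erase_eq_of_notMem h2, erase_eq_of_notMem h3]
        exact hev i)
    refine ⟨fun x => if x = a then b else if x = b then a else N x, ?_⟩
    intro x hx
    by_cases hxa : x = a
    · subst hxa
      simp only [if_true]
      refine ⟨hb.1, ?_, hba, hb.2⟩
      rw [if_neg hba]
    · by_cases hxb : x = b
      · subst hxb
        simp only [if_neg hba, if_true]
        exact ⟨ha, trivial, fun h => hba h.symm, hb.2.symm⟩
      · have hx' : x ∈ (S.erase a).erase b := by simp [hxa, hxb, hx]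
        obtain ⟨k1, k2, k3, k4⟩ := hN x hx'
        have k1' := k1
        rw [mem_erase, mem_erase] at k1'
        simp only [if_neg hxa, if_neg hxb, if_neg k1'.1, if_neg k1'.2.1]
        exact ⟨k1'.2.2, k2, k3, k4⟩

theorem even : S_EVEN.{u, v} := by
  intro X ι _ _ _ c h
  obtain ⟨N, hN⟩ := even_aux c (univ : Finset X).card univ rfl h
  exact ⟨N, ⟨fun x => (hN x (mem_univ x)).2.1, fun x => (hN x (mem_univ x)).2.2.1⟩,
    fun x => (hN x (mem_univ x)).2.2.2⟩

end H20JT
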