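import Pool.Agent.H20.JT.Stm

/-! # Project JT, stub EXM -/

set_option autoImplicit false

namespace H20JT

open Finset

theorem exm_reach_symm {X : Type*} {T N : X → X} (hT : ∀ x, T (T x) = x) (hN : ∀ x, N (N x) = x)
    {x y : X} (h : Reach T N x y) : Reach T N y x := by
  induction h with
  | refl => exact Relation.ReflTransGen.refl
  | tail _ h2 ih =>
    refine Relation.ReflTransGen.head ?_ ih
    rcases h2 with h2 | h2
    · exact Or.inl (by rw [h2, hT])
    · exact Or.inr (by rw [h2, hN])

/-- the loads of the types of `R` add up to at most the load -/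
theorem exm_sum_ldh {A X : Type} [AddCommGroup A] [DecidableEq A] [DecidableEq X]
    (cl : X → Option A) (U : Finset (X × X)) (R : Finset A) (x : X) (hx : cl x ≠ none) :
    ∑ h ∈ R, ldh cl U h x ≤ ld U x := by
  obtain ⟨p, hp⟩ := Option.ne_none_iff_exists'.1 hx
  unfold ldh ld
  rw [← card_biUnion]
  · refine card_le_card fun e he => ?_
    obtain ⟨h, _, h2⟩ := mem_biUnion.1 he
    obtain ⟨h3, h4, _⟩ := mem_filter.1 h2
    exact mem_filter.2 ⟨h3, h4⟩
  · intro h _ h' _ hne
    rw [Function.onFun, disjoint_left]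
    intro e he he'
    obtain ⟨_, _, h5⟩ := mem_filter.1 he
    obtain ⟨_, _, h6⟩ := mem_filter.1 he'
    rw [hp, Option.map_some] at h5 h6
    rw [h5] at h6
    exact hne (add_left_cancel (Option.some.inj h6))

theorem exm_ldh_le {A X : Type} [AddCommGroup A] [DecidableEq A] [DecidableEq X]
    (cl : X → Option A) (U : Finset (X × X)) (h : A) (x : X) : ldh cl U h x ≤ ld U x := by
  refine card_le_card fun e he => ?_
  obtain ⟨h3, h4, _⟩ := mem_filter.1 he
  exact mem_filter.2 ⟨h3, h4⟩

theorem exm : S_AVL → S_EXM := by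
  classical
  intro hAVL A X _ _ _ _ cl κ m n₀ R g T N U E T' E' hC hI hsep h2
  by_contra hno
  have hT' := hI.fpf.1
  have hN := hC.fpfN.1
  have hreach : ∀ a c, (a ∈ E' ∨ Good cl m T U E T' a) → Good cl m T U E T' c → T' a = T a →
      cl (T a) ≠ none → ResEdge cl R a c → (a, c) ∉ U → (T a, T c) ∉ U → Reach T' N a c := by
    intro a c h1 h2 h3 h4 h5 h6 h7
    by_contra h8
    exact hno ⟨a, c, h1, h2, h3, h4, h5, h6, h7, h8⟩
  -- the orbit of a designated vertex contains more than half of every class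
  have key : ∀ e ∈ E', ∀ q : A, m < 2 * (univ.filter fun c => cl c = some q ∧
      Good cl m T U E T' c ∧ Reach T' N e c).card := by
    intro e he
    have heE := hI.sub he
    obtain ⟨e1, e2⟩ := hC.E1 e heE
    obtain ⟨p, hp⟩ := Option.ne_none_iff_exists'.1 e1
    have hstep : ∀ a p h, h ∈ R → cl a = some p → cl (T a) ≠ none → T' a = T a →
        (a ∈ E' ∨ Good cl m T U E T' a) → Reach T' N e a →
        8 * (ldh cl U h a + ldh cl U h (T a)) ≤ m →
        m < 2 * (univ.filter fun c => cl c = some (p + h) ∧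
          Good cl m T U E T' c ∧ Reach T' N e c).card := by
      intro a p h hR ha hTa hT'a hor hea hld
      obtain ⟨C, hC1, hC2⟩ := hAVL A X cl κ m n₀ R g T N U E T' E' hC hI a p h hR ha hTa hld
      refine hC1.trans_le (Nat.mul_le_mul_left 2 (card_le_card fun c hc => ?_))
      obtain ⟨h1, h2, h3, h4⟩ := hC2 c hc
      refine mem_filter.2 ⟨mem_univ _, h1, h2, hea.trans ?_⟩
      exact hreach a c hor h2 hT'a hTa ⟨p, h, hR, ha, h1⟩ h3 h4
    have hgen := hC.gen {q | m < 2 * (univ.filter fun c => cl c = some q ∧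
      Good cl m T U E T' c ∧ Reach T' N e c).card} ?_ ?_
    · exact hgen
    · -- nonempty
      obtain ⟨h, hR, hh⟩ : ∃ h ∈ R, 8 * (ldh cl U h e + ldh cl U h (T e)) ≤ m := by
        by_contra hcon
        push Not at hcon
        have h3 : R.card • (m + 1) ≤ ∑ h ∈ R, 8 * (ldh cl U h e + ldh cl U h (T e)) :=
          card_nsmul_le_sum _ _ _ fun h hh => hcon h hh
        rw [← mul_sum, sum_add_distrib, smul_eq_mul] at h3
        have h4 := exm_sum_ldh cl U R e e1
        have h5 := exm_sum_ldh cl U R (T e) e2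
        have h6 := hC.E4 e heE
        have h7 : 64 * (m + 1) ≤ R.card * (m + 1) := Nat.mul_le_mul_right _ hC.Rcard
        omega
      exact ⟨p + h, hstep e p h hR hp e2 (hI.keep e he) (Or.inl he) Relation.ReflTransGen.refl hh⟩
    · intro q hq h hR
      have hq' : m < 2 * (univ.filter fun c => cl c = some q ∧
        Good cl m T U E T' c ∧ Reach T' N e c).card := hq
      obtain ⟨a, ha⟩ : (univ.filter fun c => cl c = some q ∧
          Good cl m T U E T' c ∧ Reach T' N e c).Nonempty := by
        rw [← card_pos]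
        omega
      obtain ⟨h1, h2, h3⟩ := (mem_filter.1 ha).2
      have hg := h2
      obtain ⟨g1, g2, g3, g4, g5, g6, g7⟩ := h2
      refine hstep a q h hR h1 g3 g1 (Or.inr hg) h3 ?_
      have h8 := exm_ldh_le cl U h a
      have h9 := exm_ldh_le cl U h (T a)
      omega
  obtain ⟨e, he, e', he', hne⟩ := one_lt_card.1 (by omega : 1 < E'.card)
  have k1 := key e he 0
  have k2 := key e' he' 0
  set S1 := univ.filter fun c => cl c = some (0 : A) ∧ Good cl m T U E T' c ∧ Reach T' N e c with hS1
  set S2 := univ.filter fun c => cl c = some (0 : A) ∧ Good cl m T U E T' c ∧ Reach T' N e' c with hS2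
  have hcup : (S1 ∪ S2).card ≤ m := by
    rw [← hC.card_cl 0]
    refine card_le_card fun c hc => ?_
    rcases mem_union.1 hc with h3 | h3
    · exact mem_filter.2 ⟨mem_univ _, (mem_filter.1 h3).2.1⟩
    · exact mem_filter.2 ⟨mem_univ _, (mem_filter.1 h3).2.1⟩
  have h3 := card_union_add_card_inter S1 S2
  obtain ⟨c, hc⟩ : (S1 ∩ S2).Nonempty := by
    rw [← card_pos]
    omega
  obtain ⟨h4, h5⟩ := mem_inter.1 hc
  have h6 := (mem_filter.1 h4).2.2.2
  have h7 := (mem_filter.1 h5).2.2.2
  exact hsep e he e' he' hne (h6.trans (exm_reach_symm hT' hN h7))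

end H20JT
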