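import Pool.Agent.H20.JT.Stm

/-! # Project JT, stub FIN: the final theorem from the transition systems -/

namespace H20JT

open Finset

universe u

/-- all darts are connected by reversals and changes of the dart at a vertex -/
lemma fin_conn {V : Type u} (G : SimpleGraph V) {a b : V} (p : G.Walk a b) :
    ∀ x y : G.Dart, x.fst = a → y.fst = b →
      Relation.ReflTransGen (fun x y : G.Dart => y = x.symm ∨ y.fst = x.fst) x y := by
  induction p with
  | nil =>
    intro x y hx hy
    exact Relation.ReflTransGen.single (Or.inr (hy.trans hx.symm))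
  | @cons a c b h p ih =>
    intro x y hx hy
    have h1 : Relation.ReflTransGen (fun x y : G.Dart => y = x.symm ∨ y.fst = x.fst) x
        ⟨(a, c), h⟩ := Relation.ReflTransGen.single (Or.inr hx.symm)
    have h2 : Relation.ReflTransGen (fun x y : G.Dart => y = x.symm ∨ y.fst = x.fst) x
        (SimpleGraph.Dart.symm ⟨(a, c), h⟩) := h1.tail (Or.inl rfl)
    exact h2.trans (ih _ y rfl hy)

lemma fin_dart_eq {V : Type u} {G : SimpleGraph V} {x y : G.Dart} (h : x.edge = y.edge)
    (hf : x.fst = y.fst) : x = y := by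
  rcases SimpleGraph.dart_edge_eq_iff x y |>.1 h with h1 | h1
  · exact h1
  · exfalso
    rw [h1] at hf
    exact y.adj.ne hf.symm

lemma fin_common {V : Type u} {G : SimpleGraph V} {x y : G.Dart} (hne : x ≠ y)
    (hf : x.fst = y.fst) {v : V} (hx : v ∈ x.edge) (hy : v ∈ y.edge) : v = x.fst := by
  by_contra hv
  apply hne
  have h1 : v = x.snd := by
    have h2 : v ∈ s(x.fst, x.snd) := hx
    rcases Sym2.mem_iff.1 h2 with h3 | h3
    · exact absurd h3 hv
    · exact h3
  have h2 : v = y.snd := by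
    have h2 : v ∈ s(y.fst, y.snd) := hy
    rcases Sym2.mem_iff.1 h2 with h3 | h3
    · exact absurd (h3.trans hf.symm) hv
    · exact h3
  apply SimpleGraph.Dart.ext
  exact Prod.ext hf (h1.symm.trans h2)

lemma fin_fst_mem {V : Type u} {G : SimpleGraph V} (x : G.Dart) : x.fst ∈ x.edge :=
  Sym2.mem_mk_left x.fst x.snd

theorem fin : S_DART.{u} → S_WALK.{u} → S_FIN.{u} := by
  classical
  intro hD hW ε hε
  obtain ⟨n₁, hn₁⟩ := hD (min (ε / 4) (1 / 2)) (lt_min (by linarith) (by norm_num))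
  refine ⟨max (max n₁ 1) (⌈2 / ε⌉₊), ?_⟩
  intro V _ _ G _ d hd hconn heven hmin
  simp only [max_le_iff] at hd
  obtain ⟨⟨hd1, hd2⟩, hd3⟩ := hd
  have hdR : (1:ℝ) ≤ d := by exact_mod_cast hd2
  have hdε : 2 ≤ ε * d := by
    have h1 : 2 / ε ≤ d := (Nat.le_ceil _).trans (by exact_mod_cast hd3)
    rw [div_le_iff₀ hε] at h1
    linarith
  have hdeg : ∀ v, 2 * d ≤ G.degree v := fun v => by
    rw [← hmin]
    exact G.minDegree_le_degree v
  have hfib : ∀ v : V, (univ.filter fun x : G.Dart => x.fst = v).card = G.degree v := by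
    intro v
    have := G.dart_fst_fiber_card_eq_degree v
    convert this
  have hsymm : Fpf (SimpleGraph.Dart.symm : G.Dart → G.Dart) :=
    ⟨fun x => SimpleGraph.Dart.symm_symm x, fun x => SimpleGraph.Dart.symm_ne x⟩
  set r : ℕ := ⌈(2 - ε) * d⌉₊ with hr
  have hrle : ∀ v : V, (r : ℝ) ≤ (1 - min (ε / 4) (1 / 2)) *
      (univ.filter fun x : G.Dart => x.fst = v).card := by
    intro v
    rw [hfib v]
    have h1 : (2:ℝ) * d ≤ G.degree v := by exact_mod_cast hdeg v
    have h2 : 1 / 2 ≤ 1 - min (ε / 4) (1 / 2) := by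
      have := min_le_right (ε / 4) (1 / 2 : ℝ)
      linarith
    have h3 : 1 - ε / 4 ≤ 1 - min (ε / 4) (1 / 2) := by
      have := min_le_left (ε / 4) (1 / 2 : ℝ)
      linarith
    have h4 : (1 - min (ε / 4) (1 / 2)) * (2 * d) ≤ (1 - min (ε / 4) (1 / 2)) * G.degree v :=
      mul_le_mul_of_nonneg_left h1 (by linarith)
    refine le_trans ?_ h4
    have h5 : (1 - ε / 4) * (2 * d) ≤ (1 - min (ε / 4) (1 / 2)) * (2 * d) :=
      mul_le_mul_of_nonneg_right h3 (by positivity)
    have h6 : 1 / 2 * (2 * (d : ℝ)) ≤ (1 - min (ε / 4) (1 / 2)) * (2 * d) :=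
      mul_le_mul_of_nonneg_right h2 (by positivity)
    rcases le_or_gt 0 ((2 - ε) * d) with h | h
    · have h7 := (Nat.ceil_lt_add_one h).le
      rw [← hr] at h7
      have h8 : (2 - ε) * d + 1 ≤ (1 - ε / 4) * (2 * d) := by nlinarith
      linarith
    · have h7 : r = 0 := by
        rw [hr]
        exact Nat.ceil_eq_zero.2 h.le
      rw [h7]
      push_cast
      linarith
  obtain ⟨τ, hτ, hτd⟩ := hn₁ G.Dart V (SimpleGraph.Dart.symm) (fun x => x.fst) r hsymm
    (fun v => by rw [hfib v]; exact heven v)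
    (fun v => by rw [hfib v]; have := hdeg v; omega) hrle
    (fun x y => by
      obtain ⟨p⟩ := hconn.preconnected x.fst y.fst
      exact fin_conn G p x y rfl rfl)
  have hne : Nonempty G.Dart := by
    obtain ⟨v⟩ := hconn.nonempty
    have h1 : 0 < G.degree v := by
      have := hdeg v
      omega
    rw [G.degree_pos_iff_exists_adj] at h1
    obtain ⟨w, hw⟩ := h1
    exact ⟨⟨(v, w), hw⟩⟩
  have hex : ∀ i : Fin r, ∃ (v : V) (p : G.Walk v v), p.IsEulerian ∧
      ∀ t ∈ transitions p, ∃ y : G.Dart, t = s(y.edge, (τ i y).edge) := fun i =>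
    hW V G (τ i) hne (hτ i).1 (hτ i).2.1 (hτ i).2.2
  choose v p hp ht using hex
  refine ⟨r, Nat.le_ceil _, v, p, hp, ?_⟩
  intro i j hij
  rw [Set.disjoint_left]
  intro t h1 h2
  obtain ⟨y, hy⟩ := ht i t h1
  obtain ⟨z, hz⟩ := ht j t h2
  rw [hy] at hz
  have hy1 : (τ i y).fst = y.fst := (hτ i).2.1 y
  have hz1 : (τ j z).fst = z.fst := (hτ j).2.1 z
  have hy2 : y ≠ τ i y := ((hτ i).1.2 y).symm
  rcases Sym2.eq_iff.1 hz with ⟨h3, h4⟩ | ⟨h3, h4⟩
  · have h5 : z.fst = y.fst := by
      apply fin_common hy2 hy1.symm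
      · rw [h3]
        exact fin_fst_mem z
      · rw [h4, ← hz1]
        exact fin_fst_mem _
    have h6 : y = z := fin_dart_eq h3 h5.symm
    have h7 : τ i y = τ j z := fin_dart_eq h4 (by rw [hy1, hz1, h5])
    rw [← h6] at h7
    exact hτd i j hij y h7
  · have h5 : z.fst = y.fst := by
      apply fin_common hy2 hy1.symm
      · rw [h3, ← hz1]
        exact fin_fst_mem _
      · rw [h4]
        exact fin_fst_mem z
    have h6 : y = τ j z := fin_dart_eq h3 (by rw [hz1, h5])
    have h7 : τ i y = z := fin_dart_eq h4 (by rw [hy1, h5])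
    have h8 : τ j y = z := by rw [h6, (hτ j).1.1]
    exact hτd i j hij y (h7.trans h8.symm)

end H20JT
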