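import Pool.Agent.H20.JT.Stm2
import Pool.Agent.H20.JT.Fin

/-! # Project JT2, stub FIN2: the final theorem with an error term (helper72) -/

namespace H20JT

open Finset

universe u

lemma fin2_mono {a k : ℝ} (ha : 1 ≤ a) (hk : a ≤ k) :
    a - a ^ (4 / 5 : ℝ) ≤ k - k ^ (4 / 5 : ℝ) := by
  have ha0 : 0 < a := by linarith
  have hk0 : 0 < k := by linarith
  have e : ∀ x : ℝ, 0 < x → x - x ^ (4 / 5 : ℝ) = x * (1 - x ^ (-(1 / 5) : ℝ)) := by
    intro x hx
    have : x ^ (4 / 5 : ℝ) = x * x ^ (-(1 / 5) : ℝ) := by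
      nth_rewrite 2 [← Real.rpow_one x]
      rw [← Real.rpow_add hx]
      norm_num
    rw [this]; ring
  rw [e a ha0, e k hk0]
  have h1 : k ^ (-(1 / 5) : ℝ) ≤ a ^ (-(1 / 5) : ℝ) :=
    Real.rpow_le_rpow_of_nonpos ha0 hk (by norm_num)
  have h2 : a ^ (-(1 / 5) : ℝ) ≤ 1 := Real.rpow_le_one_of_one_le_of_nonpos ha (by norm_num)
  exact mul_le_mul hk (by linarith) (by linarith) hk0.le

theorem fin2 : S_DART2.{u} → S_WALK.{u} → S_FIN2.{u} := by
  classical
  intro hD hW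
  obtain ⟨n₁, hn₁⟩ := hD
  refine ⟨2 * (max n₁ 1 : ℕ) + 3, ?_⟩
  intro V _ _ G _ d hconn heven hmin
  rcases lt_or_ge d (max n₁ 1) with hd | hd
  · refine ⟨0, ?_, fun i => i.elim0, fun i => i.elim0, fun i => i.elim0, fun i => i.elim0⟩
    rcases Nat.eq_zero_or_pos d with h0 | h0
    · subst h0
      have : ((0 : ℕ) : ℝ) ^ (4 / 5 : ℝ) = 0 := by
        rw [Nat.cast_zero]
        exact Real.zero_rpow (by norm_num)
      rw [this]
      simp
    · have h1 : (1 : ℝ) ≤ (d : ℝ) ^ (4 / 5 : ℝ) :=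
        Real.one_le_rpow (by exact_mod_cast h0) (by norm_num)
      have h2 : (d : ℝ) ≤ (max n₁ 1 : ℕ) := by exact_mod_cast hd.le
      have h3 : (0 : ℝ) ≤ (max n₁ 1 : ℕ) := by positivity
      rw [Nat.cast_zero]
      nlinarith
  simp only [max_le_iff] at hd
  obtain ⟨hd1, hd2⟩ := hd
  have hdR : (1:ℝ) ≤ d := by exact_mod_cast hd2
  have hdeg : ∀ v, 2 * d ≤ G.degree v := fun v => by
    rw [← hmin]
    exact G.minDegree_le_degree v
  have hfib : ∀ v : V, (univ.filter fun x : G.Dart => x.fst = v).card = G.degree v := by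
    intro v
    have := G.dart_fst_fiber_card_eq_degree v
    convert this
  have hsymm : Fpf (SimpleGraph.Dart.symm : G.Dart → G.Dart) :=
    ⟨fun x => SimpleGraph.Dart.symm_symm x, fun x => SimpleGraph.Dart.symm_ne x⟩
  obtain ⟨C, hC⟩ : ∃ C : ℝ, C = 2 * (max n₁ 1 : ℕ) + 3 := ⟨_, rfl⟩
  have hC3 : 3 ≤ C := by rw [hC]; have : (0 : ℝ) ≤ (max n₁ 1 : ℕ) := by positivity
                         linarith
  rw [← hC]
  set r : ℕ := ⌈2 * (d : ℝ) - C * (d : ℝ) ^ (4 / 5 : ℝ)⌉₊ with hr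
  have hrle : ∀ v : V, (r : ℝ) ≤ ((univ.filter fun x : G.Dart => x.fst = v).card : ℝ) -
      ((univ.filter fun x : G.Dart => x.fst = v).card : ℝ) ^ (4 / 5 : ℝ) := by
    intro v
    rw [hfib v]
    have h1 : (2:ℝ) * d ≤ G.degree v := by exact_mod_cast hdeg v
    have h4 : 2 * (d : ℝ) - (2 * (d : ℝ)) ^ (4 / 5 : ℝ) ≤
        (G.degree v : ℝ) - (G.degree v : ℝ) ^ (4 / 5 : ℝ) := fin2_mono (by linarith) h1
    refine le_trans ?_ h4
    rcases le_or_gt 0 (2 * (d : ℝ) - C * (d : ℝ) ^ (4 / 5 : ℝ)) with h | h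
    · have h7 := (Nat.ceil_lt_add_one h).le
      rw [← hr] at h7
      have h8 : (1 : ℝ) ≤ (d : ℝ) ^ (4 / 5 : ℝ) := Real.one_le_rpow hdR (by norm_num)
      have h9 : (2 * (d : ℝ)) ^ (4 / 5 : ℝ) ≤ 2 * (d : ℝ) ^ (4 / 5 : ℝ) := by
        rw [Real.mul_rpow (by norm_num) (by positivity)]
        apply mul_le_mul_of_nonneg_right _ (by positivity)
        have := Real.rpow_le_rpow_of_exponent_le (x := (2 : ℝ)) (y := 4 / 5) (z := 1)
          (by norm_num) (by norm_num)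
        rwa [Real.rpow_one] at this
      have h10 : 3 * (d : ℝ) ^ (4 / 5 : ℝ) ≤ C * (d : ℝ) ^ (4 / 5 : ℝ) :=
        mul_le_mul_of_nonneg_right hC3 (by positivity)
      linarith
    · have h7 : r = 0 := by
        rw [hr]
        exact Nat.ceil_eq_zero.2 h.le
      rw [h7]
      have h8 : (2 * (d : ℝ)) ^ (4 / 5 : ℝ) ≤ 2 * (d : ℝ) := by
        have := Real.rpow_le_rpow_of_exponent_le (x := 2 * (d : ℝ)) (y := 4 / 5) (z := 1)
          (by linarith) (by norm_num)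
        rwa [Real.rpow_one] at this
      push_cast
      linarith
  obtain ⟨τ, hτ, hτd⟩ := hn₁ G.Dart V (SimpleGraph.Dart.symm) (fun x => x.fst) r hsymm
    (fun v => by rw [hfib v]; exact heven v)
    (fun v => by rw [hfib v]; have := hdeg v; omega) hrle
    (fun x y => by
      obtain ⟨p⟩ := hconn.preconnected x.fst y.fst
      exact fin_conn G p x y rfl rfl)
  have hne : Nonempty G.Dart := by
    obtain ⟨v⟩ := hconn.nonempty
    have h1 : 0 < G.degree v := by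
      have := hdeg v
      omega
    rw [G.degree_pos_iff_exists_adj] at h1
    obtain ⟨w, hw⟩ := h1
    exact ⟨⟨(v, w), hw⟩⟩
  have hex : ∀ i : Fin r, ∃ (v : V) (p : G.Walk v v), p.IsEulerian ∧
      ∀ t ∈ transitions p, ∃ y : G.Dart, t = s(y.edge, (τ i y).edge) := fun i =>
    hW V G (τ i) hne (hτ i).1 (hτ i).2.1 (hτ i).2.2
  choose v p hp ht using hex
  refine ⟨r, Nat.le_ceil _, v, p, hp, ?_⟩
  intro i j hij
  rw [Set.disjoint_left]
  intro t h1 h2
  obtain ⟨y, hy⟩ := ht i t h1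
  obtain ⟨z, hz⟩ := ht j t h2
  rw [hy] at hz
  have hy1 : (τ i y).fst = y.fst := (hτ i).2.1 y
  have hz1 : (τ j z).fst = z.fst := (hτ j).2.1 z
  have hy2 : y ≠ τ i y := ((hτ i).1.2 y).symm
  rcases Sym2.eq_iff.1 hz with ⟨h3, h4⟩ | ⟨h3, h4⟩
  · have h5 : z.fst = y.fst := by
      apply fin_common hy2 hy1.symm
      · rw [h3]
        exact fin_fst_mem z
      · rw [h4, ← hz1]
        exact fin_fst_mem _
    have h6 : y = z := fin_dart_eq h3 h5.symm
    have h7 : τ i y = τ j z := fin_dart_eq h4 (by rw [hy1, hz1, h5])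
    rw [← h6] at h7
    exact hτd i j hij y h7
  · have h5 : z.fst = y.fst := by
      apply fin_common hy2 hy1.symm
      · rw [h3, ← hz1]
        exact fin_fst_mem _
      · rw [h4]
        exact fin_fst_mem z
    have h6 : y = τ j z := fin_dart_eq h3 (by rw [hz1, h5])
    have h7 : τ i y = z := fin_dart_eq h4 (by rw [hy1, h5])
    have h8 : τ j y = z := by rw [h6, (hτ j).1.1]
    exact hτd i j hij y (h7.trans h8.symm)

end H20JT
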