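import Pool.Agent.H20.JT.Stm

/-! # JT-FRAME: the base system -/

set_option autoImplicit false

namespace H20JT

open Finset

namespace FrameH

abbrev XX (A : Type) (m ρ : ℕ) : Type := (Fin ρ × Bool) ⊕ (A × ZMod m)

section

variable {A : Type} [AddCommGroup A] [Fintype A] [DecidableEq A] {m ρ : ℕ} [NeZero m]

def fcl : XX A m ρ → Option A
  | Sum.inl _ => none
  | Sum.inr z => some z.1

def fk (φ : A → A) : XX A m ρ → A → A
  | Sum.inl (_, false) => φ
  | Sum.inl (_, true) => fun g => φ g + g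
  | Sum.inr _ => fun g => g

def fM (φ : A → A) (g : A) (j : Fin m) : XX A m ρ → XX A m ρ
  | Sum.inl (l, false) => Sum.inr (φ g, 2 * ((j : ℕ) : ZMod m) + ((l : ℕ) : ZMod m))
  | Sum.inl (l, true) => Sum.inr (φ g + g, -((j : ℕ) : ZMod m) - ((l : ℕ) : ZMod m))
  | Sum.inr (p, a) =>
    if h : p = φ g ∧ (a - 2 * ((j : ℕ) : ZMod m)).val < ρ then
      Sum.inl (⟨(a - 2 * ((j : ℕ) : ZMod m)).val, h.2⟩, false)
    else if h' : p = φ g + g ∧ (-((j : ℕ) : ZMod m) - a).val < ρ then
      Sum.inl (⟨(-((j : ℕ) : ZMod m) - a).val, h'.2⟩, true)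
    else Sum.inr (p + g, ((j : ℕ) : ZMod m) - a)

theorem fM_key (φ : A → A) (g : A) (j : Fin m) (p : A) (a : ZMod m) :
    fM φ g j (Sum.inr (p, a)) =
      if h : p = φ g ∧ (a - 2 * ((j : ℕ) : ZMod m)).val < ρ then
        (Sum.inl (⟨(a - 2 * ((j : ℕ) : ZMod m)).val, h.2⟩, false) : XX A m ρ)
      else if h' : p = φ g + g ∧ (-((j : ℕ) : ZMod m) - a).val < ρ then
        Sum.inl (⟨(-((j : ℕ) : ZMod m) - a).val, h'.2⟩, true)
      else Sum.inr (p + g, ((j : ℕ) : ZMod m) - a) := rfl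

omit [Fintype A] [DecidableEq A] in
theorem add_eq_iff (htwo : ∀ p : A, p + p = 0) (p q g : A) : p + g = q ↔ p = q + g := by
  constructor
  · rintro rfl
    rw [add_assoc, htwo, add_zero]
  · rintro rfl
    rw [add_assoc, htwo, add_zero]

theorem fM_inv (φ : A → A) (htwo : ∀ p : A, p + p = 0) (hρ : ρ ≤ m) (g : A) (hg : g ≠ 0)
    (j : Fin m) (x : XX A m ρ) : fM φ g j (fM φ g j x) = x := by
  rcases x with ⟨l, b⟩ | ⟨p, a⟩
  · have hl : (((l : ℕ) : ZMod m)).val = l := ZMod.val_natCast_of_lt (lt_of_lt_of_le l.2 hρ)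
    cases b
    · have e : (2 * ((j : ℕ) : ZMod m) + ((l : ℕ) : ZMod m)) - 2 * ((j : ℕ) : ZMod m) =
          ((l : ℕ) : ZMod m) := by ring
      have h1 : φ g = φ g ∧ ((2 * ((j : ℕ) : ZMod m) + ((l : ℕ) : ZMod m)) -
          2 * ((j : ℕ) : ZMod m)).val < ρ := ⟨rfl, by rw [e, hl]; exact l.2⟩
      show fM φ g j (Sum.inr (φ g, 2 * ((j : ℕ) : ZMod m) + ((l : ℕ) : ZMod m))) = _
      rw [fM_key, dif_pos h1]
      congr 2
      apply Fin.ext
      show ((2 * ((j : ℕ) : ZMod m) + ((l : ℕ) : ZMod m)) - 2 * ((j : ℕ) : ZMod m)).val = l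
      rw [e, hl]
    · have e : (-((j : ℕ) : ZMod m) - (-((j : ℕ) : ZMod m) - ((l : ℕ) : ZMod m))) =
          ((l : ℕ) : ZMod m) := by ring
      have h0 : ¬ (φ g + g = φ g ∧ ((-((j : ℕ) : ZMod m) - ((l : ℕ) : ZMod m)) -
          2 * ((j : ℕ) : ZMod m)).val < ρ) := by
        rintro ⟨h, -⟩
        exact hg (by simpa using h)
      have h1 : φ g + g = φ g + g ∧ (-((j : ℕ) : ZMod m) -
          (-((j : ℕ) : ZMod m) - ((l : ℕ) : ZMod m))).val < ρ :=
        ⟨rfl, by rw [e, hl]; exact l.2⟩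
      show fM φ g j (Sum.inr (φ g + g, -((j : ℕ) : ZMod m) - ((l : ℕ) : ZMod m))) = _
      rw [fM_key, dif_neg h0, dif_pos h1]
      congr 2
      apply Fin.ext
      show (-((j : ℕ) : ZMod m) - (-((j : ℕ) : ZMod m) - ((l : ℕ) : ZMod m))).val = l
      rw [e, hl]
  · by_cases h : p = φ g ∧ (a - 2 * ((j : ℕ) : ZMod m)).val < ρ
    · have e1 : fM φ g j (Sum.inr (p, a)) =
          (Sum.inl (⟨(a - 2 * ((j : ℕ) : ZMod m)).val, h.2⟩, false) : XX A m ρ) := by
        show (if h : p = φ g ∧ (a - 2 * ((j : ℕ) : ZMod m)).val < ρ then _ else _) = _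
        rw [dif_pos h]
      rw [e1]
      show Sum.inr (φ g, 2 * ((j : ℕ) : ZMod m) +
        (((a - 2 * ((j : ℕ) : ZMod m)).val : ℕ) : ZMod m)) = Sum.inr (p, a)
      rw [ZMod.natCast_zmod_val, h.1]
      congr 2
      ring
    by_cases h' : p = φ g + g ∧ (-((j : ℕ) : ZMod m) - a).val < ρ
    · have e1 : fM φ g j (Sum.inr (p, a)) =
          (Sum.inl (⟨(-((j : ℕ) : ZMod m) - a).val, h'.2⟩, true) : XX A m ρ) := by
        show (if h : p = φ g ∧ (a - 2 * ((j : ℕ) : ZMod m)).val < ρ then _ else _) = _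
        rw [dif_neg h, dif_pos h']
      rw [e1]
      show Sum.inr (φ g + g, -((j : ℕ) : ZMod m) -
        (((-((j : ℕ) : ZMod m) - a).val : ℕ) : ZMod m)) = Sum.inr (p, a)
      rw [ZMod.natCast_zmod_val, h'.1]
      congr 2
      ring
    · have e1 : fM φ g j (Sum.inr (p, a)) =
          (Sum.inr (p + g, ((j : ℕ) : ZMod m) - a) : XX A m ρ) := by
        show (if h : p = φ g ∧ (a - 2 * ((j : ℕ) : ZMod m)).val < ρ then _ else _) = _
        rw [dif_neg h, dif_neg h']
      rw [e1]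
      have f1 : (((j : ℕ) : ZMod m) - a) - 2 * ((j : ℕ) : ZMod m) = -((j : ℕ) : ZMod m) - a := by
        ring
      have f2 : -((j : ℕ) : ZMod m) - (((j : ℕ) : ZMod m) - a) = a - 2 * ((j : ℕ) : ZMod m) := by
        ring
      have g1 : ¬ (p + g = φ g ∧ ((((j : ℕ) : ZMod m) - a) - 2 * ((j : ℕ) : ZMod m)).val < ρ) := by
        rw [f1, add_eq_iff htwo]
        exact h'
      have g2 : ¬ (p + g = φ g + g ∧
          (-((j : ℕ) : ZMod m) - (((j : ℕ) : ZMod m) - a)).val < ρ) := by
        rw [f2, add_left_inj]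
        exact h
      show (if h : p + g = φ g ∧ ((((j : ℕ) : ZMod m) - a) - 2 * ((j : ℕ) : ZMod m)).val < ρ
        then _ else _) = _
      rw [dif_neg g1, dif_neg g2]
      rw [add_assoc, htwo, add_zero]
      congr 2
      ring

/-- the value at a point with class -/
theorem fM_inr (φ : A → A) (g : A) (j : Fin m) (p : A) (a : ZMod m) :
    (∃ l, fM φ g j (Sum.inr (p, a)) = (Sum.inl l : XX A m ρ)) ∨
      fM φ g j (Sum.inr (p, a)) = (Sum.inr (p + g, ((j : ℕ) : ZMod m) - a) : XX A m ρ) := by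
  by_cases h : p = φ g ∧ (a - 2 * ((j : ℕ) : ZMod m)).val < ρ
  · left
    refine ⟨(⟨(a - 2 * ((j : ℕ) : ZMod m)).val, h.2⟩, false), ?_⟩
    show (if h : p = φ g ∧ (a - 2 * ((j : ℕ) : ZMod m)).val < ρ then _ else _) = _
    rw [dif_pos h]
  by_cases h' : p = φ g + g ∧ (-((j : ℕ) : ZMod m) - a).val < ρ
  · left
    refine ⟨(⟨(-((j : ℕ) : ZMod m) - a).val, h'.2⟩, true), ?_⟩
    show (if h : p = φ g ∧ (a - 2 * ((j : ℕ) : ZMod m)).val < ρ then _ else _) = _
    rw [dif_neg h, dif_pos h']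
  · right
    show (if h : p = φ g ∧ (a - 2 * ((j : ℕ) : ZMod m)).val < ρ then _ else _) = _
    rw [dif_neg h, dif_neg h']

theorem fM_fpf (φ : A → A) (htwo : ∀ p : A, p + p = 0) (hρ : ρ ≤ m) (g : A) (hg : g ≠ 0)
    (j : Fin m) : Fpf (fM φ g j : XX A m ρ → XX A m ρ) := by
  refine ⟨fM_inv φ htwo hρ g hg j, ?_⟩
  rintro (⟨l, b⟩ | ⟨p, a⟩)
  · cases b
    · show Sum.inr _ ≠ Sum.inl _
      exact Sum.inr_ne_inl
    · show Sum.inr _ ≠ Sum.inl _
      exact Sum.inr_ne_inl
  · rcases fM_inr (ρ := ρ) φ g j p a with ⟨l, h⟩ | h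
    · rw [h]
      exact Sum.inl_ne_inr
    · rw [h]
      intro h1
      have h2 := congrArg Prod.fst (Sum.inr_injective h1)
      exact hg (by simpa using h2)

theorem natCast_inj {i j : Fin m} (h : ((i : ℕ) : ZMod m) = ((j : ℕ) : ZMod m)) : i = j := by
  have h1 := congrArg ZMod.val h
  rw [ZMod.val_natCast_of_lt i.2, ZMod.val_natCast_of_lt j.2] at h1
  exact Fin.ext h1

theorem two_inj (hodd : Odd m) {i j : Fin m}
    (h : 2 * ((i : ℕ) : ZMod m) = 2 * ((j : ℕ) : ZMod m)) : i = j := by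
  apply natCast_inj
  have h2 : IsUnit (2 : ZMod m) := by
    have : IsUnit ((2 : ℕ) : ZMod m) := by
      rw [ZMod.isUnit_iff_coprime]
      exact hodd.coprime_two_left
    simpa using this
  exact h2.mul_left_cancel h

theorem fM_disj (φ : A → A) (hodd : Odd m) (g : A)
    (i j : Fin m) (hij : i ≠ j) (x : XX A m ρ) : fM φ g i x ≠ fM φ g j x := by
  intro heq
  apply hij
  rcases x with ⟨l, b⟩ | ⟨p, a⟩
  · cases b
    · have h1 : (2 * ((i : ℕ) : ZMod m) + ((l : ℕ) : ZMod m)) =
          (2 * ((j : ℕ) : ZMod m) + ((l : ℕ) : ZMod m)) :=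
        congrArg Prod.snd (Sum.inr_injective heq)
      exact two_inj hodd (add_right_cancel h1)
    · have h1 : (-((i : ℕ) : ZMod m) - ((l : ℕ) : ZMod m)) =
          (-((j : ℕ) : ZMod m) - ((l : ℕ) : ZMod m)) :=
        congrArg Prod.snd (Sum.inr_injective heq)
      exact natCast_inj (neg_injective (sub_left_injective h1))
  · have key : ∀ j : Fin m, fM φ g j (Sum.inr (p, a)) =
        if h : p = φ g ∧ (a - 2 * ((j : ℕ) : ZMod m)).val < ρ then
          (Sum.inl (⟨(a - 2 * ((j : ℕ) : ZMod m)).val, h.2⟩, false) : XX A m ρ)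
        else if h' : p = φ g + g ∧ (-((j : ℕ) : ZMod m) - a).val < ρ then
          Sum.inl (⟨(-((j : ℕ) : ZMod m) - a).val, h'.2⟩, true)
        else Sum.inr (p + g, ((j : ℕ) : ZMod m) - a) := fun j => rfl
    rw [key i, key j] at heq
    split_ifs at heq with h1 h2 h3 h4 h5 h6 h7
    · have h8 : (a - 2 * ((i : ℕ) : ZMod m)).val = (a - 2 * ((j : ℕ) : ZMod m)).val := by
        have := congrArg Prod.fst (Sum.inl_injective heq)
        exact congrArg Fin.val this
      have h9 := ZMod.val_injective m h8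
      exact two_inj hodd (sub_right_injective h9)
    · have := congrArg Prod.snd (Sum.inl_injective heq)
      simp at this
    · have := congrArg Prod.snd (Sum.inl_injective heq)
      simp at this
    · have h8 : (-((i : ℕ) : ZMod m) - a).val = (-((j : ℕ) : ZMod m) - a).val := by
        have := congrArg Prod.fst (Sum.inl_injective heq)
        exact congrArg Fin.val this
      have h9 := ZMod.val_injective m h8
      exact natCast_inj (neg_injective (sub_left_injective h9))
    · have h8 := congrArg Prod.snd (Sum.inr_injective heq)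
      exact natCast_inj (sub_left_injective h8)

theorem card_cl' (p : A) : (univ.filter fun x : XX A m ρ => fcl x = some p).card = m := by
  have h : (univ.filter fun x : XX A m ρ => fcl x = some p) =
      (univ : Finset (ZMod m)).map ⟨fun a => Sum.inr (p, a), fun a b h => by
        simpa using h⟩ := by
    ext x
    rw [mem_filter, mem_map]
    constructor
    · rintro ⟨-, h⟩
      rcases x with l | ⟨q, a⟩
      · simp [fcl] at h
      · have : q = p := by simpa [fcl] using h
        exact ⟨a, mem_univ _, by rw [this]; rfl⟩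
    · rintro ⟨a, -, rfl⟩
      exact ⟨mem_univ _, rfl⟩
  rw [h, card_map, card_univ, ZMod.card]

theorem card_none' : (univ.filter fun x : XX A m ρ => fcl x = none).card = 2 * ρ := by
  have h : (univ.filter fun x : XX A m ρ => fcl x = none) =
      (univ : Finset (Fin ρ × Bool)).map ⟨Sum.inl, Sum.inl_injective⟩ := by
    ext x
    rw [mem_filter, mem_map]
    constructor
    · rintro ⟨-, h⟩
      rcases x with l | ⟨q, a⟩
      · exact ⟨l, mem_univ _, rfl⟩
      · simp [fcl] at h
    · rintro ⟨a, -, rfl⟩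
      exact ⟨mem_univ _, rfl⟩
  rw [h, card_map, card_univ, Fintype.card_prod, Fintype.card_fin, Fintype.card_bool, mul_comm]

end

end FrameH

open FrameH in
theorem frame : S_FRAME := by
  intro A _ _ _ φ m ρ htwo hφ hφ' hodd hρ
  haveI : NeZero m := ⟨by rintro rfl; simp at hodd⟩
  refine ⟨XX A m ρ, inferInstance, inferInstance, ?_, ⟨?_⟩⟩
  · rw [Fintype.card_sum, Fintype.card_prod, Fintype.card_prod, Fintype.card_fin,
      Fintype.card_bool, ZMod.card]
    ring
  · refine
      { cl := fcl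
        κ := fk φ
        M := fun g j => fM φ g j
        two := htwo
        card_cl := card_cl'
        card_none := card_none'
        typ := fun g hg j => ⟨fM_fpf φ htwo hρ g hg j, ?_, ?_⟩
        disj := fun g _ i j hij x => fM_disj φ hodd g i j hij x
        κ_inj := ?_ }
    · rintro (l | ⟨q, a⟩) p hp
      · simp [fcl] at hp
      · have hq : q = p := by simpa [fcl] using hp
        subst hq
        rcases fM_inr (ρ := ρ) φ g j q a with ⟨l, h⟩ | h
        · right
          rw [h]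
          rfl
        · left
          rw [h]
          rfl
    · rintro (⟨l, b⟩ | ⟨q, a⟩) hx
      · cases b <;> rfl
      · simp [fcl] at hx
    · rintro (⟨l, b⟩ | ⟨q, a⟩)
      · cases b
        · exact hφ
        · exact hφ'
      · exact fun _ _ h => h

end H20JT
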