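import Pool.Agent.H20.JT.Stm2

namespace H20JT

namespace G2

open Finset

private def ge (b : ℕ) (x : Fin b × Bool) : Fin b → ZMod 2 × ZMod 2 :=
  Pi.single x.1 (if x.2 then (1, 0) else (0, 1))

private lemma ge_inj (b : ℕ) : Function.Injective (ge b) := by
  rintro ⟨i, u⟩ ⟨j, v⟩ h
  have hne : ∀ w : Bool, (if w then ((1, 0) : ZMod 2 × ZMod 2) else (0, 1)) ≠ 0 := by decide
  have hij : i = j := by
    by_contra hij
    have := congrFun h i
    simp only [ge, Pi.single_eq_same, Pi.single_eq_of_ne hij] at this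
    exact hne u this
  subst hij
  have := congrFun h i
  simp only [ge, Pi.single_eq_same] at this
  have h2 : ∀ u v : Bool, (if u then ((1, 0) : ZMod 2 × ZMod 2) else (0, 1)) =
    (if v then ((1, 0) : ZMod 2 × ZMod 2) else (0, 1)) → u = v := by decide
  rw [h2 u v this]

private lemma ge_ne (b : ℕ) (x : Fin b × Bool) : ge b x ≠ 0 := by
  intro h
  have hne : ∀ w : Bool, (if w then ((1, 0) : ZMod 2 × ZMod 2) else (0, 1)) ≠ 0 := by decide
  have := congrFun h x.1
  simp only [ge, Pi.single_eq_same, Pi.zero_apply] at this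
  exact hne x.2 this

private lemma ge_gen (b : ℕ) (S : Set (Fin b → ZMod 2 × ZMod 2)) (hS : S.Nonempty)
    (hc : ∀ p ∈ S, ∀ x, p + ge b x ∈ S) (p : Fin b → ZMod 2 × ZMod 2) : p ∈ S := by
  obtain ⟨p₀, hp₀⟩ := hS
  let H : AddSubmonoid (Fin b → ZMod 2 × ZMod 2) :=
    { carrier := {h | ∀ p ∈ S, p + h ∈ S}
      zero_mem' := by intro p hp; simpa using hp
      add_mem' := by
        intro a c ha hc p hp
        have := hc _ (ha p hp)
        rwa [add_assoc] at this }
  have h1 : ∀ x, ge b x ∈ H := fun x p hp => hc p hp x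
  have h2 : ∀ (i : Fin b) (q : ZMod 2 × ZMod 2), (Pi.single i q : Fin b → ZMod 2 × ZMod 2) ∈ H := by
    intro i q
    have hq : q = 0 ∨ q = (1, 0) ∨ q = (0, 1) ∨ q = (1, 0) + (0, 1) := by
      revert q; decide
    rcases hq with rfl | rfl | rfl | rfl
    · rw [Pi.single_zero]; exact H.zero_mem
    · exact h1 (i, true)
    · exact h1 (i, false)
    · rw [Pi.single_add]; exact H.add_mem (h1 (i, true)) (h1 (i, false))
  have h3 : ∀ f : Fin b → ZMod 2 × ZMod 2, f ∈ H := by
    intro f
    rw [← Finset.univ_sum_single f]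
    exact H.sum_mem fun i _ => h2 i _
  have := h3 (p - p₀) p₀ hp₀
  simpa using this

theorem grp2' : S_GRP2 := by
  intro b hb32
  refine ⟨Fin b → ZMod 2 × ZMod 2, inferInstance, inferInstance, inferInstance,
    fun f i => ((f i).2, (f i).1 + (f i).2), univ.image (ge b), ?_, ?_, ?_, ?_, ?_, ?_, ?_⟩
  · intro p
    funext i
    have : ∀ q : ZMod 2 × ZMod 2, q + q = 0 := by decide
    exact this (p i)
  · intro f g h
    funext i
    have h1 := congrFun h i
    have : ∀ q r : ZMod 2 × ZMod 2, (q.2, q.1 + q.2) = (r.2, r.1 + r.2) → q = r := by decide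
    exact this _ _ h1
  · intro f g h
    funext i
    have h1 := congrFun h i
    have : ∀ q r : ZMod 2 × ZMod 2, (q.2, q.1 + q.2) + q = (r.2, r.1 + r.2) + r → q = r := by
      decide
    exact this _ _ h1
  · intro h
    obtain ⟨x, -, hx⟩ := Finset.mem_image.1 h
    exact ge_ne b x hx
  · rw [Finset.card_image_of_injective _ (ge_inj b)]
    simp only [Finset.card_univ, Fintype.card_prod, Fintype.card_fin, Fintype.card_bool]
    ring
  · intro S hS hc p
    exact ge_gen b S hS (fun p hp x => hc p hp _ (Finset.mem_image_of_mem _ (Finset.mem_univ x))) p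
  · simp only [Fintype.card_prod, Fintype.card_pi, Finset.prod_const, ZMod.card,
      Finset.card_univ, Fintype.card_fin]

end G2

theorem grp2 : S_GRP2 := G2.grp2'

end H20JT
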