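import Pool.Agent.H20.JT.Stm

/-! # Project JT, stub LL: the local lemma from CORE, FRAME, GRP and TR. -/

namespace H20JT

open Finset

theorem ll_div (n u : ℕ) (hu : 0 < u) (M₀ : ℕ) (hn : u * (M₀ + 2) ≤ n) :
    ∃ m, Odd m ∧ M₀ ≤ m ∧ u * m ≤ n ∧ n < u * (m + 2) := by
  have h1 : M₀ + 2 ≤ n / u := by
    rw [Nat.le_div_iff_mul_le hu]; rw [mul_comm]; exact hn
  have h2 : u * (n / u) ≤ n := Nat.mul_div_le n u
  have h3 : n < u * (n / u + 1) := Nat.lt_mul_div_succ n hu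
  rcases Nat.even_or_odd (n / u) with he | ho
  · obtain ⟨k, hk⟩ := he
    refine ⟨n / u - 1, ⟨k - 1, by omega⟩, by omega, ?_, ?_⟩
    · exact (Nat.mul_le_mul_left u (by omega)).trans h2
    · have : n / u - 1 + 2 = n / u + 1 := by omega
      rw [this]; exact h3
  · refine ⟨n / u, ho, by omega, h2, lt_of_lt_of_le h3 (Nat.mul_le_mul_left u (by omega))⟩

theorem ll : S_CORE → S_FRAME → S_GRP → S_TR.{0, 0} → S_LL := by
  intro hCore hFrame hGrp hTr ε₀ hε₀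
  -- `ε ≤ 1`
  obtain ⟨ε, hε, hε1, hεε⟩ : ∃ ε : ℝ, 0 < ε ∧ ε ≤ 1 ∧ ε ≤ ε₀ :=
    ⟨min ε₀ 1, lt_min hε₀ one_pos, min_le_right _ _, min_le_left _ _⟩
  obtain ⟨A, iA1, iA2, iA3, φ, R, hA1, hφ1, hφ2, hR0, hR64, hgen, hRε, hAe⟩ :=
    hGrp (ε / 2) (by linarith)
  obtain ⟨u, hu⟩ : ∃ u, u = Fintype.card A := ⟨_, rfl⟩
  have hupos : 0 < u := by rw [hu]; exact Fintype.card_pos_iff.2 ⟨0⟩
  rw [← hu] at hRε hAe
  have hur : (0 : ℝ) < (u : ℝ) := by exact_mod_cast hupos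
  have hRu : R.card + 3 ≤ u := by
    have : ((R.card + 3 : ℕ) : ℝ) ≤ (u : ℝ) := by
      refine hRε.trans ?_
      nlinarith
    exact_mod_cast this
  obtain ⟨M₀, hM1, hM2, hM3⟩ : ∃ M₀ : ℕ, 2 ^ (10 * u + 60) * 2 ^ (10 * u + 60) ≤ M₀ ∧
      4 / ε ≤ (M₀ : ℝ) ∧ u ≤ M₀ := by
    refine ⟨max (2 ^ (10 * u + 60) * 2 ^ (10 * u + 60)) (max ⌈4 / ε⌉₊ u), le_max_left _ _, ?_,
      (le_max_right _ _).trans (le_max_right _ _)⟩
    have h1 : ⌈4 / ε⌉₊ ≤ max (2 ^ (10 * u + 60) * 2 ^ (10 * u + 60)) (max ⌈4 / ε⌉₊ u) :=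
      (le_max_left _ _).trans (le_max_right _ _)
    exact (Nat.le_ceil _).trans (Nat.cast_le.2 h1)
  refine ⟨u * (M₀ + 2), fun n r hn hn1 hr => ?_⟩
  obtain ⟨m, hodd, hM0m, hum, hun⟩ := ll_div n u hupos M₀ hn1
  obtain ⟨ρ, hρ⟩ : ∃ ρ, n = u * m + 2 * ρ := by
    have he : Even (n - u * m) := by
      rw [Nat.even_sub hum]
      exact ⟨fun _ => hAe.mul_right m, fun _ => hn⟩
    obtain ⟨k, hk⟩ := he
    exact ⟨k, by omega⟩
  have hρu : ρ < u := by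
    have : u * m + 2 * ρ < u * m + 2 * u := by rw [← hρ]; linarith
    omega
  obtain ⟨X, iX1, iX2, hX, ⟨F⟩⟩ := hFrame A φ m ρ hA1 hφ1 hφ2 hodd (by omega)
  rw [← hu, ← hρ] at hX
  have hcore : LLX X r := by
    refine hCore A X m (2 * ρ) F R r (by rw [← hu]; omega) ?_ hR0 hR64 hgen
      (by rw [← hu]; exact hRu) ?_
    · rw [← hu, Nat.le_sqrt]
      exact hM1.trans hM0m
    · rw [← hu]
      have hmr : 4 / ε ≤ (m : ℝ) := hM2.trans (by exact_mod_cast hM0m)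
      have hmr' : 4 ≤ ε * m := by
        rw [div_le_iff₀ hε] at hmr; linarith
      have hnr : (n : ℝ) ≤ u * (m + 2) := by exact_mod_cast hun.le
      have hn0 : (0 : ℝ) ≤ (n : ℝ) := Nat.cast_nonneg _
      have hm0 : (0 : ℝ) ≤ (m : ℝ) := Nat.cast_nonneg _
      have hgoal : (r : ℝ) ≤ (((u - (R.card + 3)) * m : ℕ) : ℝ) := by
        rw [Nat.cast_mul, Nat.cast_sub hRu]
        have h1 : (r : ℝ) ≤ (1 - ε) * n := by
          refine hr.trans ?_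
          gcongr
        have h2 : (1 - ε) * (n : ℝ) ≤ (1 - ε) * (u * (m + 2)) :=
          mul_le_mul_of_nonneg_left hnr (by linarith)
        have h3 : ((u : ℝ) - ε / 2 * u) * m ≤ ((u : ℝ) - ((R.card + 3 : ℕ) : ℝ)) * m := by
          gcongr
        refine h1.trans (h2.trans (le_trans ?_ h3))
        have h5 : (u : ℝ) * 4 ≤ u * (ε * m) := mul_le_mul_of_nonneg_left hmr' hur.le
        have h6 : 0 < ε * u := mul_pos hε hur
        have h7 : ((u : ℝ) - ε / 2 * u) * m - (1 - ε) * (u * (m + 2)) =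
            1 / 2 * (u * (ε * m) - u * 4) + 2 * (ε * u) := by ring
        linarith
      exact_mod_cast hgoal
  exact hTr X (Fin n) (Fintype.equivFinOfCardEq hX) r hcore

end H20JT
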