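import Pool.Agent.H20.JT.Stm2

/-! # Project JT, stub LL2: the local lemma from CORE2, FRAME, GRP2, NUM3 and TR. -/

namespace H20JT

open Finset

theorem ll2 : S_CORE2 → S_FRAME → S_GRP2 → S_NUM3 → S_TR.{0, 0} → S_LL2 := by
  intro hCore hFrame hGrp hNum hTr
  obtain ⟨n₁, hn₁⟩ := hNum
  refine ⟨n₁, fun n r hn hn1 hr => ?_⟩
  obtain ⟨b, m, ρ, hb, hodd, hnm, hρ, hρm, hb3, hbig, hfin⟩ := hn₁ n hn hn1
  obtain ⟨A, iA1, iA2, iA3, φ, R, hA1, hφ1, hφ2, hR0, hR64, hgen, hcard⟩ := hGrp b hb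
  obtain ⟨X, iX1, iX2, hX, ⟨F⟩⟩ := hFrame A φ m ρ hA1 hφ1 hφ2 hodd hρm
  rw [hcard, ← hnm] at hX
  refine hTr X (Fin n) (Fintype.equivFinOfCardEq hX) r ?_
  refine hCore A X m (2 * ρ) F R r (by rw [hcard]; omega) ?_ hR0 (by omega) hgen
    (by rw [hcard]; omega) ?_
  · rw [hcard]
    push_cast
    exact hbig
  · rw [hcard, hR64]
    have : (r : ℝ) ≤ (((4 ^ b - (2 * b + 3)) * m : ℕ) : ℝ) := by
      rw [Nat.cast_mul]
      exact hr.trans hfin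
    exact_mod_cast this

end H20JT
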