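import Pool.Agent.H20.JT.Stm

/-! # Project JT, stub MRG: merging two cycles. -/

namespace H20JT

open Finset

universe u

theorem mrg_even {X : Type u} (K : Finset X) (f : X → X) (h1 : ∀ x ∈ K, f x ∈ K)
    (h2 : ∀ x ∈ K, f (f x) = x) (h3 : ∀ x ∈ K, f x ≠ x) : Even K.card := by
  classical
  have h : ∑ _x ∈ K, (1 : ZMod 2) = 0 :=
    Finset.sum_involution (fun x _ => f x) (fun _ _ => by decide)
      (fun x hx _ => h3 x hx) (fun x hx => h1 x hx) (fun x hx => h2 x hx)
  rw [Finset.sum_const, nsmul_eq_mul, mul_one] at h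
  exact (ZMod.natCast_eq_zero_iff_even).1 h

theorem mrg_reach_symm {X : Type u} {T N : X → X} (hT : ∀ x, T (T x) = x) (hN : ∀ x, N (N x) = x)
    {x y : X} (h : Reach T N x y) : Reach T N y x := by
  induction h with
  | refl => exact Relation.ReflTransGen.refl
  | @tail y z _ hyz ih =>
    refine Relation.ReflTransGen.head ?_ ih
    rcases hyz with h | h
    · left; rw [h, hT]
    · right; rw [h, hN]

/-- the orbit of `a` can be reached from `a` after a change away from the orbit and at `a`,
`T a` only -/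
theorem mrg_key {X : Type u} [Fintype X] (T N M : X → X) (a c : X) (hT : Fpf T) (hN : Fpf N)
    (hM : ∀ x, x ≠ a → x ≠ T a → x ≠ c → x ≠ T c → M x = T x) (hac : ¬ Reach T N a c) :
    ∀ y, Reach T N a y → Reach M N a y := by
  classical
  -- the restricted steps
  let R' : X → X → Prop :=
    Relation.ReflTransGen fun x y => y = N x ∨ (x ≠ a ∧ x ≠ T a ∧ y = T x)
  have hR : ∀ y, R' a y → Reach T N a y ∧ Reach M N a y := by
    intro y hy
    induction hy with
    | refl => exact ⟨Relation.ReflTransGen.refl, Relation.ReflTransGen.refl⟩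
    | @tail x z hx hxz ih =>
      rcases hxz with h | ⟨h1, h2, h3⟩
      · exact ⟨ih.1.tail (Or.inr h), ih.2.tail (Or.inr h)⟩
      · refine ⟨ih.1.tail (Or.inl h3), ih.2.tail (Or.inl ?_)⟩
        rw [hM x h1 h2 ?_ ?_, h3]
        · rintro rfl; exact hac ih.1
        · rintro rfl
          exact hac (ih.1.tail (Or.inl (hT.1 c).symm))
  have hTa : R' a (T a) := by
    by_contra hno
    let K : Finset X := univ.filter fun x => R' a x
    have hKm : ∀ x, x ∈ K ↔ R' a x := fun x => by simp [K]
    have haK : a ∈ K := (hKm a).2 Relation.ReflTransGen.refl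
    have hK1 : Even K.card := by
      refine mrg_even K N (fun x hx => ?_) (fun x _ => hN.1 x) (fun x _ => hN.2 x)
      exact (hKm _).2 (((hKm x).1 hx).tail (Or.inl rfl))
    have hK2 : Even (K.erase a).card := by
      refine mrg_even _ T (fun x hx => ?_) (fun x _ => hT.1 x) (fun x _ => hT.2 x)
      rw [Finset.mem_erase] at hx ⊢
      have hxT : x ≠ T a := by rintro rfl; exact hno ((hKm _).1 hx.2)
      refine ⟨fun h => hxT (by rw [← h, hT.1]), (hKm _).2 (((hKm x).1 hx.2).tail
        (Or.inr ⟨hx.1, hxT, rfl⟩))⟩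
    rw [Finset.card_erase_of_mem haK] at hK2
    have hpos : 0 < K.card := Finset.card_pos.2 ⟨a, haK⟩
    rcases hK1 with ⟨p, hp⟩
    rcases hK2 with ⟨q, hq⟩
    omega
  have hall : ∀ y, Reach T N a y → R' a y := by
    intro y hy
    induction hy with
    | refl => exact Relation.ReflTransGen.refl
    | @tail x z hx hxz ih =>
      rcases hxz with h | h
      · by_cases h1 : x = a
        · rw [h, h1]; exact hTa
        · by_cases h2 : x = T a
          · rw [h, h2, hT.1]
          · exact ih.tail (Or.inr ⟨h1, h2, h⟩)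
      · exact ih.tail (Or.inl h)
  exact fun y hy => (hR y (hall y hy)).2

/-- stub MRG (the lower case name is taken by the definition `mrg`) -/
theorem mrg' : S_MRG.{u} := by
  intro X _ _ T N a c hT hN hac
  have h1 : T a ≠ a := hT.2 a
  have h2 : T c ≠ c := hT.2 c
  have h3 : a ≠ c := by rintro rfl; exact hac Relation.ReflTransGen.refl
  have h4 : T a ≠ c := fun h => hac (Relation.ReflTransGen.single (Or.inl h.symm))
  have hinj : ∀ {x y}, T x = T y → x = y := fun {x y} h => by rw [← hT.1 x, h, hT.1]
  have h5 : T a ≠ T c := fun h => h3 (hinj h)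
  have e1 : mrg T a c a = c := by
    unfold mrg
    rw [Equiv.swap_apply_of_ne_of_ne h1.symm h3, Equiv.swap_apply_left]
  have e2 : mrg T a c (T a) = T c := by
    unfold mrg
    rw [Equiv.swap_apply_left, Equiv.swap_apply_of_ne_of_ne h5.symm h2]
  have e3 : mrg T a c c = a := by
    unfold mrg
    rw [Equiv.swap_apply_right, hT.1, Equiv.swap_apply_of_ne_of_ne h1.symm h3]
  have e4 : mrg T a c (T c) = T a := by
    unfold mrg
    rw [Equiv.swap_apply_of_ne_of_ne h5.symm h2, hT.1, Equiv.swap_apply_right]
  have e5 : ∀ x, x ≠ a → x ≠ T a → x ≠ c → x ≠ T c → mrg T a c x = T x := by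
    intro x x1 x2 x3 x4
    unfold mrg
    rw [Equiv.swap_apply_of_ne_of_ne x2 x3, Equiv.swap_apply_of_ne_of_ne]
    · exact fun h => x1 (hinj h)
    · intro h; exact x4 (by rw [← h, hT.1])
  have hF : Fpf (mrg T a c) := by
    constructor
    · intro x
      unfold mrg
      rw [Equiv.swap_apply_self, hT.1, Equiv.swap_apply_self]
    · intro x h
      unfold mrg at h
      have := congrArg (Equiv.swap (T a) c) h
      rw [Equiv.swap_apply_self] at this
      exact hT.2 _ this
  have kA := mrg_key T N (mrg T a c) a c hT hN e5 hac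
  have kC := mrg_key T N (mrg T a c) c a hT hN (fun x x1 x2 x3 x4 => e5 x x3 x4 x1 x2)
    (fun h => hac (mrg_reach_symm hT.1 hN.1 h))
  have hA : Reach (mrg T a c) N a (T a) := kA _ (Relation.ReflTransGen.single (Or.inl rfl))
  have hC : Reach (mrg T a c) N c (T c) := kC _ (Relation.ReflTransGen.single (Or.inl rfl))
  have hstep : ∀ x, Reach (mrg T a c) N x (T x) := by
    intro x
    by_cases x1 : x = a
    · rw [x1]; exact hA
    by_cases x2 : x = T a
    · rw [x2, hT.1]; exact mrg_reach_symm hF.1 hN.1 hA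
    by_cases x3 : x = c
    · rw [x3]; exact hC
    by_cases x4 : x = T c
    · rw [x4, hT.1]; exact mrg_reach_symm hF.1 hN.1 hC
    exact Relation.ReflTransGen.single (Or.inl (e5 x x1 x2 x3 x4).symm)
  refine ⟨hF, e1, e2, e3, e4, e5, fun x y hxy => ?_,
    Relation.ReflTransGen.single (Or.inl e1.symm)⟩
  induction hxy with
  | refl => exact Relation.ReflTransGen.refl
  | @tail y z _ hyz ih =>
    rcases hyz with h | h
    · rw [h]; exact ih.trans (hstep y)
    · exact ih.tail (Or.inr h)

end H20JT
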