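import Pool.Agent.H20.JT.Stm

/-! # Project JT, stub NUM: the numerical inequalities for SEL. -/

namespace H20JT

/-- the bound for `D` -/
theorem num_D (Q U S M N D : ℝ) (hQ1 : 1 ≤ Q) (hU1 : 1 ≤ U) (hUQ : U ≤ Q) (hS : 1 ≤ S)
    (hM0 : 0 < M) (hM3 : M ≤ 3 * S ^ 2) (hN0 : 0 ≤ N) (hN : N ≤ 2 * U)
    (hD : D = 48 * (2 + 4 * N) / S * (Q * ((U + N) * M))) :
    0 < D ∧ D ≤ 4320 * Q ^ 3 * S := by
  have hSpos : 0 < S := by linarith
  have hQpos : 0 < Q := by linarith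
  have hUpos : 0 < U := by linarith
  have hKpos : 0 < 2 + 4 * N := by linarith
  have hLpos : 0 < U + N := by linarith
  refine ⟨by rw [hD]; positivity, ?_⟩
  have hK : 2 + 4 * N ≤ 10 * U := by linarith
  have hL : U + N ≤ 3 * U := by linarith
  have h1 : 48 * (2 + 4 * N) / S ≤ 48 * (10 * U) / S := by gcongr
  have h2 : Q * ((U + N) * M) ≤ Q * ((3 * U) * (3 * S ^ 2)) := by gcongr
  calc D = 48 * (2 + 4 * N) / S * (Q * ((U + N) * M)) := hD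
    _ ≤ 48 * (10 * U) / S * (Q * ((3 * U) * (3 * S ^ 2))) := by gcongr
    _ = 4320 * (U ^ 2 * Q) * S := by field_simp; ring
    _ ≤ 4320 * (Q ^ 2 * Q) * S := by gcongr
    _ = 4320 * Q ^ 3 * S := by ring

/-- the existence of `B` -/
theorem num_B (u n₀ m s q : ℕ) (hu : 1 ≤ u) (hn₀ : n₀ ≤ 2 * u) (hq1 : 1 ≤ q) (huq : u ≤ q)
    (hs : q ^ 10 * 2 ^ 60 ≤ s) (hm : m ≤ 3 * (s * s)) :
    ∃ B : ℕ, 1 ≤ B ∧ 48 * u * (2 + 4 * n₀) * B ≤ s ∧ q * ((u + n₀) * m) < B ^ 3 := by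
  have h480 : 480 * u ^ 2 ≤ s := by
    have h1 : u ^ 2 ≤ q ^ 10 := (Nat.pow_le_pow_left huq 2).trans
      (Nat.pow_le_pow_right hq1 (by norm_num))
    have h2 : 480 * u ^ 2 ≤ q ^ 10 * 2 ^ 60 := by
      rw [mul_comm]
      exact Nat.mul_le_mul h1 (by norm_num)
    exact h2.trans hs
  have hpos : 0 < 480 * u ^ 2 := by positivity
  obtain ⟨B, hB⟩ : ∃ B, B = s / (480 * u ^ 2) := ⟨_, rfl⟩
  have hB1 : 1 ≤ B := by
    rw [hB]; exact (Nat.one_le_div_iff hpos).2 h480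
  have hB3 : B * (480 * u ^ 2) ≤ s := by rw [hB]; exact Nat.div_mul_le_self _ _
  have hB2 : s ≤ B * (960 * u ^ 2) := by
    have h1 : s < 480 * u ^ 2 * (B + 1) := by
      rw [hB]; exact Nat.lt_mul_div_succ s hpos
    nlinarith
  refine ⟨B, hB1, ?_, ?_⟩
  · refine le_trans ?_ hB3
    have : 2 + 4 * n₀ ≤ 10 * u := by omega
    calc 48 * u * (2 + 4 * n₀) * B ≤ 48 * u * (10 * u) * B := by gcongr
      _ = B * (480 * u ^ 2) := by ring
  · -- `s ^ 3 ≤ B ^ 3 * (960 u ^ 2) ^ 3` and `s > 9 u q (960 u ^ 2) ^ 3`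
    have hcube : s ^ 3 ≤ B ^ 3 * (960 * u ^ 2) ^ 3 := by
      rw [← mul_pow]; exact Nat.pow_le_pow_left hB2 3
    have hbig : 9 * u * q * (960 * u ^ 2) ^ 3 < s := by
      have e : 9 * u * q * (960 * u ^ 2) ^ 3 = (9 * 960 ^ 3) * (u ^ 7 * q) := by ring
      have h1 : u ^ 7 * q ≤ q ^ 10 := by
        calc u ^ 7 * q ≤ q ^ 7 * q := by gcongr
          _ = q ^ 8 := by ring
          _ ≤ q ^ 10 := Nat.pow_le_pow_right hq1 (by norm_num)
      have h2 : 0 < q ^ 10 := by positivity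
      have h3 : (9 * 960 ^ 3 : ℕ) < 2 ^ 60 := by norm_num
      rw [e]
      calc (9 * 960 ^ 3) * (u ^ 7 * q) ≤ (9 * 960 ^ 3) * q ^ 10 := Nat.mul_le_mul_left _ h1
        _ < 2 ^ 60 * q ^ 10 := Nat.mul_lt_mul_of_pos_right h3 h2
        _ = q ^ 10 * 2 ^ 60 := mul_comm _ _
        _ ≤ s := hs
    have hs0 : 0 < s := by omega
    have hP : 0 < (960 * u ^ 2) ^ 3 := by positivity
    refine Nat.lt_of_mul_lt_mul_right (a := (960 * u ^ 2) ^ 3) ?_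
    refine lt_of_lt_of_le ?_ hcube
    calc q * ((u + n₀) * m) * (960 * u ^ 2) ^ 3
        ≤ q * ((3 * u) * (3 * (s * s))) * (960 * u ^ 2) ^ 3 := by
          gcongr
          omega
      _ = (9 * u * q * (960 * u ^ 2) ^ 3) * (s * s) := by ring
      _ < s * (s * s) := Nat.mul_lt_mul_of_pos_right hbig (by positivity)
      _ = s ^ 3 := by ring

/-- `t₁`, `t₂` and the last inequality -/
theorem num_t (Q U S M N D : ℝ) (hQ1 : 1 ≤ Q) (hU1 : 1 ≤ U) (hUQ : U ≤ Q)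
    (hS : Q ^ 10 * 2 ^ 60 ≤ S) (hM2 : S ^ 2 ≤ M) (hN0 : 0 ≤ N) (hN : N ≤ 2 * U)
    (hD0 : 0 < D) (hD : D ≤ 4320 * Q ^ 3 * S) :
    ∃ t₁ t₂ : ℕ, 1 ≤ t₁ ∧ U * D * t₁ ≤ M ∧ 1 ≤ t₂ ∧
    D < t₂ ∧ D / t₁ * t₂ ≤ M ∧
    2048 * (U * ((2 + 4 * N) * (3 * M / (2 * S)) * (Q * ((U + N) * M)))) ≤ M * M := by
  have hQpos : 0 < Q := by linarith
  have hUpos : 0 < U := by linarith
  have hQ10 : 1 ≤ Q ^ 10 := one_le_pow₀ hQ1
  have hSpos : 0 < S := lt_of_lt_of_le (by positivity) hS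
  have hS1 : 1 ≤ S := by
    refine le_trans ?_ hS
    calc (1 : ℝ) = 1 * 1 := by ring
      _ ≤ Q ^ 10 * 2 ^ 60 := by gcongr; norm_num
  have hMpos : 0 < M := lt_of_lt_of_le (by positivity) hM2
  have hUD : 0 < U * D := by positivity
  have hQk : ∀ k, k ≤ 10 → Q ^ k ≤ Q ^ 10 := fun k hk => pow_le_pow_right₀ hQ1 hk
  -- `4 * 4320 ^ 3 * Q ^ 10 ≤ S`
  have hS4 : 4 * 4320 ^ 3 * Q ^ 10 ≤ S := by
    refine le_trans ?_ hS
    rw [mul_comm]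
    gcongr
    norm_num
  have hx1 : 1 ≤ M / (U * D) := by
    rw [le_div_iff₀ hUD, one_mul]
    calc U * D ≤ Q * (4320 * Q ^ 3 * S) := by gcongr
      _ = 4320 * Q ^ 4 * S := by ring
      _ ≤ 4320 * Q ^ 10 * S := by gcongr; norm_num
      _ ≤ S * S := by
        gcongr
        refine le_trans ?_ hS4
        gcongr
        norm_num
      _ = S ^ 2 := by ring
      _ ≤ M := hM2
  obtain ⟨t, ht⟩ : ∃ t, t = ⌊M / (U * D)⌋₊ := ⟨_, rfl⟩
  have ht1 : 1 ≤ t := by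
    rw [ht]; exact (Nat.one_le_floor_iff _).2 hx1
  have ht1' : (1 : ℝ) ≤ (t : ℝ) := by exact_mod_cast ht1
  have htle : (t : ℝ) ≤ M / (U * D) := by rw [ht]; exact Nat.floor_le (by positivity)
  have htlt : M / (U * D) < t + 1 := by rw [ht]; exact Nat.lt_floor_add_one _
  have htle' : U * D * t ≤ M := by
    rw [le_div_iff₀ hUD] at htle; linarith
  have htlt' : M ≤ 2 * (U * D) * t := by
    rw [div_lt_iff₀ hUD] at htlt
    nlinarith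
  refine ⟨t, ⌊D⌋₊ + 1, ht1, htle', by omega, ?_, ?_, ?_⟩
  · push_cast; exact Nat.lt_floor_add_one D
  · have h2 : ((⌊D⌋₊ + 1 : ℕ) : ℝ) ≤ D + 1 := by
      push_cast; gcongr; exact Nat.floor_le hD0.le
    have hCS1 : 1 ≤ 4320 * Q ^ 3 * S := by
      have : 1 ≤ Q ^ 3 := one_le_pow₀ hQ1
      nlinarith [mul_le_mul this hS1 (by norm_num) (by positivity)]
    have h3 : D + 1 ≤ 2 * (4320 * Q ^ 3 * S) := by linarith
    have h4 : D / t ≤ 2 * U * (4320 * Q ^ 3) ^ 2 := by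
      rw [div_le_iff₀ (by linarith)]
      -- D ≤ 2 U C² t; M ≤ 2 U D t, D² ≤ C² S² ≤ C² M ≤ C² 2 U D t
      have h5 : D * D ≤ (2 * U * (4320 * Q ^ 3) ^ 2 * t) * D := by
        calc D * D ≤ (4320 * Q ^ 3 * S) * (4320 * Q ^ 3 * S) := by gcongr
          _ = (4320 * Q ^ 3) ^ 2 * S ^ 2 := by ring
          _ ≤ (4320 * Q ^ 3) ^ 2 * (2 * (U * D) * t) := by
            gcongr; exact hM2.trans htlt'
          _ = (2 * U * (4320 * Q ^ 3) ^ 2 * t) * D := by ring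
      exact le_of_mul_le_mul_right h5 hD0
    calc D / t * ((⌊D⌋₊ + 1 : ℕ) : ℝ)
        ≤ (2 * U * (4320 * Q ^ 3) ^ 2) * (2 * (4320 * Q ^ 3 * S)) := by
          gcongr
          exact h2.trans h3
      _ ≤ (2 * Q * (4320 * Q ^ 3) ^ 2) * (2 * (4320 * Q ^ 3 * S)) := by gcongr
      _ = (4 * 4320 ^ 3 * Q ^ 10) * S := by ring
      _ ≤ S * S := by gcongr
      _ = S ^ 2 := by ring
      _ ≤ M := hM2
  · have hKpos : 0 < 2 + 4 * N := by linarith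
    have hLpos : 0 < U + N := by linarith
    have hK : 2 + 4 * N ≤ 10 * Q := by linarith
    have hL : U + N ≤ 3 * Q := by linarith
    calc 2048 * (U * ((2 + 4 * N) * (3 * M / (2 * S)) * (Q * ((U + N) * M))))
        ≤ 2048 * (Q * ((10 * Q) * (3 * M / (2 * S)) * (Q * ((3 * Q) * M)))) := by gcongr
      _ = (92160 * Q ^ 4) / S * (M * M) := by field_simp; ring
      _ ≤ 1 * (M * M) := by
        gcongr
        rw [div_le_one hSpos]
        refine le_trans ?_ hS4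
        calc 92160 * Q ^ 4 ≤ (4 * 4320 ^ 3) * Q ^ 10 := by
              gcongr
              · norm_num
              · norm_num
          _ = 4 * 4320 ^ 3 * Q ^ 10 := by ring
      _ = M * M := one_mul _

theorem num : S_NUM := by
  intro u n₀ m hu hn₀ hs D hD
  obtain ⟨s, hsdef⟩ : ∃ s, s = Nat.sqrt m := ⟨_, rfl⟩
  rw [← hsdef] at hs hD ⊢
  have hs2 : s * s ≤ m := by rw [hsdef]; exact Nat.sqrt_le m
  have hs3 : m < (s + 1) * (s + 1) := by rw [hsdef]; exact Nat.lt_succ_sqrt m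
  have hu2 : u < 2 ^ u := Nat.lt_two_pow_self
  obtain ⟨q, hqdef⟩ : ∃ q, q = 2 ^ u := ⟨_, rfl⟩
  have hs' : q ^ 10 * 2 ^ 60 ≤ s := by
    refine le_trans (le_of_eq ?_) hs
    rw [hqdef, pow_add, mul_comm 10 u, pow_mul]
  have hq1 : 1 ≤ q := by rw [hqdef]; exact Nat.one_le_two_pow
  have huq : u ≤ q := by rw [hqdef]; exact hu2.le
  have hqq : ((2 : ℝ) ^ u) = (q : ℝ) := by rw [hqdef]; push_cast; rfl
  have hs4 : 4 ≤ s := by
    refine le_trans ?_ hs'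
    calc 4 = 1 * 4 := by norm_num
      _ ≤ q ^ 10 * 2 ^ 60 := Nat.mul_le_mul (Nat.one_le_pow _ _ hq1) (by norm_num)
  have hm3 : m ≤ 3 * (s * s) := by nlinarith
  have hSr : (q : ℝ) ^ 10 * 2 ^ 60 ≤ (s : ℝ) := by
    have := (Nat.cast_le (α := ℝ)).2 hs'
    rwa [Nat.cast_mul, Nat.cast_pow, Nat.cast_pow, Nat.cast_ofNat] at this
  have hM2 : (s : ℝ) ^ 2 ≤ (m : ℝ) := by
    have := (Nat.cast_le (α := ℝ)).2 hs2
    rwa [Nat.cast_mul, ← pow_two] at this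
  have hM3 : (m : ℝ) ≤ 3 * (s : ℝ) ^ 2 := by
    have := (Nat.cast_le (α := ℝ)).2 hm3
    rwa [Nat.cast_mul, Nat.cast_mul, ← pow_two, Nat.cast_ofNat] at this
  have hQ1 : (1 : ℝ) ≤ (q : ℝ) := by exact_mod_cast hq1
  have hU1 : (1 : ℝ) ≤ (u : ℝ) := by exact_mod_cast hu
  have hUQ : (u : ℝ) ≤ (q : ℝ) := by exact_mod_cast huq
  have hS1 : (1 : ℝ) ≤ (s : ℝ) := by
    have : 1 ≤ s := by omega
    exact_mod_cast this
  have hmpos : 0 < m := by nlinarith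
  have hM0 : (0 : ℝ) < (m : ℝ) := by exact_mod_cast hmpos
  have hN0 : (0 : ℝ) ≤ (n₀ : ℝ) := Nat.cast_nonneg _
  have hN : (n₀ : ℝ) ≤ 2 * (u : ℝ) := by exact_mod_cast hn₀
  rw [hqq] at hD ⊢
  obtain ⟨hD0, hDle⟩ := num_D q u s m n₀ D hQ1 hU1 hUQ hS1 hM0 hM3 hN0 hN hD
  obtain ⟨B, hB1, hB2, hB3⟩ := num_B u n₀ m s q hu hn₀ hq1 huq hs' hm3
  obtain ⟨t₁, t₂, h1, h2, h3, h4, h5, h6⟩ :=
    num_t q u s m n₀ D hQ1 hU1 hUQ hSr hM2 hN0 hN hD0 hDle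
  refine ⟨by nlinarith, hD0, B, t₁, t₂, hB1, hB2, ?_, h1, h2, h3, h4, h5, h6⟩
  have := (Nat.cast_lt (α := ℝ)).2 hB3
  push_cast at this
  exact this

end H20JT
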