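import Pool.Agent.H20.JT.Stm

/-! # JT-ONE: one step of the selection -/

namespace H20JT

open Finset

namespace OneAux

lemma rel_fpf {X : Type} {σ : Equiv.Perm X} {M : X → X} (h : Fpf M) : Fpf (rel σ M) := by
  constructor
  · intro x
    simp [rel, h.1]
  · intro x hx
    apply h.2 (σ x)
    have : σ (rel σ M x) = σ x := by rw [hx]
    simpa [rel] using this

lemma typ_rel {A X : Type} [AddCommGroup A] [DecidableEq A] [Fintype X] [DecidableEq X]
    {cl : X → Option A} {κ : X → A → A} {g : A} {M : X → X} {σ : Equiv.Perm X}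
    (hσ : σ ∈ Om cl) (h : IsType cl κ g M) : IsType cl κ g (rel σ M) := by
  have h1 : ∀ x, cl (σ x) = cl x ∧ (cl x = none → σ x = x) := (mem_filter.1 hσ).2
  have h2 : ∀ y, cl (σ.symm y) = cl y := by
    intro y
    have := (h1 (σ.symm y)).1
    simpa using this.symm
  refine ⟨rel_fpf h.fpf, ?_, ?_⟩
  · intro x p hx
    have := h.some' (σ x) p (by rw [(h1 x).1, hx])
    simpa only [rel, h2] using this
  · intro x hx
    have := h.none' x hx
    simp only [rel, h2, (h1 x).2 hx]
    exact this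

lemma typ_disj {A X : Type} [AddCommGroup A] {cl : X → Option A} {κ : X → A → A} {g g' : A}
    {T T' : X → X} (hκ : ∀ x, Function.Injective (κ x)) (h : IsType cl κ g T)
    (h' : IsType cl κ g' T') (hg : g ≠ g') (x : X) : T x ≠ T' x := by
  intro he
  cases hx : cl x with
  | none =>
    have a1 := h.none' x hx
    have a2 := h'.none' x hx
    rw [he, a2] at a1
    exact hg (hκ x (Option.some.inj a1)).symm
  | some p =>
    cases hy : cl (T x) with
    | none =>
      have a1 := h.none' (T x) hy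
      have a2 := h'.none' (T' x) (by rw [← he]; exact hy)
      rw [h.fpf.1] at a1
      rw [h'.fpf.1, a1, he] at a2
      exact hg (hκ _ (Option.some.inj a2))
    | some q =>
      have a1 := (h.some' x p hx).resolve_right (by rw [hy]; simp)
      have a2 := (h'.some' x p hx).resolve_right (by rw [← he, hy]; simp)
      rw [he, a2] at a1
      exact hg (add_left_cancel (Option.some.inj a1)).symm

lemma pick (hBL : S_BL) {A X : Type} [AddCommGroup A] [DecidableEq A] [Fintype X]
    [DecidableEq X] {m n₀ : ℕ} (F : Frame A X m n₀) {r : ℕ} (N : Fin r → X → X) (w : X → ℝ)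
    (γ : A) (J : Finset (Fin r)) (t : ℕ) (hN : ∀ i, Fpf (N i)) (hm : 16 ≤ m) (hγ : γ ≠ 0)
    (hw : ∀ x, 1 ≤ w x) (hwm : ∀ x, F.cl x = none → (m : ℝ) ≤ w x) (ht : 1 ≤ t)
    (hJt : J.card * t ≤ m) :
    ∃ (σ : Equiv.Perm X) (J' : Finset (Fin r)) (c : Fin r → Fin m) (E : Fin m → Finset X),
      σ ∈ Om F.cl ∧ J' ⊆ J ∧ (∀ i ∈ J', ∀ j ∈ J', c i = c j → i = j) ∧
      (((J \ J').card * t : ℕ) : ℝ) ≤ 48 * (2 + 4 * n₀) / (Nat.sqrt m : ℝ) * ∑ x, w x ∧
      (∀ i ∈ J', (∀ a ∈ E (c i), F.cl a ≠ none ∧ F.cl (rel σ (F.M γ (c i)) a) ≠ none) ∧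
        (∀ x, ∃ a ∈ E (c i), Reach (rel σ (F.M γ (c i))) (N i) x a) ∧
        32 * (E (c i)).card ≤ m) ∧
      ∑ i ∈ J', ∑ a ∈ E (c i), (w a + w (rel σ (F.M γ (c i)) a)) ≤
        (2 + 4 * n₀) * (3 * m / (Nat.sqrt m : ℝ) * ∑ x, w x) := by
  classical
  have hW : 0 ≤ ∑ x, w x := sum_nonneg fun x _ => zero_le_one.trans (hw x)
  rcases J.eq_empty_or_nonempty with hJ | ⟨i₀, hi₀⟩
  · subst hJ
    refine ⟨1, ∅, fun _ => ⟨0, by omega⟩, fun _ => ∅, ?_, subset_rfl, by simp, ?_, by simp, ?_⟩
    · simp [Om]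
    · simp only [sdiff_self, bot_eq_empty, card_empty, zero_mul, Nat.cast_zero]
      positivity
    · simp only [sum_empty]
      positivity
  obtain ⟨φ⟩ : Nonempty (J × Fin t ↪ Fin m) :=
    Function.Embedding.nonempty_of_card_le (by simpa using hJt)
  have : Nonempty (J × Fin t) := ⟨(⟨i₀, hi₀⟩, ⟨0, by omega⟩)⟩
  let ι : Fin m → Fin r := fun j => ((Function.invFun φ j).1 : Fin r)
  have hι : ∀ p, ι (φ p) = (p.1 : Fin r) := by
    intro p
    show ((Function.invFun φ (φ p)).1 : Fin r) = p.1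
    rw [Function.leftInverse_invFun φ.injective p]
  have hιJ : ∀ j, ι j ∈ J := fun j => (Function.invFun φ j).1.2
  obtain ⟨σ, Jc, E, hσ, h1, h2, h3⟩ := hBL A X m n₀ F γ (fun j => N (ι j)) w hγ hm
    (fun j => hN _) hw hwm
  let J' : Finset (Fin r) := Jc.image ι
  have hc : ∀ i : Fin r, ∃ j : Fin m, i ∈ J' → j ∈ Jc ∧ ι j = i := by
    intro i
    by_cases hi : i ∈ J'
    · obtain ⟨j, h4, h5⟩ := mem_image.1 hi
      exact ⟨j, fun _ => ⟨h4, h5⟩⟩
    · exact ⟨⟨0, by omega⟩, fun h => absurd h hi⟩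
  choose c hc using hc
  have hcinj : ∀ i ∈ J', ∀ j ∈ J', c i = c j → i = j := by
    intro i hi j hj hij
    rw [← (hc i hi).2, ← (hc j hj).2, hij]
  refine ⟨σ, J', c, E, hσ, ?_, hcinj, ?_, ?_, ?_⟩
  · intro i hi
    rw [← (hc i hi).2]
    exact hιJ _
  · refine le_trans ?_ h1
    have h4 : ((J \ J').card * t) ≤ Jcᶜ.card := by
      have h5 : ((J \ J') ×ˢ (univ : Finset (Fin t))).card ≤ Jcᶜ.card := by
        refine card_le_card_of_injOn
          (fun p => if h : p.1 ∈ J then φ (⟨p.1, h⟩, p.2) else ⟨0, by omega⟩) ?_ ?_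
        · rintro ⟨i, k⟩ hp
          simp only [coe_product, coe_univ, Set.mem_prod, mem_coe, Set.mem_univ, and_true,
            mem_sdiff] at hp
          simp only [hp.1, dif_pos, mem_coe, mem_compl]
          intro h6
          apply hp.2
          exact mem_image.2 ⟨_, h6, hι _⟩
        · rintro ⟨i, k⟩ hp ⟨i', k'⟩ hp' he
          simp only [coe_product, coe_univ, Set.mem_prod, mem_coe, Set.mem_univ, and_true,
            mem_sdiff] at hp hp'
          simp only [hp.1, hp'.1, dif_pos] at he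
          have h7 := φ.injective he
          simp only [Prod.mk.injEq, Subtype.mk.injEq] at h7
          simp [h7.1, h7.2]
      simpa using h5
    have h5 : Jcᶜ.card + Jc.card = m := by
      rw [card_compl, Fintype.card_fin]
      have := card_le_univ Jc
      rw [Fintype.card_fin] at this
      omega
    have h6 : ((J \ J').card * t : ℕ) + Jc.card ≤ m := by omega
    have h7 : ((((J \ J').card * t : ℕ) : ℝ)) + (Jc.card : ℝ) ≤ m := by exact_mod_cast h6
    linarith
  · intro i hi
    have h4 := h2 (c i) (hc i hi).1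
    simp only [(hc i hi).2] at h4
    exact h4
  · refine le_trans ?_ h3
    have h4 : ∑ i ∈ J', ∑ a ∈ E (c i), (w a + w (rel σ (F.M γ (c i)) a)) =
        ∑ j ∈ J'.image c, ∑ a ∈ E j, (w a + w (rel σ (F.M γ j) a)) :=
      (sum_image (f := fun j => ∑ a ∈ E j, (w a + w (rel σ (F.M γ j) a)))
        fun i hi j hj hij => hcinj i hi j hj hij).symm
    rw [h4]
    refine sum_le_sum_of_subset_of_nonneg ?_ ?_
    · intro j hj
      obtain ⟨i, hi, rfl⟩ := mem_image.1 hj
      exact (hc i hi).1
    · intro j _ _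
      exact sum_nonneg fun a _ => add_nonneg (zero_le_one.trans (hw _)) (zero_le_one.trans (hw _))

end OneAux

open OneAux

theorem one (hBL : S_BL) : S_ONE := by
  intro A X _ _ _ _ _ m n₀ F r N B P S g T E w γ J t hN hm hB hs hγ hγP hSt hJS ht hJt
  classical
  obtain ⟨σ, J', c, Ec, hσ, hJJ, hinj, hcnt, hEc, hsum⟩ :=
    pick hBL F N w γ J t hN hm hγ hSt.w1 hSt.wm ht hJt
  have hs0 : 0 < Nat.sqrt m := Nat.sqrt_pos.2 (by omega)
  have hs0R : (0 : ℝ) < (Nat.sqrt m : ℝ) := by exact_mod_cast hs0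
  have hmR : (0 : ℝ) < (m : ℝ) := by exact_mod_cast (by omega : 0 < m)
  have hPu : P.card ≤ Fintype.card A := card_le_univ P
  have hcard : (insert γ P).card = P.card + 1 := card_insert_of_notMem hγP
  have hw0 : ∀ x, 0 ≤ w x := fun x => zero_le_one.trans (hSt.w1 x)
  have hW : 0 ≤ ∑ x, w x := sum_nonneg fun x _ => hw0 x
  have hu : 1 ≤ Fintype.card A := Fintype.card_pos_iff.2 ⟨0⟩
  have hL : (0 : ℝ) ≤ (Fintype.card A + n₀) * m := by positivity
  have hW2 : ∑ x, w x ≤ 2 ^ Fintype.card A * ((Fintype.card A + n₀) * m) := by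
    refine hSt.tot.trans (mul_le_mul_of_nonneg_right ?_ hL)
    exact pow_le_pow_right₀ (by norm_num) hPu
  have hdisj : Disjoint J' S := disjoint_of_subset_left hJJ hJS
  have hnot : ∀ i ∈ S, i ∉ J' := fun i hi h => (disjoint_left.1 hdisj h) hi
  -- the new objects
  obtain ⟨g', hg'⟩ : ∃ g' : Fin r → A, ∀ i, g' i = if i ∈ J' then γ else g i := ⟨_, fun _ => rfl⟩
  obtain ⟨T', hT'⟩ : ∃ T' : Fin r → X → X, ∀ i, T' i =
    if i ∈ J' then rel σ (F.M γ (c i)) else T i := ⟨_, fun _ => rfl⟩
  obtain ⟨E', hE'⟩ : ∃ E' : Fin r → Finset X, ∀ i, E' i =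
    if i ∈ J' then Ec (c i) else E i := ⟨_, fun _ => rfl⟩
  have hg1 : ∀ i ∈ J', g' i = γ := fun i hi => by rw [hg', if_pos hi]
  have hg2 : ∀ i ∈ S, g' i = g i := fun i hi => by rw [hg', if_neg (hnot i hi)]
  have hT1 : ∀ i ∈ J', T' i = rel σ (F.M γ (c i)) := fun i hi => by rw [hT', if_pos hi]
  have hT2 : ∀ i ∈ S, T' i = T i := fun i hi => by rw [hT', if_neg (hnot i hi)]
  have hE1 : ∀ i ∈ J', E' i = Ec (c i) := fun i hi => by rw [hE', if_pos hi]
  have hE2 : ∀ i ∈ S, E' i = E i := fun i hi => by rw [hE', if_neg (hnot i hi)]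
  have htypJ : ∀ i ∈ J', IsType F.cl F.κ γ (T' i) := fun i hi => by
    rw [hT1 i hi]
    exact typ_rel hσ (F.typ γ hγ (c i))
  have htypS : ∀ i ∈ S, IsType F.cl F.κ (g i) (T' i) := fun i hi => by
    rw [hT2 i hi]
    exact hSt.sel.typ i hi
  have hgne : ∀ i ∈ S, γ ≠ g i := fun i hi h => hγP (h ▸ hSt.sel.gP i hi)
  -- the selection data
  have hsel : Sel F N (insert γ P) (S ∪ J') g' T' E' := by
    refine ⟨?_, ?_, ?_, ?_, ?_, ?_⟩
    · intro i hi
      rcases mem_union.1 hi with h | h
      · rw [hg2 i h]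
        exact mem_insert_of_mem (hSt.sel.gP i h)
      · rw [hg1 i h]
        exact mem_insert_self _ _
    · intro i hi
      rcases mem_union.1 hi with h | h
      · rw [hg2 i h]
        exact htypS i h
      · rw [hg1 i h]
        exact htypJ i h
    · intro i hi j hj hij x
      rcases mem_union.1 hi with h | h <;> rcases mem_union.1 hj with h' | h'
      · rw [hT2 i h, hT2 j h']
        exact hSt.sel.disj i h j h' hij x
      · exact typ_disj F.κ_inj (htypS i h) (htypJ j h') (hgne i h).symm x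
      · exact typ_disj F.κ_inj (htypJ i h) (htypS j h') (hgne j h') x
      · rw [hT1 i h, hT1 j h']
        intro he
        exact F.disj γ hγ (c i) (c j) (fun hcc => hij (hinj i h j h' hcc)) (σ x)
          (σ.symm.injective he)
    · intro i hi
      rcases mem_union.1 hi with h | h
      · rw [hE2 i h, hT2 i h]
        exact hSt.sel.E1 i h
      · rw [hE1 i h, hT1 i h]
        exact (hEc i h).1
    · intro i hi
      rcases mem_union.1 hi with h | h
      · rw [hE2 i h, hT2 i h]
        exact hSt.sel.E2 i h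
      · rw [hE1 i h, hT1 i h]
        exact (hEc i h).2.1
    · intro i hi
      rcases mem_union.1 hi with h | h
      · rw [hE2 i h]
        exact hSt.sel.E3 i h
      · rw [hE1 i h]
        exact (hEc i h).2.2
  -- the load of the new matchings
  obtain ⟨f, hf⟩ : ∃ f : X → ℕ, ∀ x, f x =
    (J'.filter fun i => x ∈ E' i ∨ T' i x ∈ E' i).card := ⟨_, fun _ => rfl⟩
  have hfm : ∀ x, f x ≤ m := by
    intro x
    rw [hf]
    calc (J'.filter fun i => x ∈ E' i ∨ T' i x ∈ E' i).card ≤ J'.card := card_filter_le _ _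
      _ ≤ J.card := card_le_card hJJ
      _ ≤ J.card * t := Nat.le_mul_of_pos_right _ (by omega)
      _ ≤ m := hJt
  have hf0 : ∀ x, F.cl x = none → f x = 0 := by
    intro x hx
    rw [hf, card_eq_zero, filter_eq_empty_iff]
    rintro i hi (h | h)
    · exact (hsel.E1 i (mem_union_right _ hi) x h).1 hx
    · have h1 := (hsel.E1 i (mem_union_right _ hi) _ h).2
      rw [(htypJ i hi).fpf.1] at h1
      exact h1 hx
  -- sum of `w x * f x`
  have hwf : ∑ x, w x * (f x : ℝ) ≤ (2 + 4 * n₀) * (3 * m / (Nat.sqrt m : ℝ) * ∑ x, w x) := by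
    refine le_trans ?_ hsum
    have h1 : ∀ x, w x * (f x : ℝ) = ∑ i ∈ J', if (x ∈ E' i ∨ T' i x ∈ E' i) then w x else 0 := by
      intro x
      rw [hf, card_filter]
      push_cast
      rw [mul_sum]
      refine sum_congr rfl fun i _ => ?_
      split_ifs <;> simp
    rw [sum_congr rfl fun x _ => h1 x, sum_comm]
    refine sum_le_sum fun i hi => ?_
    rw [← hE1 i hi, ← hT1 i hi]
    have hfp := (htypJ i hi).fpf
    have h2 : ∀ x, (if (x ∈ E' i ∨ T' i x ∈ E' i) then w x else 0) ≤
        (if x ∈ E' i then w x else 0) + (if T' i x ∈ E' i then w x else 0) := by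
      intro x
      have := hw0 x
      by_cases h3 : x ∈ E' i <;> by_cases h4 : T' i x ∈ E' i <;> simp [h3, h4, this]
    refine (sum_le_sum fun x _ => h2 x).trans ?_
    rw [sum_add_distrib, sum_add_distrib]
    refine add_le_add (le_of_eq ?_) (le_of_eq ?_)
    · rw [← sum_filter]
      refine sum_congr ?_ fun _ _ => rfl
      ext x; simp
    · rw [← sum_filter]
      refine sum_bij' (fun x _ => T' i x) (fun x _ => T' i x) ?_ ?_ ?_ ?_ ?_
      · intro x hx
        simpa using hx
      · intro x hx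
        simpa [hfp.1] using hx
      · intro x _
        exact hfp.1 x
      · intro x _
        exact hfp.1 x
      · intro x _
        rw [hfp.1 x]
  -- the new weights
  obtain ⟨w', hw'⟩ : ∃ w' : X → ℝ, ∀ x, w' x =
    if m < 16 * Fintype.card A * f x then w x * B else w x := ⟨_, fun _ => rfl⟩
  have hBR : (1 : ℝ) ≤ B := by exact_mod_cast hB
  have hww : ∀ x, w x ≤ w' x := by
    intro x
    rw [hw']
    split_ifs
    · exact le_mul_of_one_le_right (hw0 x) hBR
    · exact le_rfl
  have htot : ∑ x, w' x ≤ 2 * ∑ x, w x := by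
    have h1 : ∀ x, w' x ≤ w x + B * (16 * Fintype.card A / m) * (w x * f x) := by
      intro x
      rw [hw']
      have h3 : 0 ≤ B * (16 * Fintype.card A / m) * (w x * f x) := by
        have := hw0 x
        positivity
      split_ifs with h
      · have h2 : (1 : ℝ) ≤ 16 * Fintype.card A / m * f x := by
          rw [div_mul_eq_mul_div, le_div_iff₀ hmR, one_mul]
          exact_mod_cast h.le
        have h4 : w x * B ≤ w x * B * (16 * Fintype.card A / m * f x) :=
          le_mul_of_one_le_right (mul_nonneg (hw0 x) (by linarith)) h2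
        have h5 : w x * B * (16 * Fintype.card A / m * f x) =
          B * (16 * Fintype.card A / m) * (w x * f x) := by ring
        have := hw0 x
        linarith
      · linarith
    calc ∑ x, w' x ≤ ∑ x, (w x + B * (16 * Fintype.card A / m) * (w x * f x)) :=
          sum_le_sum fun x _ => h1 x
      _ = ∑ x, w x + B * (16 * Fintype.card A / m) * ∑ x, w x * f x := by
          rw [sum_add_distrib, mul_sum]
      _ ≤ ∑ x, w x + B * (16 * Fintype.card A / m) *
          ((2 + 4 * n₀) * (3 * m / (Nat.sqrt m : ℝ) * ∑ x, w x)) := by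
          have : (0 : ℝ) ≤ B * (16 * Fintype.card A / m) := by positivity
          exact add_le_add le_rfl (mul_le_mul_of_nonneg_left hwf this)
      _ = ∑ x, w x + (48 * Fintype.card A * (2 + 4 * n₀) * B) / (Nat.sqrt m : ℝ) *
          ∑ x, w x := by
          field_simp
          ring
      _ ≤ ∑ x, w x + 1 * ∑ x, w x := by
          refine add_le_add le_rfl (mul_le_mul_of_nonneg_right ?_ hW)
          rw [div_le_one hs0R]
          exact_mod_cast hs
      _ = 2 * ∑ x, w x := by ring
  refine ⟨S ∪ J', g', T', E', w', ⟨hsel, ?_, ?_, ?_, ?_, ?_⟩, subset_union_left, ?_⟩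
  · intro x
    exact (hSt.w1 x).trans (hww x)
  · intro x hx
    exact (hSt.wm x hx).trans (hww x)
  · rw [hcard, pow_succ]
    have := hSt.tot
    calc ∑ x, w' x ≤ 2 * ∑ x, w x := htot
      _ ≤ 2 * (2 ^ P.card * ((Fintype.card A + n₀) * m)) := by linarith
      _ = 2 ^ P.card * 2 * ((Fintype.card A + n₀) * m) := by ring
  · intro x
    obtain ⟨b, hb1, hb2⟩ := hSt.pot x
    have h1 : ((S ∪ J').filter fun i => x ∈ E' i ∨ T' i x ∈ E' i).card =
        (S.filter fun i => x ∈ E i ∨ T i x ∈ E i).card + f x := by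
      rw [filter_union, card_union_of_disjoint, hf]
      · congr 1
        refine congrArg _ (filter_congr fun i hi => ?_)
        rw [hE2 i hi, hT2 i hi]
      · exact disjoint_filter_filter hdisj.symm
    rw [h1, hcard, hw']
    by_cases h : m < 16 * Fintype.card A * f x
    · refine ⟨b + 1, ?_, ?_⟩
      · rw [if_pos h, pow_succ]
        exact mul_le_mul_of_nonneg_right hb1 (by linarith)
      · have h3 : 16 * Fintype.card A * f x ≤ 16 * Fintype.card A * m :=
          Nat.mul_le_mul_left _ (hfm x)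
        calc 16 * Fintype.card A * ((S.filter fun i => x ∈ E i ∨ T i x ∈ E i).card + f x)
            = 16 * Fintype.card A * (S.filter fun i => x ∈ E i ∨ T i x ∈ E i).card +
              16 * Fintype.card A * f x := by ring
          _ ≤ (16 * Fintype.card A * m * b + P.card * m) + 16 * Fintype.card A * m :=
              add_le_add hb2 h3
          _ ≤ 16 * Fintype.card A * m * (b + 1) + (P.card + 1) * m := by
              have : 0 ≤ m := Nat.zero_le _
              nlinarith
    · refine ⟨b, ?_, ?_⟩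
      · rw [if_neg h]
        exact hb1
      · push Not at h
        calc 16 * Fintype.card A * ((S.filter fun i => x ∈ E i ∨ T i x ∈ E i).card + f x)
            = 16 * Fintype.card A * (S.filter fun i => x ∈ E i ∨ T i x ∈ E i).card +
              16 * Fintype.card A * f x := by ring
          _ ≤ (16 * Fintype.card A * m * b + P.card * m) + m := add_le_add hb2 h
          _ = 16 * Fintype.card A * m * b + (P.card + 1) * m := by ring
  · rw [hcard, sum_union hdisj.symm]
    have h1 : ∑ i ∈ S, (E' i).card = ∑ i ∈ S, (E i).card :=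
      sum_congr rfl fun i hi => by rw [hE2 i hi]
    have h2 : 2 * ((∑ i ∈ J', (E' i).card : ℕ) : ℝ) ≤
        (2 + 4 * n₀) * (3 * m / (Nat.sqrt m : ℝ) * ∑ x, w x) := by
      refine le_trans ?_ hsum
      push_cast
      rw [mul_sum]
      refine sum_le_sum fun i hi => ?_
      rw [hE1 i hi, mul_comm, ← nsmul_eq_mul, ← sum_const]
      refine sum_le_sum fun a _ => ?_
      have e1 := hSt.w1 a
      have e2 := hSt.w1 (rel σ (F.M γ (c i)) a)
      linarith
    have h3 : (2 + 4 * (n₀ : ℝ)) * (3 * m / (Nat.sqrt m : ℝ) * ∑ x, w x) ≤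
        2 * ((2 + 4 * n₀) * (3 * m / (2 * (Nat.sqrt m : ℝ))) *
          (2 ^ Fintype.card A * ((Fintype.card A + n₀) * m))) := by
      have h4 : (2 + 4 * (n₀ : ℝ)) * (3 * m / (Nat.sqrt m : ℝ) * ∑ x, w x) ≤
        (2 + 4 * (n₀ : ℝ)) * (3 * m / (Nat.sqrt m : ℝ) *
          (2 ^ Fintype.card A * ((Fintype.card A + n₀) * m))) := by
        refine mul_le_mul_of_nonneg_left (mul_le_mul_of_nonneg_left hW2 ?_) ?_ <;> positivity
      refine h4.trans (le_of_eq ?_)
      field_simp
    have h5 := hSt.sumE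
    rw [h1]
    push_cast at h2 h5 ⊢
    linarith
  · have h1 : J \ (S ∪ J') = J \ J' := by
      ext i
      simp only [mem_sdiff, mem_union, not_or]
      constructor
      · rintro ⟨a, _, b⟩
        exact ⟨a, b⟩
      · rintro ⟨a, b⟩
        exact ⟨a, disjoint_left.1 hJS a, b⟩
    rw [h1]
    refine hcnt.trans (mul_le_mul_of_nonneg_left hW2 (by positivity))

end H20JT
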