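import Pool.Agent.H20.JT.Stm

/-! # JT-PROC: all colours, one after the other -/

set_option autoImplicit false

namespace H20JT

open Finset

namespace ProcH

/-- the state after the indices less than `k` -/
structure PS {A X : Type} [AddCommGroup A] [DecidableEq A] [Fintype X] [DecidableEq X]
    (cl : X → Option A) (m : ℕ) (R : Finset A) {r : ℕ} (N T : Fin r → X → X)
    (E : Fin r → Finset X) (k : ℕ) (T' : Fin r → X → X) (U : Finset (X × X)) : Prop where
  good : ∀ i : Fin r, i.val < k → Fpf (T' i) ∧ Conn (T' i) (N i) ∧
    ∀ x, T' i x = T i x ∨ ResEdge cl R x (T' i x)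
  dis : ∀ i j : Fin r, i.val < k → j.val < k → i ≠ j → ∀ x, T' i x ≠ T i x → T' j x ≠ T j x →
    T' i x ≠ T' j x
  mem : ∀ x y, (x, y) ∈ U ↔ ∃ i : Fin r, i.val < k ∧ T' i x ≠ T i x ∧ y = T' i x
  ldb : ∀ x, 16 * ld U x ≤ 16 * (univ.filter fun i : Fin r => i.val < k ∧
    (x ∈ E i ∨ T i x ∈ E i)).card + m + 16
  crd : U.card ≤ 4 * ∑ i ∈ univ.filter (fun i : Fin r => i.val < k), (E i).card

theorem light {X : Type} [Fintype X] [DecidableEq X] {U : Finset (X × X)} {m s : ℕ} (hm : 0 < m)
    (hU : U.card ≤ 4 * s) (hs : 2048 * s ≤ m * m) :
    32 * (univ.filter fun x => m ≤ 16 * ld U x).card ≤ m := by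
  have h1 : U.card = ∑ x, ld U x :=
    Finset.card_eq_sum_card_fiberwise (f := Prod.fst) (t := univ) (fun _ _ => mem_univ _)
  have h2 : (univ.filter fun x => m ≤ 16 * ld U x).card * m ≤
      ∑ x ∈ univ.filter (fun x => m ≤ 16 * ld U x), 16 * ld U x := by
    have := Finset.card_nsmul_le_sum (univ.filter fun x => m ≤ 16 * ld U x)
      (fun x => 16 * ld U x) m (fun x hx => (mem_filter.1 hx).2)
    simpa using this
  have h3 : ∑ x ∈ univ.filter (fun x => m ≤ 16 * ld U x), 16 * ld U x ≤ ∑ x, 16 * ld U x :=
    Finset.sum_le_sum_of_subset (filter_subset _ _)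
  have h5 : ∑ x, 16 * ld U x = 16 * U.card := by rw [← Finset.mul_sum, h1]
  rw [h5] at h3
  have h4 : 32 * (univ.filter fun x => m ≤ 16 * ld U x).card * m ≤ m * m := by
    calc 32 * (univ.filter fun x => m ≤ 16 * ld U x).card * m =
        32 * ((univ.filter fun x => m ≤ 16 * ld U x).card * m) := by ring
      _ ≤ 32 * (16 * U.card) := Nat.mul_le_mul_left _ (h2.trans h3)
      _ ≤ 32 * (16 * (4 * s)) := by gcongr
      _ = 2048 * s := by ring
      _ ≤ m * m := hs
  exact Nat.le_of_mul_le_mul_right h4 hm

end ProcH

open ProcH in
theorem proc : S_CP → S_PROC := by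
  intro hCP A X _ _ _ _ m n₀ F R P r N g T E hR0 hR64 hgen hPR hP0 hm hn0 hN hSel h3m hE
  have hT : ∀ i, Fpf (T i) := fun i => (hSel.typ i (mem_univ _)).fpf
  have main : ∀ k ≤ r, ∃ (T' : Fin r → X → X) (U : Finset (X × X)),
      PS F.cl m R N T E k T' U := by
    intro k
    induction k with
    | zero =>
      intro _
      refine ⟨T, ∅, ⟨fun i hi => absurd hi (Nat.not_lt_zero _),
        fun i j hi => absurd hi (Nat.not_lt_zero _), fun x y => by simp, fun x => by simp [ld],
        by simp⟩⟩
    | succ k ih =>
      intro hk
      obtain ⟨T', U, hP⟩ := ih (by omega)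
      obtain ⟨k0, hk0⟩ : ∃ k0 : Fin r, k0 = ⟨k, by omega⟩ := ⟨_, rfl⟩
      have hk0v : k0.val = k := by rw [hk0]
      have hld : ∀ x, ld U x ≤ 4 * m := by
        intro x
        have a1 := hP.ldb x
        have a2 := h3m x
        have a3 : (univ.filter fun i : Fin r => i.val < k ∧ (x ∈ E i ∨ T i x ∈ E i)).card ≤
            (univ.filter fun i => x ∈ E i ∨ T i x ∈ E i).card := by
          apply card_le_card
          intro i hi
          rw [mem_filter] at hi ⊢
          exact ⟨hi.1, hi.2.2⟩
        omega
      have hsum : ∑ i ∈ univ.filter (fun i : Fin r => i.val < k), (E i).card ≤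
          ∑ i, (E i).card := Finset.sum_le_sum_of_subset (filter_subset _ _)
      have hctx : Ctx F.cl F.κ m n₀ R (g k0) (T k0) (N k0) U (E k0) := by
        have hgP := hSel.gP k0 (mem_univ _)
        refine
          { two := F.two
            g0 := ?_
            gR := ?_
            R0 := hR0
            Rcard := hR64
            gen := hgen
            mpos := by omega
            card_cl := F.card_cl
            card_none := F.card_none
            n₀m := hn0
            typ := hSel.typ k0 (mem_univ _)
            fpfN := hN k0
            symU := ?_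
            E1 := hSel.E1 k0 (mem_univ _)
            E2 := hSel.E2 k0 (mem_univ _)
            E3 := hSel.E3 k0 (mem_univ _)
            E4 := ?_
            light := ?_ }
        · intro h0
          rw [h0] at hgP
          exact hP0 hgP
        · exact Finset.disjoint_left.1 hPR hgP
        · intro x y hxy
          obtain ⟨i, hi, hne, rfl⟩ := (hP.mem x y).1 hxy
          have hf := (hP.good i hi).1
          refine (hP.mem _ _).2 ⟨i, hi, ?_, (hf.1 x).symm⟩
          intro heq
          rw [hf.1 x] at heq
          apply hne
          have := (hT i).1 (T' i x)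
          rw [← heq] at this
          exact this.symm
        · intro a _
          have a1 := hld a
          have a2 := hld (T k0 a)
          omega
        · refine light (s := ∑ i, (E i).card) (by omega) ?_ hE
          exact hP.crd.trans (Nat.mul_le_mul_left _ hsum)
      obtain ⟨Tk, c1, c2, c3, c4, c5⟩ :=
        hCP A X F.cl F.κ m n₀ R (g k0) (T k0) (N k0) U (E k0) hctx
      obtain ⟨W, hW⟩ : ∃ W : Finset (X × X), W =
        (univ.filter fun x => Tk x ≠ T k0 x).image (fun x => (x, Tk x)) := ⟨_, rfl⟩
      have hWmem : ∀ x y, (x, y) ∈ W ↔ Tk x ≠ T k0 x ∧ y = Tk x := by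
        intro x y
        rw [hW, mem_image]
        constructor
        · rintro ⟨z, hz, hzz⟩
          rw [mem_filter] at hz
          obtain ⟨rfl, rfl⟩ := Prod.mk.injEq _ _ _ _ ▸ hzz
          exact ⟨hz.2, rfl⟩
        · rintro ⟨h1, rfl⟩
          exact ⟨x, mem_filter.2 ⟨mem_univ _, h1⟩, rfl⟩
      have hup : Function.update T' k0 Tk k0 = Tk := Function.update_self _ _ _
      have hup' : ∀ i : Fin r, i.val < k → Function.update T' k0 Tk i = T' i := by
        intro i hi
        apply Function.update_of_ne
        intro h
        rw [h, hk0v] at hi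
        exact lt_irrefl _ hi
      have hcases : ∀ i : Fin r, i.val < k + 1 → i.val < k ∨ i = k0 := by
        intro i hi
        rcases Nat.lt_succ_iff_lt_or_eq.1 hi with h | h
        · exact Or.inl h
        · right
          apply Fin.ext
          rw [hk0v, h]
      have hfil : (univ.filter fun i : Fin r => i.val < k + 1) =
          insert k0 (univ.filter fun i : Fin r => i.val < k) := by
        ext i
        rw [mem_insert, mem_filter, mem_filter]
        constructor
        · rintro ⟨-, h⟩
          rcases hcases i h with h | h
          · exact Or.inr ⟨mem_univ _, h⟩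
          · exact Or.inl h
        · rintro (h | h)
          · refine ⟨mem_univ _, ?_⟩
            rw [h, hk0v]
            omega
          · exact ⟨mem_univ _, by omega⟩
      have hk0n : k0 ∉ (univ.filter fun i : Fin r => i.val < k) := by
        rw [mem_filter, hk0v]
        exact fun h => lt_irrefl _ h.2
      refine ⟨Function.update T' k0 Tk, U ∪ W, ⟨?_, ?_, ?_, ?_, ?_⟩⟩
      · intro i hi
        rcases hcases i hi with h | h
        · rw [hup' i h]
          exact hP.good i h
        · rw [h, hup]
          refine ⟨c1, c2, fun x => ?_⟩
          rcases c3 x with h1 | h1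
          · exact Or.inl h1
          · exact Or.inr h1.1
      · have key : ∀ i : Fin r, i.val < k → ∀ x, T' i x ≠ T i x → Tk x ≠ T k0 x →
            T' i x ≠ Tk x := by
          intro i hi x h1 h2 h3
          rcases c3 x with h4 | ⟨-, h4⟩
          · exact h2 h4
          · apply h4
            rw [← h3]
            exact (hP.mem _ _).2 ⟨i, hi, h1, rfl⟩
        intro i j hi hj hij x h1 h2
        rcases hcases i hi with h | h
        · rcases hcases j hj with h' | h'
          · rw [hup' i h] at h1 ⊢
            rw [hup' j h'] at h2 ⊢
            exact hP.dis i j h h' hij x h1 h2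
          · rw [hup' i h] at h1 ⊢
            rw [h', hup] at h2 ⊢
            exact key i h x h1 h2
        · rcases hcases j hj with h' | h'
          · rw [h, hup] at h1 ⊢
            rw [hup' j h'] at h2 ⊢
            exact (key j h' x h2 h1).symm
          · exact absurd (h.trans h'.symm) hij
      · intro x y
        rw [mem_union, hP.mem, hWmem]
        constructor
        · rintro (⟨i, hi, h1, h2⟩ | ⟨h1, h2⟩)
          · exact ⟨i, by omega, by rw [hup' i hi]; exact h1, by rw [hup' i hi]; exact h2⟩
          · exact ⟨k0, by omega, by rw [hup]; exact h1, by rw [hup]; exact h2⟩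
        · rintro ⟨i, hi, h1, h2⟩
          rcases hcases i hi with h | h
          · rw [hup' i h] at h1 h2
            exact Or.inl ⟨i, h, h1, h2⟩
          · rw [h, hup] at h1 h2
            exact Or.inr ⟨h1, h2⟩
      · intro x
        have a1 := hP.ldb x
        have hmono : (univ.filter fun i : Fin r => i.val < k ∧ (x ∈ E i ∨ T i x ∈ E i)).card ≤
            (univ.filter fun i : Fin r => i.val < k + 1 ∧ (x ∈ E i ∨ T i x ∈ E i)).card := by
          apply card_le_card
          intro i hi
          rw [mem_filter] at hi ⊢
          exact ⟨hi.1, by omega, hi.2.2⟩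
        have hldU : ld (U ∪ W) x ≤ ld U x + (W.filter fun e => e.1 = x).card := by
          unfold ld
          rw [filter_union]
          exact card_union_le _ _
        by_cases hx : Tk x = T k0 x
        · have h0 : (W.filter fun e => e.1 = x) = ∅ := by
            rw [filter_eq_empty_iff]
            rintro ⟨y, z⟩ hyz rfl
            exact ((hWmem _ _).1 hyz).1 hx
          rw [h0, card_empty] at hldU
          omega
        · have h1 : (W.filter fun e => e.1 = x).card ≤ 1 := by
            rw [card_le_one]
            rintro ⟨y, z⟩ hy ⟨y', z'⟩ hy'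
            rw [mem_filter] at hy hy'
            have e1 := ((hWmem _ _).1 hy.1).2
            have e2 := ((hWmem _ _).1 hy'.1).2
            have f1 : y = x := hy.2
            have f2 : y' = x := hy'.2
            rw [e1, e2, f1, f2]
          by_cases hxE : x ∈ E k0 ∨ T k0 x ∈ E k0
          · have h2 : (univ.filter fun i : Fin r => i.val < k + 1 ∧
                (x ∈ E i ∨ T i x ∈ E i)).card = (univ.filter fun i : Fin r => i.val < k ∧
                (x ∈ E i ∨ T i x ∈ E i)).card + 1 := by
              have h3 : (univ.filter fun i : Fin r => i.val < k + 1 ∧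
                (x ∈ E i ∨ T i x ∈ E i)) = insert k0 (univ.filter fun i : Fin r => i.val < k ∧
                (x ∈ E i ∨ T i x ∈ E i)) := by
                ext i
                rw [mem_insert, mem_filter, mem_filter]
                constructor
                · rintro ⟨-, h, h'⟩
                  rcases hcases i h with h | h
                  · exact Or.inr ⟨mem_univ _, h, h'⟩
                  · exact Or.inl h
                · rintro (h | h)
                  · refine ⟨mem_univ _, ?_, ?_⟩
                    · rw [h, hk0v]
                      omega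
                    · rw [h]
                      exact hxE
                  · exact ⟨mem_univ _, by omega, h.2.2⟩
              rw [h3, card_insert_of_notMem]
              rw [mem_filter, hk0v]
              exact fun h => lt_irrefl _ h.2.1
            omega
          · rcases c4 x hx with h2 | h2
            · omega
            · exact absurd h2 hxE
      · have h1 := card_union_le U W
        have h2 : W.card ≤ 4 * (E k0).card := by
          rw [hW]
          exact card_image_le.trans c5
        rw [hfil, sum_insert hk0n]
        have h3 := hP.crd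
        omega
  obtain ⟨T', U, hP⟩ := main r le_rfl
  refine ⟨T', fun i => (hP.good i i.2).1, ?_, fun i => (hP.good i i.2).2.1⟩
  have key : ∀ i j : Fin r, ∀ x, T' i x ≠ T i x → T' j x = T j x → T' i x ≠ T' j x := by
    intro i j x h1 h2 h3
    rcases (hP.good i i.2).2.2 x with h4 | ⟨p, h, hh, h5, h6⟩
    · exact h1 h4
    · rw [h3, h2] at h6
      rcases (hSel.typ j (mem_univ _)).some' x p h5 with h7 | h7
      · rw [h7] at h6
        have h8 : g j = h := add_left_cancel (Option.some_injective _ h6)
        have h9 := hSel.gP j (mem_univ _)
        rw [h8] at h9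
        exact Finset.disjoint_left.1 hPR h9 hh
      · rw [h7] at h6
        exact absurd h6 (by simp)
  intro i j hij x
  by_cases h1 : T' i x = T i x
  · by_cases h2 : T' j x = T j x
    · rw [h1, h2]
      exact hSel.disj i (mem_univ _) j (mem_univ _) hij x
    · exact (key j i x h2 h1).symm
  · by_cases h2 : T' j x = T j x
    · exact key i j x h1 h2
    · exact hP.dis i j i.2 j.2 hij x h1 h2

end H20JT
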