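import Pool.Agent.H20.JT.Stm

/-! JT-STEP (helper63): first return matching -/

namespace H20JT

open Finset

universe u v

/-- a finite set closed under a fixed point free involution has an even number of elements -/
theorem even_of_invol {D : Type u} [DecidableEq D] (K : Finset D) (f : D → D)
    (h1 : ∀ x ∈ K, f x ∈ K) (h2 : ∀ x ∈ K, f x ≠ x) (h3 : ∀ x ∈ K, f (f x) = x) : Even K.card := by
  rw [← ZMod.natCast_eq_zero_iff_even, Finset.card_eq_sum_ones, Nat.cast_sum]
  refine Finset.sum_involution (fun x _ => f x) (fun x hx => ?_) (fun x hx _ => h2 x hx)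
    (fun x hx => h1 x hx) (fun x hx => h3 x hx)
  decide

section

variable {D : Type u} (τ ρ : D → D) (A : Finset D)

/-- `ρ` everywhere and `τ` off `A` -/
def stepRel : D → D → Prop :=
  Relation.ReflTransGen fun x y => y = ρ x ∨ (x ∉ A ∧ y = τ x)

variable {τ ρ A}

theorem tau_off (hτ : Fpf τ) (hA : ∀ x ∈ A, τ x ∈ A) {x : D} (hx : x ∉ A) : τ x ∉ A := by
  intro h
  have := hA _ h
  rw [hτ.1] at this
  exact hx this

theorem stepRel_symm (hτ : Fpf τ) (hρ : Fpf ρ) (hA : ∀ x ∈ A, τ x ∈ A) {x y : D}
    (h : stepRel τ ρ A x y) : stepRel τ ρ A y x := by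
  have hs : ∀ a b : D, (b = ρ a ∨ (a ∉ A ∧ b = τ a)) → (a = ρ b ∨ (b ∉ A ∧ a = τ b)) := by
    rintro a b (h | ⟨h, h'⟩)
    · left
      rw [h, hρ.1]
    · right
      rw [h']
      exact ⟨tau_off hτ hA h, (hτ.1 a).symm⟩
  induction h with
  | refl => exact Relation.ReflTransGen.refl
  | tail _ hbc ih => exact Relation.ReflTransGen.head (hs _ _ hbc) ih

end

theorem step : S_EVEN.{u, u} → S_STEP.{u} := by
  classical
  intro heven D _ _ τ ρ A hτ hρ hc hA
  let s : Setoid D :=
    { r := stepRel τ ρ A
      iseqv := ⟨fun x => Relation.ReflTransGen.refl, fun h => stepRel_symm hτ hρ hA h,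
        fun h h' => h.trans h'⟩ }
  have hmk : ∀ x y : D, (Quotient.mk s x = Quotient.mk s y) ↔ stepRel τ ρ A x y := fun x y =>
    Quotient.eq (r := s)
  obtain ⟨N, hN, hcN⟩ := heven A (Quotient s) (fun x => Quotient.mk s (x : D)) (by
    intro i
    set K : Finset D := univ.filter fun x => Quotient.mk s x = i with hK
    have e1 : Even K.card := by
      refine even_of_invol K ρ (fun x hx => ?_) (fun x _ => hρ.2 x) (fun x _ => hρ.1 x)
      rw [hK, mem_filter] at hx ⊢
      refine ⟨mem_univ _, ?_⟩
      rw [← hx.2, eq_comm, hmk]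
      exact Relation.ReflTransGen.single (Or.inl rfl)
    have e2 : Even (K.filter fun x => x ∉ A).card := by
      refine even_of_invol _ τ (fun x hx => ?_) (fun x _ => hτ.2 x) (fun x _ => hτ.1 x)
      rw [mem_filter, hK, mem_filter] at hx ⊢
      refine ⟨⟨mem_univ _, ?_⟩, tau_off hτ hA hx.2⟩
      rw [← hx.1.2, eq_comm, hmk]
      exact Relation.ReflTransGen.single (Or.inr ⟨hx.2, rfl⟩)
    have e3 : (K.filter fun x => x ∈ A).card + (K.filter fun x => x ∉ A).card = K.card :=
      card_filter_add_card_filter_not _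
    have e4 : Even (K.filter fun x => x ∈ A).card := by
      rw [← e3, Nat.even_add] at e1
      exact e1.2 e2
    have e5 : (univ.filter fun x : A => Quotient.mk s (x : D) = i).card =
        (K.filter fun x => x ∈ A).card := by
      refine card_bij (fun x _ => (x : D)) ?_ ?_ ?_
      · intro x hx
        rw [mem_filter] at hx
        rw [mem_filter, hK, mem_filter]
        exact ⟨⟨mem_univ _, hx.2⟩, x.2⟩
      · intro x _ y _ h
        exact Subtype.ext h
      · intro x hx
        rw [mem_filter, hK, mem_filter] at hx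
        exact ⟨⟨x, hx.2⟩, mem_filter.2 ⟨mem_univ _, hx.1.2⟩, rfl⟩
    rw [e5]
    exact e4)
  refine ⟨N, hN, fun T hT hTN => ?_⟩
  set τ' : D → D := fun x => if h : x ∈ A then (T ⟨x, h⟩ : D) else τ x with hτ'
  -- the relation `stepRel` is finer
  have hle : ∀ x y, stepRel τ ρ A x y → Reach τ' ρ x y := by
    intro x y h
    have hs : ∀ a b : D, (b = ρ a ∨ (a ∉ A ∧ b = τ a)) → (b = τ' a ∨ b = ρ a) := by
      rintro a b (h | ⟨h, h'⟩)
      · exact Or.inr h
      · left
        rw [h', hτ']
        simp only
        rw [dif_neg h]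
    induction h with
    | refl => exact Relation.ReflTransGen.refl
    | tail _ hbc ih => exact Relation.ReflTransGen.tail ih (hs _ _ hbc)
  -- all the points of `A` are connected
  have hAA : ∀ a b : A, Reach τ' ρ (a : D) (b : D) := by
    intro a b
    have h := hTN a b
    induction h with
    | refl => exact Relation.ReflTransGen.refl
    | tail _ hbc ih =>
      refine ih.trans ?_
      rename_i b c _
      rcases hbc with h | h
      · refine Relation.ReflTransGen.single (Or.inl ?_)
        rw [h, hτ']
        simp only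
        rw [dif_pos b.2]
      · apply hle
        rw [h, ← hmk]
        exact (hcN b).symm
  rcases A.eq_empty_or_nonempty with hA0 | ⟨a, ha⟩
  · have : τ' = τ := by
      funext x
      rw [hτ']
      simp only
      rw [dif_neg (by rw [hA0]; exact notMem_empty x)]
    rw [this]
    exact hc
  · have hx : ∀ x, ∃ b ∈ A, stepRel τ ρ A x b := by
      intro x
      have h := hc x a
      induction h using Relation.ReflTransGen.head_induction_on with
      | refl => exact ⟨a, ha, Relation.ReflTransGen.refl⟩
      | @head x y hxy _ ih =>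
        by_cases hxA : x ∈ A
        · exact ⟨x, hxA, Relation.ReflTransGen.refl⟩
        · obtain ⟨b, hb, hyb⟩ := ih
          refine ⟨b, hb, Relation.ReflTransGen.head ?_ hyb⟩
          rcases hxy with h | h
          · exact Or.inr ⟨hxA, h⟩
          · exact Or.inl h
    intro x y
    obtain ⟨b, hb, hxb⟩ := hx x
    obtain ⟨c, hc', hyc⟩ := hx y
    exact ((hle _ _ hxb).trans (hAA ⟨b, hb⟩ ⟨c, hc'⟩)).trans
      (hle _ _ (stepRel_symm hτ hρ hA hyc))

end H20JT
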