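import Pool.Agent.H20.JT.Stm

namespace H20JT

open Finset Function

section
variable {X : Type} [Fintype X] [DecidableEq X]

/-- the points of the cycle of `x` met in the first `l` steps -/
def cyc (T N : X → X) (x : X) (l : ℕ) : Finset X :=
  (range l).image (fun i => (T ∘ N)^[i] x) ∪ (range l).image (fun i => N ((T ∘ N)^[i] x))

theorem cyc_card (T N : X → X) (x : X) (l : ℕ) : (cyc T N x l).card ≤ 2 * l := by
  unfold cyc
  refine (card_union_le _ _).trans ?_
  have h1 := card_image_le (s := range l) (f := fun i => (T ∘ N)^[i] x)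
  have h2 := card_image_le (s := range l) (f := fun i => N ((T ∘ N)^[i] x))
  simp only [card_range] at h1 h2
  omega

theorem mem1 {T N : X → X} {x y : X} {l i : ℕ} (h : y ∉ cyc T N x l) (hi : i < l) :
    (T ∘ N)^[i] x ≠ y := by
  intro e; apply h; unfold cyc
  exact mem_union_left _ (mem_image.2 ⟨i, mem_range.2 hi, e⟩)

theorem mem2 {T N : X → X} {x y : X} {l i : ℕ} (h : y ∉ cyc T N x l) (hi : i < l) :
    N ((T ∘ N)^[i] x) ≠ y := by
  intro e; apply h; unfold cyc
  exact mem_union_right _ (mem_image.2 ⟨i, mem_range.2 hi, e⟩)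

theorem key1 (pal : S_PAL.{0}) {T N T' : X → X} (hT : Fpf T) (hN : Fpf N) {x x' : X} {l : ℕ}
    (hl : 1 ≤ l) (hp : minimalPeriod (T ∘ N) x = l) (hx : x' ∉ cyc T N x l)
    (hT' : ∀ y, T' y = Equiv.swap x x' (T (Equiv.swap x x' y))) : (T' ∘ N)^[l] x = x' := by
  have A : ∀ i, i < l → (T' ∘ N)^[i] x = (T ∘ N)^[i] x := by
    intro i
    induction i with
    | zero => intro _; rfl
    | succ i ih =>
      intro hi
      have hi' : i < l := by omega
      rw [iterate_succ_apply', iterate_succ_apply', ih hi', comp_apply, comp_apply, hT',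
        Equiv.swap_apply_of_ne_of_ne (pal X T N hT hN i x) (mem2 hx hi')]
      have e : T (N ((T ∘ N)^[i] x)) = (T ∘ N)^[i + 1] x := by
        rw [iterate_succ_apply']; rfl
      rw [e, Equiv.swap_apply_of_ne_of_ne _ (mem1 hx hi)]
      intro h
      have : minimalPeriod (T ∘ N) x ≤ i + 1 :=
        IsPeriodicPt.minimalPeriod_le (Nat.succ_pos i) h
      omega
  obtain ⟨k, rfl⟩ : ∃ k, l = k + 1 := ⟨l - 1, by omega⟩
  rw [iterate_succ_apply', A k (by omega), comp_apply, hT',
    Equiv.swap_apply_of_ne_of_ne (pal X T N hT hN k x) (mem2 hx (by omega))]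
  have e : T (N ((T ∘ N)^[k] x)) = x := by
    have : (T ∘ N)^[k + 1] x = x := by
      have := isPeriodicPt_minimalPeriod (T ∘ N) x
      rw [hp] at this
      exact this
    rw [iterate_succ_apply'] at this
    exact this
  rw [e, Equiv.swap_apply_left]

theorem key2 (pal : S_PAL.{0}) {T N T' : X → X} (hT : Fpf T) (hN : Fpf N) {x v' : X} {l : ℕ}
    (hl : 1 ≤ l) (hp : minimalPeriod (T ∘ N) x = l) (hv : v' ∉ cyc T N x l)
    (hT' : ∀ y, T' y = Equiv.swap (T x) v' (T (Equiv.swap (T x) v' y))) (hxv : x ≠ v') :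
    T' x = v' ∧ N ((T' ∘ N)^[l - 1] x) = T x := by
  have hxT : x ≠ T x := fun h => hT.2 x h.symm
  refine ⟨?_, ?_⟩
  · rw [hT', Equiv.swap_apply_of_ne_of_ne hxT hxv, Equiv.swap_apply_left]
  have inj : ∀ a b, T a = T b → a = b := by
    intro a b h
    have := congrArg T h
    simpa [hT.1] using this
  have A : ∀ i, i < l → (T' ∘ N)^[i] x = (T ∘ N)^[i] x := by
    intro i
    induction i with
    | zero => intro _; rfl
    | succ i ih =>
      intro hi
      have hi' : i < l := by omega
      have e : T (N ((T ∘ N)^[i] x)) = (T ∘ N)^[i + 1] x := by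
        rw [iterate_succ_apply']; rfl
      have h1 : N ((T ∘ N)^[i] x) ≠ T x := by
        intro h
        have h' : (T ∘ N)^[i + 1] x = x := by rw [← e, h, hT.1]
        have : minimalPeriod (T ∘ N) x ≤ i + 1 :=
          IsPeriodicPt.minimalPeriod_le (Nat.succ_pos i) h'
        omega
      rw [iterate_succ_apply', iterate_succ_apply', ih hi', comp_apply, comp_apply, hT',
        Equiv.swap_apply_of_ne_of_ne h1 (mem2 hv hi')]
      rw [e, Equiv.swap_apply_of_ne_of_ne _ (mem1 hv hi)]
      intro h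
      rw [← e] at h
      exact pal X T N hT hN i x (inj _ _ h)
  rw [A (l - 1) (by omega)]
  apply inj
  rw [hT.1]
  have : (T ∘ N)^[l] x = x := by
    have := isPeriodicPt_minimalPeriod (T ∘ N) x
    rw [hp] at this
    exact this
  rw [show l = (l - 1) + 1 by omega, iterate_succ_apply'] at this
  exact this

end

theorem rel_fpf {X : Type} {σ : Equiv.Perm X} {M : X → X} (hM : Fpf M) : Fpf (rel σ M) := by
  refine ⟨fun x => ?_, fun x h => ?_⟩
  · simp [rel, hM.1]
  · have : M (σ x) = σ x := by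
      have := congrArg σ h
      simpa [rel] using this
    exact hM.2 _ this

theorem rel_swap {X : Type} [DecidableEq X] (σ : Equiv.Perm X) (M : X → X) (a b : X) (y : X) :
    rel (σ * Equiv.swap a b) M y = Equiv.swap a b (rel σ M (Equiv.swap a b y)) := by
  have : (σ * Equiv.swap a b).symm = Equiv.swap a b * σ.symm := by
    ext z; simp [Equiv.Perm.mul_def, Equiv.symm_trans_apply]
  unfold rel
  rw [this]
  simp [Equiv.Perm.mul_apply]

theorem om_swap {A X : Type} [DecidableEq A] [Fintype X] [DecidableEq X] {cl : X → Option A}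
    {σ : Equiv.Perm X} (hσ : σ ∈ Om cl) {a b : X} (hab : cl a = cl b) (ha : cl a ≠ none) :
    σ * Equiv.swap a b ∈ Om cl := by
  unfold Om at *
  simp only [mem_filter, mem_univ, true_and] at *
  intro x
  have hs : cl (Equiv.swap a b x) = cl x := by
    rcases Equiv.swap_apply_eq_iff.1 (rfl : Equiv.swap a b x = _) with h
    by_cases h1 : x = a
    · rw [h1, Equiv.swap_apply_left, hab]
    · by_cases h2 : x = b
      · rw [h2, Equiv.swap_apply_right, hab]
      · rw [Equiv.swap_apply_of_ne_of_ne h1 h2]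
  refine ⟨?_, ?_⟩
  · rw [Equiv.Perm.mul_apply, (hσ _).1, hs]
  · intro hx
    have h1 : x ≠ a := fun h => ha (by rw [← h]; exact hx)
    have h2 : x ≠ b := fun h => ha (by rw [hab, ← h]; exact hx)
    rw [Equiv.Perm.mul_apply, Equiv.swap_apply_of_ne_of_ne h1 h2]
    exact (hσ x).2 hx

theorem om_symm {A X : Type} [DecidableEq A] [Fintype X] [DecidableEq X] {cl : X → Option A}
    {σ : Equiv.Perm X} (hσ : σ ∈ Om cl) (y : X) : cl (σ.symm y) = cl y := by
  unfold Om at hσ
  simp only [mem_filter, mem_univ, true_and] at hσ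
  have := (hσ (σ.symm y)).1
  rw [Equiv.apply_symm_apply] at this
  exact this.symm

theorem sw (pal : S_PAL.{0}) : S_SW := by
  intro A X _ _ _ cl m M N x l hcard hM hN hnone hl
  set E := (Om cl).filter fun σ => minimalPeriod (rel σ M ∘ N) x = l with hE
  -- general counting
  have count : ∀ (q : Option A) (hq : q ≠ none) (σ : Equiv.Perm X),
      m - 2 * l ≤ ((univ.filter fun y => cl y = q) \ cyc (rel σ M) N x l).card := by
    intro q hq σ
    obtain ⟨p, rfl⟩ := Option.ne_none_iff_exists'.1 hq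
    have h1 := le_card_sdiff (cyc (rel σ M) N x l) (univ.filter fun y => cl y = some p)
    have h2 := cyc_card (rel σ M) N x l
    rw [hcard p] at h1
    omega
  have fin : ∀ (B : Equiv.Perm X → Finset X) (f : (Σ _ : Equiv.Perm X, X) → Equiv.Perm X),
      (∀ σ, m - 2 * l ≤ (B σ).card) →
      (∀ p ∈ E.sigma B, f p ∈ Om cl) → Set.InjOn f (E.sigma B : Finset (Σ _ : Equiv.Perm X, X)) →
      E.card * (m - 2 * l) ≤ (Om cl).card := by
    intro B f hB hf hinj
    have h1 := card_le_card_of_injOn f hf hinj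
    rw [card_sigma] at h1
    have h2 : E.card * (m - 2 * l) ≤ ∑ σ ∈ E, (B σ).card := by
      rw [← smul_eq_mul, ← sum_const]
      exact sum_le_sum fun σ _ => hB σ
    exact h2.trans h1
  by_cases hx : cl x = none
  · -- point without class
    have hq := hnone x hx
    refine fin (fun σ => (univ.filter fun y => cl y = cl (M x)) \ cyc (rel σ M) N x l)
      (fun p => p.1 * Equiv.swap (rel p.1 M x) p.2) (fun σ => count _ hq σ) ?_ ?_
    · rintro ⟨σ, v⟩ h
      simp only [mem_sigma, mem_sdiff, mem_filter, mem_univ, true_and, hE] at h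
      obtain ⟨⟨hσ, _⟩, hv, _⟩ := h
      have hfix : σ x = x := by
        have := hσ
        unfold Om at this
        simp only [mem_filter, mem_univ, true_and] at this
        exact (this x).2 hx
      have hc : cl (rel σ M x) = cl (M x) := by
        unfold rel
        rw [om_symm hσ, hfix]
      exact om_swap hσ (by rw [hc, hv]) (by rw [hc]; exact hq)
    · have main : ∀ σ v, (⟨σ, v⟩ : Σ _ : Equiv.Perm X, X) ∈ E.sigma
          (fun σ => (univ.filter fun y => cl y = cl (M x)) \ cyc (rel σ M) N x l) →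
          rel (σ * Equiv.swap (rel σ M x) v) M x = v ∧
          N ((rel (σ * Equiv.swap (rel σ M x) v) M ∘ N)^[l - 1] x) = rel σ M x := by
        intro σ v h
        simp only [mem_sigma, mem_sdiff, mem_filter, mem_univ, true_and, hE] at h
        obtain ⟨⟨hσ, hp⟩, hv, hcyc⟩ := h
        exact key2 pal (rel_fpf hM) hN hl hp hcyc (fun y => rel_swap σ M _ _ y)
          (fun e => hq (by rw [← hv, ← e]; exact hx))
      rintro ⟨σ₁, v₁⟩ h₁ ⟨σ₂, v₂⟩ h₂ he
      have a₁ := main _ _ h₁
      have a₂ := main _ _ h₂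
      simp only at he
      rw [← he] at a₂
      have hv : v₁ = v₂ := by rw [← a₁.1, ← a₂.1]
      have hT : rel σ₁ M x = rel σ₂ M x := by rw [← a₁.2, ← a₂.2]
      rw [hT, hv] at he
      have hσ : σ₁ = σ₂ := mul_right_cancel he
      rw [hσ, hv]
  · refine fin (fun σ => (univ.filter fun y => cl y = cl x) \ cyc (rel σ M) N x l)
      (fun p => p.1 * Equiv.swap x p.2) (fun σ => count _ hx σ) ?_ ?_
    · rintro ⟨σ, v⟩ h
      simp only [mem_sigma, mem_sdiff, mem_filter, mem_univ, true_and, hE] at h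
      obtain ⟨⟨hσ, _⟩, hv, _⟩ := h
      exact om_swap hσ hv.symm hx
    · have main : ∀ σ v, (⟨σ, v⟩ : Σ _ : Equiv.Perm X, X) ∈ E.sigma
          (fun σ => (univ.filter fun y => cl y = cl x) \ cyc (rel σ M) N x l) →
          (rel (σ * Equiv.swap x v) M ∘ N)^[l] x = v := by
        intro σ v h
        simp only [mem_sigma, mem_sdiff, mem_filter, mem_univ, true_and, hE] at h
        obtain ⟨⟨hσ, hp⟩, hv, hcyc⟩ := h
        exact key1 pal (rel_fpf hM) hN hl hp hcyc (fun y => rel_swap σ M _ _ y)
      rintro ⟨σ₁, v₁⟩ h₁ ⟨σ₂, v₂⟩ h₂ he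
      have a₁ := main _ _ h₁
      have a₂ := main _ _ h₂
      simp only at he
      rw [← he] at a₂
      have hv : v₁ = v₂ := by rw [← a₁, ← a₂]
      rw [hv] at he
      have hσ : σ₁ = σ₂ := mul_right_cancel he
      rw [hσ, hv]

end H20JT
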