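import Pool.Agent.H20.JT.Stm

/-! Stub JT-TR of project JT (MP_fe131b_co). -/

namespace H20JT

open Finset

universe u v

theorem fpf_conj {X : Type u} {Y : Type v} (e : X ≃ Y) {T : X → X} (hT : Fpf T) :
    Fpf (fun y => e (T (e.symm y))) := by
  refine ⟨fun y => ?_, fun y h => ?_⟩
  · simp [hT.1]
  · apply hT.2 (e.symm y)
    have h' : e (T (e.symm y)) = y := h
    rw [← e.symm_apply_apply (T (e.symm y)), h']

theorem reach_conj {X : Type u} {Y : Type v} (e : X ≃ Y) {T : X → X} {N : Y → Y} {a b : X}
    (h : Reach T (fun x => e.symm (N (e x))) a b) :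
    Reach (fun y => e (T (e.symm y))) N (e a) (e b) := by
  induction h with
  | refl => exact Relation.ReflTransGen.refl
  | tail _ h2 ih =>
    refine ih.tail ?_
    rcases h2 with h2 | h2
    · left; simp [h2]
    · right; simp [h2]

theorem tr : S_TR.{u, v} := by
  intro X Y e r hX N hN
  obtain ⟨T, h1, h2, h3⟩ := hX (fun i x => e.symm (N i (e x))) (fun i => by
    have := fpf_conj e.symm (hN i)
    simpa using this)
  refine ⟨fun i y => e (T i (e.symm y)), fun i => fpf_conj e (h1 i), ?_, ?_⟩
  · intro i j hij y h
    exact h2 i j hij (e.symm y) (e.injective h)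
  · intro i x y
    have := reach_conj e (h3 i (e.symm x) (e.symm y))
    simpa using this

end H20JT
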