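import Pool.Agent.H20.JT.Stm

/-! JT-WALK (helper63): from the transition system to the closed walk -/

namespace H20JT

open Finset

universe u v

section

variable {V : Type u} {G : SimpleGraph V}

theorem walk_exists (τ : G.Dart → G.Dart) (hf : ∀ x, (τ x).fst = x.fst) (n : ℕ) (d : G.Dart) :
    ∃ p : G.Walk d.fst ((τ ∘ SimpleGraph.Dart.symm)^[n] d).fst,
      p.edges = (List.range n).map (fun i => ((τ ∘ SimpleGraph.Dart.symm)^[i] d).edge) := by
  induction n generalizing d with
  | zero => exact ⟨SimpleGraph.Walk.nil, rfl⟩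
  | succ n ih =>
    obtain ⟨p, hp⟩ := ih ((τ ∘ SimpleGraph.Dart.symm) d)
    have h : ((τ ∘ SimpleGraph.Dart.symm) d).fst = d.snd := by
      rw [Function.comp_apply, hf]
      rfl
    have h' : ((τ ∘ SimpleGraph.Dart.symm)^[n] ((τ ∘ SimpleGraph.Dart.symm) d)).fst =
        ((τ ∘ SimpleGraph.Dart.symm)^[n + 1] d).fst := by
      rw [Function.iterate_succ_apply]
    refine ⟨SimpleGraph.Walk.cons d.adj (p.copy h h'), ?_⟩
    rw [SimpleGraph.Walk.edges_cons, SimpleGraph.Walk.edges_copy, hp, List.range_succ_eq_map,
      List.map_cons, List.map_map]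
    rfl

end

theorem walk : S_PAL.{u} → S_WALK.{u} := by
  intro hpal V _ _ G _ τ ⟨x⟩ hτ hf hc
  set π : G.Dart → G.Dart := τ ∘ SimpleGraph.Dart.symm with hπ
  have hsymm : Fpf (SimpleGraph.Dart.symm : G.Dart → G.Dart) :=
    ⟨fun d => SimpleGraph.Dart.symm_symm d, fun d => SimpleGraph.Dart.symm_ne d⟩
  have hinj : Function.Injective π := by
    intro a b h
    have h1 : τ (τ a.symm) = τ (τ b.symm) := congrArg τ h
    rw [hτ.1, hτ.1] at h1
    have h2 := congrArg SimpleGraph.Dart.symm h1
    rwa [SimpleGraph.Dart.symm_symm, SimpleGraph.Dart.symm_symm] at h2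
  set l := Function.minimalPeriod π x with hl
  have hl0 : 0 < l := Function.minimalPeriod_pos_of_mem_periodicPts
    (hinj.mem_periodicPts x)
  have hper : π^[l] x = x := Function.iterate_minimalPeriod
  obtain ⟨p, hp⟩ := walk_exists τ hf l x
  -- injectivity of the edges
  have hpal' : ∀ i j, i ≤ j → (π^[j] x).symm ≠ π^[i] x := by
    intro i j hij h
    have h1 : π^[j] x = π^[j - i] (π^[i] x) := by
      rw [← Function.iterate_add_apply, Nat.sub_add_cancel hij]
    rw [h1] at h
    exact hpal G.Dart τ SimpleGraph.Dart.symm hτ hsymm (j - i) (π^[i] x) h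
  have hedge : ∀ i < l, ∀ j < l, (π^[i] x).edge = (π^[j] x).edge → i = j := by
    intro i hi j hj h
    rcases SimpleGraph.dart_edge_eq_iff _ _ |>.1 h with h1 | h1
    · exact Function.iterate_injOn_Iio_minimalPeriod hi hj h1
    · rcases le_total i j with hij | hij
      · exact absurd h1.symm (hpal' i j hij)
      · refine absurd ?_ (hpal' j i hij)
        rw [h1, SimpleGraph.Dart.symm_symm]
  -- every dart is in the orbit or its inverse is
  have hall : ∀ y : G.Dart, ∃ i, i < l ∧ (y = π^[i] x ∨ y.symm = π^[i] x) := by
    have hmod : ∀ (y : G.Dart) (i : ℕ), (y = π^[i] x ∨ y.symm = π^[i] x) →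
        ∃ i, i < l ∧ (y = π^[i] x ∨ y.symm = π^[i] x) := by
      intro y i h
      refine ⟨i % l, Nat.mod_lt _ hl0, ?_⟩
      rw [hl, Function.iterate_mod_minimalPeriod_eq]
      exact h
    intro y
    have h := hc x y
    induction h with
    | refl => exact ⟨0, hl0, Or.inl rfl⟩
    | tail _ hbc ih =>
      rename_i b c _
      obtain ⟨i, hi, hb⟩ := ih
      rcases hbc with h | h
      · -- `c = τ b`
        rcases hb with hb | hb
        · -- `b = π^i x`
          have hb' : b = π^[i + l] x := by
            rw [Function.iterate_add_apply, hper, hb]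
          obtain ⟨k, hk⟩ : ∃ k, i + l = k + 1 := ⟨i + l - 1, by omega⟩
          rw [hk, Function.iterate_succ_apply'] at hb'
          refine hmod c k (Or.inr ?_)
          rw [h, hb', hπ, Function.comp_apply, hτ.1, SimpleGraph.Dart.symm_symm]
        · -- `b.symm = π^i x`
          refine hmod c (i + 1) (Or.inl ?_)
          rw [Function.iterate_succ_apply', ← hb, hπ, Function.comp_apply,
            SimpleGraph.Dart.symm_symm, h]
      · refine ⟨i, hi, ?_⟩
        rcases hb with hb | hb
        · right
          rw [h, SimpleGraph.Dart.symm_symm, hb]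
        · left
          rw [h, hb]
  refine ⟨x.fst, p.copy rfl (by rw [← hπ, hper]), ?_, ?_⟩
  · have hedges : (p.copy rfl (by rw [← hπ, hper])).edges =
        (List.range l).map (fun i => (π^[i] x).edge) := by
      rw [SimpleGraph.Walk.edges_copy]
      exact hp
    refine SimpleGraph.Walk.IsTrail.isEulerian_of_forall_mem ?_ ?_
    · rw [SimpleGraph.Walk.isTrail_def, hedges]
      refine List.Nodup.map_on ?_ List.nodup_range
      intro i hi j hj h
      exact hedge i (List.mem_range.1 hi) j (List.mem_range.1 hj) h
    · intro e he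
      rw [hedges, List.mem_map]
      induction e using Sym2.ind with
      | _ a b =>
        have hab : G.Adj a b := he
        obtain ⟨i, hi, h⟩ := hall ⟨(a, b), hab⟩
        refine ⟨i, List.mem_range.2 hi, ?_⟩
        rcases h with h | h
        · rw [← h]
          rfl
        · rw [← h, SimpleGraph.Dart.edge_symm]
          rfl
  · rintro t ⟨e, he, ht⟩
    rw [SimpleGraph.Walk.edges_copy, hp, ← hπ] at he
    rw [List.mem_iff_getElem] at he
    obtain ⟨i, hi, hie⟩ := he
    rw [List.getElem_zip] at hie
    have hi' : i < l := by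
      rw [List.length_zip, List.length_rotate, List.length_map, List.length_range, min_self] at hi
      exact hi
    rw [List.getElem_rotate] at hie
    simp only [List.getElem_map, List.getElem_range, List.length_map, List.length_range] at hie
    refine ⟨(π^[i] x).symm, ?_⟩
    rw [ht, ← hie]
    simp only
    have h1 : π^[(i + 1) % l] x = π^[i + 1] x := by
      rw [hl, Function.iterate_mod_minimalPeriod_eq]
    rw [h1, SimpleGraph.Dart.edge_symm, Function.iterate_succ_apply']
    rfl

end H20JT
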