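import Pool.Agent.H20.JT.Pal
import Pool.Agent.H20.JT.Even
import Pool.Agent.H20.JT.Mrg
import Pool.Agent.H20.JT.Step
import Pool.Agent.H20.JT.Eul
import Pool.Agent.H20.JT.Tr
import Pool.Agent.H20.JT.Ll
import Pool.Agent.H20.JT.Dart
import Pool.Agent.H20.JT.Walk
import Pool.Agent.H20.JT.Fin
import Pool.Agent.H20.JT.Sw
import Pool.Agent.H20.JT.Av
import Pool.Agent.H20.JT.Des
import Pool.Agent.H20.JT.Bl
import Pool.Agent.H20.JT.One
import Pool.Agent.H20.JT.Num
import Pool.Agent.H20.JT.Sel
import Pool.Agent.H20.JT.Avl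
import Pool.Agent.H20.JT.Exm
import Pool.Agent.H20.JT.Cp
import Pool.Agent.H20.JT.Proc
import Pool.Agent.H20.JT.Frame
import Pool.Agent.H20.JT.Grp
import Pool.Agent.H20.JT.Core

/-! # Project JT: assembly -/

namespace H20JT

universe u

theorem core_main : S_CORE :=
  core (sel (one (bl (av (sw pal)) des)) num) (proc (cp (exm avl) mrg'))

theorem ll_main : S_LL := ll core_main frame grp tr

theorem dart_main : S_DART.{u} := dart ll_main tr (step even) (eul even mrg')

theorem fin_main : S_FIN.{u} := fin dart_main (walk pal)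

end H20JT
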