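import Pool.Agent.H20.JT.Stm3

namespace H20JT

open Finset

universe u v

/-- `x ↦ x - x ^ (4/5)` is increasing for `x ≥ 1` -/
theorem sub_rpow_mono {x y : ℝ} (hx : 1 ≤ x) (hxy : x ≤ y) :
    x - x ^ (4 / 5 : ℝ) ≤ y - y ^ (4 / 5 : ℝ) := by
  have hx0 : 0 < x := by linarith
  have hz : 1 ≤ y / x := by rw [le_div_iff₀ hx0]; linarith
  have h1 : (y / x) ^ (4 / 5 : ℝ) ≤ y / x := by
    calc (y / x) ^ (4 / 5 : ℝ) ≤ (y / x) ^ (1 : ℝ) :=
          Real.rpow_le_rpow_of_exponent_le hz (by norm_num)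
      _ = y / x := Real.rpow_one _
  have h2 : y ^ (4 / 5 : ℝ) = x ^ (4 / 5 : ℝ) * (y / x) ^ (4 / 5 : ℝ) := by
    rw [← Real.mul_rpow hx0.le (by positivity)]
    congr 1
    field_simp
  have h3 : x ^ (4 / 5 : ℝ) ≤ x := by
    calc x ^ (4 / 5 : ℝ) ≤ x ^ (1 : ℝ) := Real.rpow_le_rpow_of_exponent_le hx (by norm_num)
      _ = x := Real.rpow_one _
  have h4 : y = x * (y / x) := by field_simp
  have h5 : 0 ≤ x ^ (4 / 5 : ℝ) := by positivity
  have h6 : y ^ (4 / 5 : ℝ) - x ^ (4 / 5 : ℝ) ≤ x ^ (4 / 5 : ℝ) * (y / x - 1) := by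
    rw [h2]; nlinarith
  have h7 : x ^ (4 / 5 : ℝ) * (y / x - 1) ≤ x * (y / x - 1) :=
    mul_le_mul_of_nonneg_right h3 (by linarith)
  have h8 : x * (y / x - 1) = y - x := by field_simp
  linarith

/-- the number of tours -/
theorem ceil_bound {C : ℝ} (hC : 3 ≤ C) {d : ℕ} (hd : 1 ≤ d) {k : ℝ} (hk : 2 * (d : ℝ) ≤ k) :
    ((⌈2 * (d : ℝ) - C * (d : ℝ) ^ (4 / 5 : ℝ)⌉₊ : ℕ) : ℝ) ≤ k - k ^ (4 / 5 : ℝ) := by
  have hd1 : (1 : ℝ) ≤ d := by exact_mod_cast hd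
  have h1 : (1 : ℝ) ≤ (d : ℝ) ^ (4 / 5 : ℝ) := Real.one_le_rpow hd1 (by norm_num)
  refine le_trans ?_ (sub_rpow_mono (by linarith) hk)
  have h2 : (2 * (d : ℝ)) ^ (4 / 5 : ℝ) ≤ 2 * (d : ℝ) ^ (4 / 5 : ℝ) := by
    rw [Real.mul_rpow (by norm_num) (by linarith)]
    have : (2 : ℝ) ^ (4 / 5 : ℝ) ≤ 2 := by
      calc (2 : ℝ) ^ (4 / 5 : ℝ) ≤ (2 : ℝ) ^ (1 : ℝ) :=
            Real.rpow_le_rpow_of_exponent_le (by norm_num) (by norm_num)
        _ = 2 := Real.rpow_one _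
    gcongr
  by_cases h : 0 < 2 * (d : ℝ) - C * (d : ℝ) ^ (4 / 5 : ℝ)
  · have h3 := Nat.ceil_lt_add_one h.le
    have h4 : 3 * (d : ℝ) ^ (4 / 5 : ℝ) ≤ C * (d : ℝ) ^ (4 / 5 : ℝ) := by gcongr
    linarith
  · rw [Nat.ceil_eq_zero.2 (not_lt.1 h)]
    have h5 : (2 * (d : ℝ)) ^ (4 / 5 : ℝ) ≤ 2 * (d : ℝ) := by
      calc (2 * (d : ℝ)) ^ (4 / 5 : ℝ) ≤ (2 * (d : ℝ)) ^ (1 : ℝ) :=
            Real.rpow_le_rpow_of_exponent_le (by linarith) (by norm_num)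
        _ = 2 * (d : ℝ) := Real.rpow_one _
    simp only [Nat.cast_zero]
    linarith

theorem mfin : S_DART2.{u} → S_TOUR.{u, u} → S_MFIN.{u} := by
  rintro ⟨n₁, hn₁⟩ tour
  refine ⟨max 3 (2 * (n₁ + 1)), ?_⟩
  intro D V _ _ _ _ hV ρ src d hρ hconn hev hdeg
  by_cases hd : d < n₁ + 1
  · refine ⟨0, ?_, fun i => i.elim0, fun i => i.elim0, fun i => i.elim0⟩
    rcases Nat.eq_zero_or_pos d with h0 | h0
    · rw [h0]
      simp only [Nat.cast_zero, mul_zero]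
      rw [Real.zero_rpow (by norm_num)]
      simp
    · have hd1 : (1 : ℝ) ≤ d := by exact_mod_cast h0
      have h1 : (1 : ℝ) ≤ (d : ℝ) ^ (4 / 5 : ℝ) := Real.one_le_rpow hd1 (by norm_num)
      have h2 : (d : ℝ) ≤ n₁ + 1 := by exact_mod_cast hd.le
      have h3 : 2 * ((n₁ : ℝ) + 1) ≤ max 3 (2 * ((n₁ : ℝ) + 1)) := le_max_right _ _
      have h4 : max 3 (2 * ((n₁ : ℝ) + 1)) * 1 ≤
          max 3 (2 * ((n₁ : ℝ) + 1)) * (d : ℝ) ^ (4 / 5 : ℝ) := by gcongr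
      simp only [Nat.cast_zero]
      linarith
  · have hd1 : 1 ≤ d := by omega
    have hconn' : ∀ x y, Relation.ReflTransGen (fun x y => y = ρ x ∨ src y = src x) x y := by
      intro x y
      have key : ∀ w, Relation.ReflTransGen (fun v w => ∃ x, src x = v ∧ src (ρ x) = w)
          (src x) w → ∀ y, src y = w →
          Relation.ReflTransGen (fun x y => y = ρ x ∨ src y = src x) x y := by
        intro w hw
        induction hw with
        | refl => intro y hy; exact Relation.ReflTransGen.single (Or.inr hy)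
        | tail _ hbc ih =>
          obtain ⟨z, hz1, hz2⟩ := hbc
          intro y hy
          refine ((ih z hz1).tail (Or.inl rfl)).tail (Or.inr ?_)
          rw [hy, hz2]
      exact key _ (hconn _ _) y rfl
    obtain ⟨τ, hτ, hdis⟩ := hn₁ D V ρ src
      ⌈2 * (d : ℝ) - max 3 (2 * ((n₁ : ℝ) + 1)) * (d : ℝ) ^ (4 / 5 : ℝ)⌉₊ hρ hev
      (fun v => by have := hdeg v; omega)
      (fun v => ceil_bound (le_max_left _ _) hd1 (by exact_mod_cast hdeg v)) hconn'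
    have hne : Nonempty D := by
      obtain ⟨v⟩ := hV
      have h1 := hdeg v
      have h2 : 0 < (univ.filter fun x => src x = v).card := by omega
      obtain ⟨x, -⟩ := card_pos.1 h2
      exact ⟨x⟩
    choose c hc hcs using fun i => tour D V ρ (τ i) src hne hρ (hτ i).1 (hτ i).2.1 (hτ i).2.2
    refine ⟨_, Nat.le_ceil _, c, hc, ?_⟩
    intro i j hij
    rw [Set.disjoint_left]
    rintro t ⟨a, ha⟩ ⟨b, hb⟩
    rw [hcs] at ha hb
    rw [ha, Sym2.eq_iff] at hb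
    rcases hb with ⟨h1, h2⟩ | ⟨h1, h2⟩
    · rw [h1] at h2
      exact hdis i j hij _ h2
    · rw [h1] at h2
      have h3 := congrArg (τ j) h2
      have h4 : τ i (τ j (ρ (c j b))) = τ j (τ j (ρ (c j b))) := by
        rw [h2, (hτ j).1.1]
      exact hdis i j hij _ h4

end H20JT
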