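import Pool.Agent.H20.JT.Stm2

/-! # Project JT, stub NUM2: inequalities -/

namespace H20JT

open Finset

theorem lam_ge (m : ℕ) : 6 ≤ lam m := by
  unfold lam
  have : 0 ≤ Real.log m := Real.log_natCast_nonneg m
  linarith

theorem num2 : S_NUM2 := by
  intro u n₀ m hu hn hm D hD
  have hL := lam_ge m
  set L := lam m with hLdef
  have hU : (1 : ℝ) ≤ u := by exact_mod_cast hu
  have hN : (n₀ : ℝ) ≤ 2 * u := by exact_mod_cast hn
  have hN0 : (0 : ℝ) ≤ n₀ := Nat.cast_nonneg _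
  have hM0 : (0 : ℝ) ≤ m := Nat.cast_nonneg _
  set U : ℝ := (u : ℝ) with hUdef
  set N : ℝ := (n₀ : ℝ) with hNdef
  set M : ℝ := (m : ℝ) with hMdef
  set K : ℝ := 2 + 4 * N with hK
  have hK1 : 2 ≤ K := by rw [hK]; linarith
  have hK2 : K ≤ 10 * U := by rw [hK]; linarith
  have hs1 : 1 ≤ U + N := by linarith
  have hs2 : U + N ≤ 3 * U := by linarith
  have hU0 : 0 < U := by linarith
  have hL0 : 0 < L := by linarith
  have hK0 : 0 < K := by linarith
  -- lower bound of M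
  have hUL : 1 ≤ U * L := by nlinarith
  have hM1 : 92160 * (U ^ 3 * L) ≤ M := by
    rw [← pow_le_pow_iff_left₀ (by positivity) hM0 (two_ne_zero)]
    have h1 : (92160 * (U ^ 3 * L)) ^ 2 = 92160 ^ 2 * (U ^ 6 * L ^ 2) * 1 := by ring
    have h2 : 4 * 10 ^ 10 * U ^ 7 * L ^ 3 = 4 * 10 ^ 10 * (U ^ 6 * L ^ 2) * (U * L) := by ring
    have h3 : (0:ℝ) < U ^ 6 * L ^ 2 := by positivity
    rw [h1]
    refine le_trans ?_ hm
    rw [h2]
    refine mul_le_mul ?_ hUL (by norm_num) (by positivity)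
    nlinarith
  have hU3 : 1 ≤ U ^ 3 := one_le_pow₀ hU
  have hU3L : 6 ≤ U ^ 3 * L := by nlinarith
  have hMpos : 0 < M := by linarith
  have hM16 : (16 : ℝ) ≤ M := by linarith
  have hDlow : 576 ≤ D := by
    rw [hD]
    have h1 : 48 * 2 * 6 * 1 ≤ 48 * K * L * (U + N) := by
      have h2 : 2 * 6 ≤ K * L := mul_le_mul hK1 hL (by norm_num) hK0.le
      nlinarith
    linarith
  have hDup : D ≤ 1440 * (U ^ 2 * L) := by
    rw [hD]
    have h2 : K * (U + N) ≤ 10 * U * (3 * U) := mul_le_mul hK2 hs2 (by linarith) (by positivity)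
    nlinarith
  have hD0 : 0 < D := by linarith
  have hUD : U * D ≤ 1440 * (U ^ 3 * L) := by
    have := mul_le_mul_of_nonneg_left hDup hU0.le
    have e : U * (1440 * (U ^ 2 * L)) = 1440 * (U ^ 3 * L) := by ring
    linarith
  have hUDM : U * D ≤ M := by linarith
  have hUDpos : 0 < U * D := by positivity
  have h16 : 16 ≤ m := by
    have h : ((16 : ℕ) : ℝ) ≤ (m : ℝ) := by push_cast; exact hM16
    exact Nat.cast_le.1 h
  refine ⟨h16, hD0, M / (U * K * L), ⌊M / (U * D)⌋₊, ⌊D⌋₊ + 1, ?_, ?_, ?_, ?_, ?_, ?_, ?_,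
    ?_, ?_⟩
  · rw [lt_div_iff₀ (by positivity), one_mul]
    have h1 : U * K * L ≤ 10 * (U ^ 2 * L) := by
      have := mul_le_mul_of_nonneg_right (mul_le_mul_of_nonneg_left hK2 hU0.le) hL0.le
      have e : U * (10 * U) * L = 10 * (U ^ 2 * L) := by ring
      linarith
    have h2 : U ^ 2 * L ≤ U ^ 3 * L := by
      apply mul_le_mul_of_nonneg_right _ hL0.le
      exact pow_le_pow_right₀ hU (by norm_num)
    linarith
  · apply le_of_eq; field_simp
  · -- cube
    rw [div_pow, lt_div_iff₀ (by positivity)]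
    have h1 : (U * K * L) ^ 3 ≤ 1000 * (U ^ 6 * L ^ 3) := by
      have h2 : U * K * L ≤ 10 * U ^ 2 * L := by
        have := mul_le_mul_of_nonneg_right (mul_le_mul_of_nonneg_left hK2 hU0.le) hL0.le
        have e : U * (10 * U) * L = 10 * U ^ 2 * L := by ring
        linarith
      have h3 := pow_le_pow_left₀ (by positivity) h2 3
      have e : (10 * U ^ 2 * L) ^ 3 = 1000 * (U ^ 6 * L ^ 3) := by ring
      linarith
    have h4 : 3 * ((U + N) * M) ≤ 9 * U * M := by nlinarith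
    calc 3 * ((U + N) * M) * (U * K * L) ^ 3 ≤ (9 * U * M) * (1000 * (U ^ 6 * L ^ 3)) :=
          mul_le_mul h4 h1 (by positivity) (by positivity)
      _ = M * (9000 * (U ^ 7 * L ^ 3)) := by ring
      _ < M * M ^ 2 := by
          apply mul_lt_mul_of_pos_left _ hMpos
          refine lt_of_lt_of_le ?_ hm
          have : 0 < U ^ 7 * L ^ 3 := by positivity
          nlinarith
      _ = M ^ 3 := by ring
  · rw [Nat.one_le_floor_iff, le_div_iff₀ hUDpos, one_mul]
    exact hUDM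
  · have h1 : (⌊M / (U * D)⌋₊ : ℝ) ≤ M / (U * D) := Nat.floor_le (by positivity)
    rw [le_div_iff₀ hUDpos] at h1
    linarith
  · omega
  · have := Nat.lt_floor_add_one D
    push_cast
    linarith
  · have h1 : M / (U * D) < (⌊M / (U * D)⌋₊ : ℝ) + 1 := Nat.lt_floor_add_one _
    have h2 : (1 : ℝ) ≤ (⌊M / (U * D)⌋₊ : ℝ) := by
      have : 1 ≤ ⌊M / (U * D)⌋₊ := by
        rw [Nat.one_le_floor_iff, le_div_iff₀ hUDpos, one_mul]
        exact hUDM
      exact_mod_cast this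
    have h3 : M ≤ 2 * (U * D) * (⌊M / (U * D)⌋₊ : ℝ) := by
      have h4 : M / (U * D) ≤ 2 * (⌊M / (U * D)⌋₊ : ℝ) := by linarith
      rw [div_le_iff₀ hUDpos] at h4
      linarith
    have h5 : (((⌊D⌋₊ + 1 : ℕ) : ℝ)) ≤ 2 * D := by
      have : (⌊D⌋₊ : ℝ) ≤ D := Nat.floor_le hD0.le
      push_cast
      linarith
    rw [div_mul_eq_mul_div, div_le_iff₀ (by linarith)]
    -- D * t₂ ≤ M * t₁
    have h6 : 4 * U * D ^ 3 ≤ M ^ 2 := by
      have h7 := pow_le_pow_left₀ hD0.le hDup 3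
      have e : (1440 * (U ^ 2 * L)) ^ 3 = 1440 ^ 3 * (U ^ 6 * L ^ 3) := by ring
      rw [e] at h7
      have h8 := mul_le_mul_of_nonneg_left h7 (show 0 ≤ 4 * U by positivity)
      refine h8.trans ?_
      refine le_trans ?_ hm
      have e2 : 4 * U * (1440 ^ 3 * (U ^ 6 * L ^ 3)) = 4 * 1440 ^ 3 * (U ^ 7 * L ^ 3) := by ring
      rw [e2]
      have : 0 < U ^ 7 * L ^ 3 := by positivity
      nlinarith
    set t := (⌊M / (U * D)⌋₊ : ℝ) with ht
    have h9 : D * (((⌊D⌋₊ + 1 : ℕ) : ℝ)) ≤ D * (2 * D) := mul_le_mul_of_nonneg_left h5 hD0.le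
    have h10 : 2 * (U * D) * (D * (2 * D)) ≤ 2 * (U * D) * (M * t) := by
      have e3 : 2 * (U * D) * (D * (2 * D)) = 4 * U * D ^ 3 := by ring
      rw [e3]
      have h11 : M ^ 2 ≤ 2 * (U * D) * (M * t) := by nlinarith
      linarith
    have h12 := le_of_mul_le_mul_left h10 (by positivity : (0:ℝ) < 2 * (U * D))
    linarith
  · have h1 : U * (K * L / 2 * (3 * ((U + N) * M))) ≤ 45 * (U ^ 3 * L) * M := by
      have h2 : K * (U + N) ≤ 10 * U * (3 * U) := mul_le_mul hK2 hs2 (by linarith) (by positivity)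
      have h3 : 0 ≤ U * L * M * (3 / 2) := by positivity
      have h4 := mul_le_mul_of_nonneg_left h2 h3
      have e1 : U * L * M * (3 / 2) * (K * (U + N)) = U * (K * L / 2 * (3 * ((U + N) * M))) := by ring
      have e2 : U * L * M * (3 / 2) * (10 * U * (3 * U)) = 45 * (U ^ 3 * L) * M := by ring
      linarith
    calc 2048 * (U * (K * L / 2 * (3 * ((U + N) * M)))) ≤ 2048 * (45 * (U ^ 3 * L) * M) := by linarith
      _ = (92160 * (U ^ 3 * L)) * M := by ring
      _ ≤ M * M := mul_le_mul_of_nonneg_right hM1 hM0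

end H20JT
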