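import Pool.Agent.H20.JT.Stm2

set_option autoImplicit false

/-! # Project JT2: NUM3, asymptotic inequalities (helper71) -/

namespace H20JT

open Finset

namespace Num3Aux

open Filter

theorem ev : ∃ X₀ : ℝ, ∀ X : ℝ, X₀ ≤ X → 1 ≤ X ∧ (4 : ℝ) ^ 33 ≤ X ^ (21 / 100 : ℝ) ∧
    Real.log X ≤ X ^ (3 / 100 : ℝ) ∧ Real.log X ≤ X ^ (1 / 200 : ℝ) ∧ 6 ≤ X ^ (3 / 100 : ℝ) ∧
    16 * 10 ^ 10 * 27 ≤ X ^ (2 / 100 : ℝ) ∧ 14 ≤ X ^ (1 / 200 : ℝ) ∧ 4 ≤ X ^ (79 / 100 : ℝ) ∧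
    2 ≤ X ^ (58 / 100 : ℝ) := by
  have hlog : ∀ r : ℝ, 0 < r → ∀ᶠ X : ℝ in atTop, Real.log X ≤ X ^ r := by
    intro r hr
    have h := (isLittleO_log_rpow_atTop hr).bound (zero_lt_one)
    filter_upwards [h, eventually_ge_atTop (1 : ℝ)] with X hX h1
    rw [one_mul, Real.norm_eq_abs, Real.norm_eq_abs,
      abs_of_nonneg (Real.rpow_nonneg (by linarith) r)] at hX
    exact (le_abs_self _).trans hX
  have hpow : ∀ (r c : ℝ), 0 < r → ∀ᶠ X : ℝ in atTop, c ≤ X ^ r := fun r c hr =>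
    (tendsto_rpow_atTop hr).eventually_ge_atTop c
  have h := (eventually_ge_atTop (1 : ℝ)).and <| (hpow (21 / 100) (4 ^ 33) (by norm_num)).and <|
    (hlog (3 / 100) (by norm_num)).and <| (hlog (1 / 200) (by norm_num)).and <|
    (hpow (3 / 100) 6 (by norm_num)).and <| (hpow (2 / 100) (16 * 10 ^ 10 * 27) (by norm_num)).and
    <| (hpow (1 / 200) 14 (by norm_num)).and <| (hpow (79 / 100) 4 (by norm_num)).and
    (hpow (58 / 100) 2 (by norm_num))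
  exact eventually_atTop.1 h

theorem two_b {b : ℕ} (hb : 2 ≤ b) : 2 * b + 3 ≤ 4 ^ b := by
  have h1 : b < 2 ^ b := Nat.lt_two_pow_self
  have h2 : 4 ^ b = 2 ^ b * 2 ^ b := by
    rw [← mul_pow]; norm_num
  rw [h2]
  nlinarith

end Num3Aux

open Num3Aux in
theorem num3 : S_NUM3 := by
  obtain ⟨X₀, hX₀⟩ := ev
  refine ⟨⌈X₀⌉₊, fun n hn hle => ?_⟩
  obtain ⟨h1, h33, hl1, hl2, h6, hbig, h14, h4, h2⟩ := hX₀ n (Nat.ceil_le.1 hle)
  obtain ⟨X, hX⟩ : ∃ X : ℝ, X = n := ⟨_, rfl⟩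
  rw [← hX] at h1 h33 hl1 hl2 h6 hbig h14 h4 h2 ⊢
  have hX0 : 0 < X := by linarith
  obtain ⟨z, hz⟩ : ∃ z, z = X ^ (21 / 100 : ℝ) := ⟨_, rfl⟩
  have hz1 : 1 ≤ z := by
    rw [hz]; exact le_trans (by norm_num) h33
  have hfl : ⌊z⌋₊ ≠ 0 := by
    rw [Ne, Nat.floor_eq_zero, not_lt]; exact hz1
  obtain ⟨b, hb⟩ : ∃ b, b = Nat.log 4 ⌊z⌋₊ := ⟨_, rfl⟩
  have hb1 : 4 ^ b ≤ ⌊z⌋₊ := hb ▸ Nat.pow_log_le_self 4 hfl
  have hb2 : ⌊z⌋₊ < 4 ^ (b + 1) := hb ▸ Nat.lt_pow_succ_log_self (by norm_num) _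
  obtain ⟨u, hu⟩ : ∃ u : ℝ, u = 4 ^ b := ⟨_, rfl⟩
  have hu1 : u ≤ z := by
    rw [hu]
    have : ((4 ^ b : ℕ) : ℝ) ≤ ⌊z⌋₊ := by exact_mod_cast hb1
    push_cast at this
    exact this.trans (Nat.floor_le (by linarith))
  have hu2 : z ≤ 4 * u := by
    have h5 : z < ⌊z⌋₊ + 1 := Nat.lt_floor_add_one z
    have h7 : ((⌊z⌋₊ + 1 : ℕ) : ℝ) ≤ ((4 ^ (b + 1) : ℕ) : ℝ) := by exact_mod_cast hb2
    push_cast at h7
    rw [hu]
    rw [pow_succ] at h7
    linarith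
  have hb32 : 32 ≤ b := by
    have h5 : 4 ^ 33 ≤ ⌊z⌋₊ := Nat.le_floor (by rw [hz]; norm_num at h33 ⊢; exact h33)
    have h7 : 4 ^ 33 < 4 ^ (b + 1) := lt_of_le_of_lt h5 hb2
    have h8 := (Nat.pow_lt_pow_iff_right (by norm_num : 1 < 4)).1 h7
    omega
  have hu0 : 0 < u := by rw [hu]; positivity
  -- powers of `X`
  have eadd : ∀ r s t : ℝ, r + s = t → X ^ r * X ^ s = X ^ t := by
    intro r s t h
    rw [← Real.rpow_add hX0, h]
  have e79 : z * X ^ (79 / 100 : ℝ) = X := by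
    rw [hz, eadd (21 / 100) (79 / 100) 1 (by norm_num), Real.rpow_one]
  obtain ⟨y, hy⟩ : ∃ y, y = X ^ (79 / 100 : ℝ) := ⟨_, rfl⟩
  rw [← hy] at e79 h4
  have hzy : 2 * z ≤ y := by
    rw [hz, hy, ← eadd (21 / 100) (58 / 100) (79 / 100) (by norm_num)]
    have := mul_le_mul_of_nonneg_left h2 (by positivity : 0 ≤ X ^ (21 / 100 : ℝ))
    linarith
  -- the quotient
  obtain ⟨q, hq⟩ : ∃ q, q = n / 4 ^ b := ⟨_, rfl⟩
  have h4b : 0 < 4 ^ b := by positivity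
  have hq1 : 4 ^ b * q ≤ n := hq ▸ Nat.mul_div_le n (4 ^ b)
  have hq2 : n < 4 ^ b * (q + 1) := by
    rw [hq]; exact Nat.lt_mul_div_succ n h4b
  have hqR : X < u * (q + 1) := by
    rw [hX, hu]; exact_mod_cast hq2
  have hyq : y < q + 1 := by
    have h5 : z * y < z * (q + 1) := by
      rw [e79]
      refine hqR.trans_le (mul_le_mul_of_nonneg_right hu1 (by positivity))
    exact lt_of_mul_lt_mul_left h5 (by linarith)
  have hq0 : 1 ≤ q := by
    have : (1 : ℝ) < q + 1 := by linarith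
    have h5 : (0 : ℝ) < q := by linarith
    exact_mod_cast h5
  obtain ⟨m, hm⟩ : ∃ m, m = 2 * ((q - 1) / 2) + 1 := ⟨_, rfl⟩
  have hmq : m ≤ q := by omega
  have hqm : q ≤ m + 1 := by omega
  have hodd : Odd m := ⟨(q - 1) / 2, hm⟩
  have hnm : 4 ^ b * m ≤ n := (Nat.mul_le_mul_left _ hmq).trans hq1
  have heven : Even (n - 4 ^ b * m) := by
    have h5 : Even (4 ^ b * m) := by
      refine Even.mul_right ?_ m
      exact (Nat.even_pow.2 ⟨by decide, by omega⟩)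
    exact (Nat.even_sub hnm).2 (iff_of_true hn h5)
  obtain ⟨ρ, hρ⟩ := heven
  have hnρ : n = 4 ^ b * m + 2 * ρ := by omega
  have hρ1 : ρ ≤ 4 ^ b := by
    have h5 : 4 ^ b * (q + 1) ≤ 4 ^ b * (m + 2) := Nat.mul_le_mul_left _ (by omega)
    have h7 : 4 ^ b * (m + 2) = 4 ^ b * m + 2 * 4 ^ b := by ring
    omega
  have hmR : y / 2 ≤ m := by
    have h5 : (q : ℝ) ≤ m + 1 := by exact_mod_cast hqm
    linarith
  have hmX : u * m ≤ X := by
    rw [hu, hX]; exact_mod_cast hnm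
  have hm4 : (m : ℝ) ≤ 4 * y := by
    have h5 : z * m ≤ z * (4 * y) := by
      have h7 : z * (m : ℝ) ≤ 4 * u * m := mul_le_mul_of_nonneg_right hu2 (by positivity)
      have h8 : z * (4 * y) = 4 * X := by rw [← e79]; ring
      rw [h8]
      linarith
    exact le_of_mul_le_mul_left h5 (by linarith)
  have hm1 : (1 : ℝ) ≤ m := by linarith
  have hmX' : (m : ℝ) ≤ X := by
    have h5 : 1 ≤ u := by rw [hu]; exact one_le_pow₀ (by norm_num)
    nlinarith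
  have hρR : (ρ : ℝ) ≤ u := by
    rw [hu]; exact_mod_cast hρ1
  have hbX : (b : ℝ) ≤ Real.log X := by
    have h5 : (4 : ℝ) ^ b ≤ X := by
      rw [← hu]; nlinarith
    have h7 := Real.log_le_log (by positivity) h5
    rw [Real.log_pow] at h7
    have h8 : 1 ≤ Real.log 4 := by
      rw [Real.le_log_iff_exp_le (by norm_num)]
      have := Real.exp_one_lt_d9
      linarith
    have h9 : (0 : ℝ) ≤ b := Nat.cast_nonneg b
    nlinarith
  have h2b := two_b (show 2 ≤ b by omega)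
  refine ⟨b, m, ρ, hb32, hodd, hnρ, hρ1, ?_, h2b, ?_, ?_⟩
  · have h5 : (ρ : ℝ) ≤ m := by linarith
    exact_mod_cast h5
  · -- the main inequality
    rw [← hu]
    have h5 : lam m ≤ 3 * X ^ (3 / 100 : ℝ) := by
      unfold lam
      have h7 : Real.log m ≤ Real.log X := Real.log_le_log (by linarith) hmX'
      linarith
    have h5' : 0 ≤ lam m := by
      unfold lam
      have := Real.log_nonneg hm1
      linarith
    have h7 : lam m ^ 3 ≤ 27 * X ^ (9 / 100 : ℝ) := by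
      have h8 := pow_le_pow_left₀ h5' h5 3
      have h9 : (3 * X ^ (3 / 100 : ℝ)) ^ 3 = 27 * X ^ (9 / 100 : ℝ) := by
        rw [mul_pow, ← Real.rpow_mul_natCast hX0.le]
        norm_num
      rwa [h9] at h8
    have h8 : u ^ 7 ≤ X ^ (147 / 100 : ℝ) := by
      have h9 := pow_le_pow_left₀ hu0.le hu1 7
      rw [hz, ← Real.rpow_mul_natCast hX0.le] at h9
      norm_num at h9
      exact h9
    have h9 : (y / 2) ^ 2 ≤ (m : ℝ) ^ 2 := pow_le_pow_left₀ (by linarith) hmR 2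
    have h10 : (y / 2) ^ 2 = X ^ (158 / 100 : ℝ) / 4 := by
      rw [div_pow, hy, ← Real.rpow_mul_natCast hX0.le]
      norm_num
    have h11 : u ^ 7 * lam m ^ 3 ≤ X ^ (147 / 100 : ℝ) * (27 * X ^ (9 / 100 : ℝ)) :=
      mul_le_mul h8 h7 (by positivity) (by positivity)
    have h12 : X ^ (147 / 100 : ℝ) * (27 * X ^ (9 / 100 : ℝ)) = 27 * X ^ (156 / 100 : ℝ) := by
      rw [← eadd (147 / 100) (9 / 100) (156 / 100) (by norm_num)]
      ring
    have h13 : 16 * 10 ^ 10 * 27 * X ^ (156 / 100 : ℝ) ≤ X ^ (158 / 100 : ℝ) := by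
      rw [← eadd (2 / 100) (156 / 100) (158 / 100) (by norm_num)]
      exact mul_le_mul_of_nonneg_right hbig (by positivity)
    rw [h12] at h11
    rw [h10] at h9
    linarith
  · -- the last inequality
    rw [Nat.cast_sub h2b]
    push_cast
    rw [← hu]
    have h5 : X = u * m + 2 * ρ := by
      rw [hX, hu]; exact_mod_cast hnρ
    have h7 : (2 * (b : ℝ) + 3) * m ≤ 3 * X ^ (1 / 200 : ℝ) * (4 * y) := by
      refine mul_le_mul (by linarith) hm4 (by positivity) (by positivity)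
    have h8 : X ^ (4 / 5 : ℝ) = X ^ (1 / 200 : ℝ) * (X ^ (1 / 200 : ℝ) * y) := by
      rw [hy, eadd (1 / 200) (79 / 100) (159 / 200) (by norm_num),
        eadd (1 / 200) (159 / 200) (4 / 5) (by norm_num)]
    have h9 : 14 * (X ^ (1 / 200 : ℝ) * y) ≤ X ^ (4 / 5 : ℝ) := by
      rw [h8]
      exact mul_le_mul_of_nonneg_right h14 (by positivity)
    have h10 : y ≤ X ^ (1 / 200 : ℝ) * y := by
      have : 0 ≤ y := by linarith
      nlinarith
    have h11 : 2 * (ρ : ℝ) ≤ y := by linarith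
    have h12 : (u - (2 * (b : ℝ) + 3)) * m = X - 2 * ρ - (2 * b + 3) * m := by
      rw [h5]; ring
    rw [h12]
    linarith

end H20JT
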