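import Pool.Agent.H20.JT.Stm2

/-! # JT-SEL2: the whole selection (adapted from Sel.lean, helper31) -/

set_option autoImplicit false

namespace H20JT

open Finset

namespace SelH2

theorem start {A X : Type} [AddCommGroup A] [Fintype A] [DecidableEq A] [Fintype X]
    [DecidableEq X] {m n₀ : ℕ} (F : Frame A X m n₀) {r : ℕ} (N : Fin r → X → X) (B : ℝ)
    (hm : 1 ≤ m) : St2 F N B ∅ ∅ (fun _ => 0) (fun _ x => x) (fun _ => ∅)
      (fun x => if F.cl x = none then (m : ℝ) else 1) := by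
  have hm' : (1 : ℝ) ≤ m := by exact_mod_cast hm
  refine ⟨⟨by simp, by simp, by simp, by simp, by simp, by simp⟩, ?_, ?_, ?_, ?_, ?_⟩
  · intro x
    show (1 : ℝ) ≤ if F.cl x = none then (m : ℝ) else 1
    split_ifs
    · exact hm'
    · exact le_rfl
  · intro x hx
    show (m : ℝ) ≤ if F.cl x = none then (m : ℝ) else 1
    rw [if_pos hx]
  · rw [Finset.sum_ite, Finset.sum_const, Finset.sum_const, F.card_none]
    have h1 : (univ.filter fun x => ¬ F.cl x = none).card ≤ Fintype.card A * m := by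
      have h2 : (univ.filter fun x => ¬ F.cl x = none) ⊆
          (univ : Finset A).biUnion fun p => univ.filter fun x => F.cl x = some p := by
        intro x hx
        rw [mem_filter] at hx
        obtain ⟨p, hp⟩ := Option.ne_none_iff_exists'.1 hx.2
        rw [mem_biUnion]
        exact ⟨p, mem_univ _, mem_filter.2 ⟨mem_univ _, hp⟩⟩
      refine (card_le_card h2).trans (card_biUnion_le.trans ?_)
      rw [Finset.sum_congr rfl fun p _ => F.card_cl p, Finset.sum_const, card_univ, smul_eq_mul]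
    have h3 : ((univ.filter fun x => ¬ F.cl x = none).card : ℝ) ≤ (Fintype.card A : ℝ) * m := by
      exact_mod_cast h1
    rw [card_empty, pow_zero, one_mul, nsmul_eq_mul, nsmul_eq_mul, mul_one]
    nlinarith
  · intro x
    rw [filter_empty, card_empty, Nat.cast_zero, zero_div, Real.rpow_zero]
    show (1 : ℝ) ≤ if F.cl x = none then (m : ℝ) else 1
    split_ifs
    · exact hm'
    · exact le_rfl
  · simp

end SelH2

open SelH2 in
theorem sel2 : S_ONE2 → S_NUM2 → S_SEL2 := by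
  intro hONE hNUM A X _ _ _ _ _ m n₀ F r N P hn₀ hs hP0 hP2 hr hN
  obtain ⟨u, hu⟩ : ∃ u, u = Fintype.card A := ⟨_, rfl⟩
  have hu1 : 1 ≤ u := by
    rw [hu]
    exact Fintype.card_pos_iff.2 ⟨0⟩
  obtain ⟨D, hD⟩ : ∃ D : ℝ, D = 48 * (2 + 4 * n₀) * lam m * (u + n₀) := ⟨_, rfl⟩
  obtain ⟨hm, hD0, B, t₁, t₂, hB, hBs, hB3, ht₁, hut, ht₂, hDt, hDtt, hE⟩ :=
    hNUM u n₀ m hu1 (by rw [hu]; exact hn₀) (by rw [hu]; exact hs) D hD
  have hm0 : (0 : ℝ) < m := by
    have : 0 < m := by omega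
    exact_mod_cast this
  -- one step
  have step : ∀ (P' : Finset A) (S : Finset (Fin r)) (g : Fin r → A) (T : Fin r → X → X)
      (E : Fin r → Finset X) (w : X → ℝ) (γ : A) (J : Finset (Fin r)) (t : ℕ), γ ≠ 0 → γ ∉ P' →
      St2 F N B P' S g T E w → Disjoint J S → 1 ≤ t → J.card * t ≤ m →
      ∃ (S' : Finset (Fin r)) (g' : Fin r → A) (T' : Fin r → X → X) (E' : Fin r → Finset X)
        (w' : X → ℝ), St2 F N B (insert γ P') S' g' T' E' w' ∧ S ⊆ S' ∧
        (((J \ S').card * t : ℕ) : ℝ) ≤ D := by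
    intro P' S g T E w γ J t hγ hγP hSt hJ ht hJt
    obtain ⟨S', g', T', E', w', h1, h2, h3⟩ := hONE A X m n₀ F r N B P' S g T E w γ J t hN hm hB.le
      (by rw [← hu]; exact hBs) hγ hγP hSt hJ ht hJt
    refine ⟨S', g', T', E', w', h1, h2, h3.trans (le_of_eq ?_)⟩
    rw [hD, hu]
  -- first stage
  have stage : ∀ P' : Finset A, (0 : A) ∉ P' → ∃ (S : Finset (Fin r)) (g : Fin r → A)
      (T : Fin r → X → X) (E : Fin r → Finset X) (w : X → ℝ), St2 F N B P' S g T E w ∧
      ((univ \ S).card : ℝ) ≤ max 0 ((r : ℝ) - P'.card * m) + P'.card * D := by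
    intro P'
    induction P' using Finset.induction_on with
    | empty =>
      intro _
      refine ⟨_, _, _, _, _, start F N B (by omega), ?_⟩
      rw [sdiff_empty, card_univ, Fintype.card_fin, card_empty]
      simp
    | insert γ P' hγ ih =>
      intro h0
      obtain ⟨S, g, T, E, w, hSt, hS⟩ := ih fun h => h0 (mem_insert_of_mem h)
      have hγ0 : γ ≠ 0 := by
        rintro rfl
        exact h0 (mem_insert_self _ _)
      obtain ⟨J, hJS, hJc⟩ := Finset.exists_subset_card_eq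
        (s := univ \ S) (n := min (univ \ S).card m) (min_le_left _ _)
      have hJd : Disjoint J S := Finset.disjoint_of_subset_left hJS sdiff_disjoint
      obtain ⟨S', g', T', E', w', h1, h2, h3⟩ := step P' S g T E w γ J 1 hγ0 hγ hSt hJd le_rfl
        (by rw [mul_one, hJc]; exact min_le_right _ _)
      refine ⟨S', g', T', E', w', h1, ?_⟩
      rw [card_insert_of_notMem hγ]
      rw [mul_one] at h3
      have h4 : univ \ S' ⊆ ((univ \ S) \ J) ∪ (J \ S') := by
        intro i hi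
        rw [mem_sdiff] at hi
        rw [mem_union, mem_sdiff, mem_sdiff, mem_sdiff]
        by_cases hiJ : i ∈ J
        · exact Or.inr ⟨hiJ, hi.2⟩
        · exact Or.inl ⟨⟨mem_univ _, fun h => hi.2 (h2 h)⟩, hiJ⟩
      have h5 : (univ \ S').card ≤ ((univ \ S).card - J.card) + (J \ S').card := by
        refine (card_le_card h4).trans ((card_union_le _ _).trans ?_)
        rw [card_sdiff_of_subset hJS]
      have h6 : ((univ \ S').card : ℝ) ≤ (((univ \ S).card - J.card : ℕ) : ℝ) + D := by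
        have : ((univ \ S').card : ℝ) ≤ (((univ \ S).card - J.card : ℕ) : ℝ) +
          ((J \ S').card : ℝ) := by exact_mod_cast h5
        linarith
      have h7 : (((univ \ S).card - J.card : ℕ) : ℝ) ≤
          max 0 ((r : ℝ) - (P'.card + 1 : ℕ) * m) + P'.card * D := by
        have h8 : (0 : ℝ) ≤ P'.card * D := by positivity
        rcases le_total (univ \ S).card m with h9 | h9
        · rw [hJc, min_eq_left h9, Nat.sub_self, Nat.cast_zero]
          have := le_max_left (0 : ℝ) ((r : ℝ) - (P'.card + 1 : ℕ) * m)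
          linarith
        · rw [hJc, min_eq_right h9, Nat.cast_sub h9]
          have h10 : max 0 ((r : ℝ) - P'.card * m) - m ≤
              max 0 ((r : ℝ) - (P'.card + 1 : ℕ) * m) := by
            push_cast
            rcases le_total 0 ((r : ℝ) - P'.card * m) with h11 | h11
            · rw [max_eq_right h11]
              have := le_max_right (0 : ℝ) ((r : ℝ) - (P'.card + 1) * m)
              linarith
            · rw [max_eq_left h11]
              have := le_max_left (0 : ℝ) ((r : ℝ) - (P'.card + 1) * m)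
              linarith
          linarith
      push_cast at h7 ⊢
      linarith
  -- the last two types
  obtain ⟨γ₁, hγ₁⟩ : P.Nonempty := by
    rw [← card_pos]
    omega
  obtain ⟨γ₂, hγ₂⟩ : (P.erase γ₁).Nonempty := by
    rw [← card_pos, card_erase_of_mem hγ₁]
    omega
  obtain ⟨P₂, hP₂⟩ : ∃ P₂, P₂ = (P.erase γ₁).erase γ₂ := ⟨_, rfl⟩
  have hP₂c : P₂.card = P.card - 2 := by
    rw [hP₂, card_erase_of_mem hγ₂, card_erase_of_mem hγ₁]
    omega
  have hγ₂P : γ₂ ∈ P := mem_of_mem_erase hγ₂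
  have hP₂i : insert γ₁ (insert γ₂ P₂) = P := by
    rw [hP₂, insert_erase hγ₂, insert_erase hγ₁]
  have hγ₂n : γ₂ ∉ P₂ := by rw [hP₂]; exact notMem_erase _ _
  have hγ₁n : γ₁ ∉ insert γ₂ P₂ := by
    rw [hP₂, insert_erase hγ₂]
    exact notMem_erase _ _
  have hP₂0 : (0 : A) ∉ P₂ := by
    rw [hP₂]
    exact fun h => hP0 (mem_of_mem_erase (mem_of_mem_erase h))
  have hγ₁0 : γ₁ ≠ 0 := by
    rintro rfl
    exact hP0 hγ₁
  have hγ₂0 : γ₂ ≠ 0 := by
    rintro rfl
    exact hP0 hγ₂P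
  obtain ⟨S, g, T, E, w, hSt, hS⟩ := stage P₂ hP₂0
  have hPu : P.card ≤ u := by
    rw [hu]
    exact card_le_univ P
  have hPuR : (P.card : ℝ) ≤ u := by exact_mod_cast hPu
  have hS1 : ((univ \ S).card : ℝ) ≤ u * D := by
    have h1 : (r : ℝ) - P₂.card * m ≤ 0 := by
      rw [hP₂c]
      have : (r : ℝ) ≤ ((P.card - 2 : ℕ) : ℝ) * m := by exact_mod_cast hr
      linarith
    rw [max_eq_left h1, zero_add] at hS
    refine hS.trans (mul_le_mul_of_nonneg_right ?_ hD0.le)
    have : P₂.card ≤ u := by omega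
    exact_mod_cast this
  obtain ⟨S₁, g₁, T₁, E₁, w₁, hSt₁, hS₁s, hS₁⟩ := step P₂ S g T E w γ₂ (univ \ S) t₁ hγ₂0 hγ₂n hSt
    sdiff_disjoint ht₁ (by
      have h1 : ((univ \ S).card : ℝ) * t₁ ≤ m := by
        calc ((univ \ S).card : ℝ) * t₁ ≤ u * D * t₁ := by gcongr
          _ ≤ m := hut
      exact_mod_cast h1)
  have ht₁0 : (0 : ℝ) < t₁ := by exact_mod_cast ht₁
  have hsub : ∀ S S' : Finset (Fin r), S ⊆ S' → univ \ S' ⊆ (univ \ S) \ S' := by
    intro S S' h i hi
    rw [mem_sdiff] at hi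
    rw [mem_sdiff, mem_sdiff]
    exact ⟨⟨mem_univ _, fun h' => hi.2 (h h')⟩, hi.2⟩
  have hS₁c : ((univ \ S₁).card : ℝ) ≤ D / t₁ := by
    rw [le_div_iff₀ ht₁0]
    refine le_trans ?_ hS₁
    have h1 := Nat.mul_le_mul_right t₁ (card_le_card (hsub S S₁ hS₁s))
    exact_mod_cast h1
  obtain ⟨S₂, g₂, T₂, E₂, w₂, hSt₂, hS₂s, hS₂⟩ := step (insert γ₂ P₂) S₁ g₁ T₁ E₁ w₁ γ₁ (univ \ S₁)
    t₂ hγ₁0 hγ₁n hSt₁ sdiff_disjoint ht₂ (by
      have h1 : ((univ \ S₁).card : ℝ) * t₂ ≤ m := by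
        calc ((univ \ S₁).card : ℝ) * t₂ ≤ D / t₁ * t₂ := by gcongr
          _ ≤ m := hDtt
      exact_mod_cast h1)
  rw [hP₂i] at hSt₂
  have hS₂u : S₂ = univ := by
    have h1 : ((univ \ S₁) \ S₂).card = 0 := by
      by_contra hcon
      have h2 : 1 ≤ ((univ \ S₁) \ S₂).card := Nat.one_le_iff_ne_zero.2 hcon
      have h3 : t₂ ≤ ((univ \ S₁) \ S₂).card * t₂ := Nat.le_mul_of_pos_left _ h2
      have h4 : (t₂ : ℝ) ≤ ((((univ \ S₁) \ S₂).card * t₂ : ℕ) : ℝ) := by exact_mod_cast h3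
      linarith
    have h2 := hsub S₁ S₂ hS₂s
    rw [card_eq_zero.1 h1, subset_empty, sdiff_eq_empty_iff_subset] at h2
    exact univ_subset_iff.1 h2
  rw [hS₂u] at hSt₂
  refine ⟨g₂, T₂, E₂, hSt₂.sel, ?_, ?_⟩
  · intro x
    have hb := hSt₂.pot x
    have h1 : w₂ x ≤ ∑ y, w₂ y := Finset.single_le_sum (f := w₂)
      (fun y _ => le_trans zero_le_one (hSt₂.w1 y)) (mem_univ x)
    have h2 := hSt₂.tot
    rw [← hu] at h2
    have hu0 : (0 : ℝ) < u := by exact_mod_cast hu1
    have h3 : (1 + 1 / (u : ℝ)) ^ P.card ≤ 3 := by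
      have e1 : (1 + 1 / (u : ℝ)) ≤ Real.exp (1 / (u : ℝ)) := by
        have := Real.add_one_le_exp (1 / (u : ℝ))
        linarith
      have e0 : (1 : ℝ) ≤ 1 + 1 / (u : ℝ) := by
        have : 0 < 1 / (u : ℝ) := by positivity
        linarith
      calc (1 + 1 / (u : ℝ)) ^ P.card ≤ (1 + 1 / (u : ℝ)) ^ u := pow_le_pow_right₀ e0 hPu
        _ ≤ (Real.exp (1 / (u : ℝ))) ^ u := pow_le_pow_left₀ (by linarith) e1 u
        _ = Real.exp 1 := by
            rw [← Real.exp_nat_mul]
            congr 1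
            field_simp
        _ ≤ 3 := by
            have := Real.exp_one_lt_d9
            linarith
    have h4 : (1 + 1 / (u : ℝ)) ^ P.card * ((u + n₀) * m) ≤ 3 * ((u + n₀) * m) :=
      mul_le_mul_of_nonneg_right h3 (by positivity)
    have h5 : B ^ (((univ.filter fun i => x ∈ E₂ i ∨ T₂ i x ∈ E₂ i).card : ℝ) / (m : ℝ)) <
        B ^ (3 : ℝ) := by
      have e3 : B ^ (3 : ℝ) = B ^ (3 : ℕ) := by
        rw [← Real.rpow_natCast]
        norm_num
      rw [e3]
      linarith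
    have h6 := (Real.rpow_lt_rpow_left_iff hB).1 h5
    rw [div_lt_iff₀ hm0] at h6
    have h7 : (univ.filter fun i => x ∈ E₂ i ∨ T₂ i x ∈ E₂ i).card < 3 * m := by
      exact_mod_cast h6
    exact h7.le
  · have h1 := hSt₂.sumE
    rw [← hu] at h1
    have h2 : (2048 : ℝ) * ((∑ i ∈ (univ : Finset (Fin r)), (E₂ i).card : ℕ) : ℝ) ≤ m * m := by
      refine le_trans ?_ hE
      refine mul_le_mul_of_nonneg_left (h1.trans ?_) (by norm_num)
      refine mul_le_mul_of_nonneg_right hPuR ?_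
      have hl : 0 ≤ lam m := by
        unfold lam
        have := Real.log_natCast_nonneg m
        linarith
      positivity
    exact_mod_cast h2

end H20JT
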