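import Pool.Agent.H20.JT.Stm3

namespace H20JT

open Finset

universe u v

theorem tour : S_PAL.{u} → S_TOUR.{u, v} := by
  intro hpal D V _ _ ρ τ src ⟨x⟩ hρ hτ hf hc
  set π : D → D := τ ∘ ρ with hπ
  have hinj : Function.Injective π := by
    intro a b h
    have h1 : τ (τ (ρ a)) = τ (τ (ρ b)) := congrArg τ h
    rw [hτ.1, hτ.1] at h1
    have h2 := congrArg ρ h1
    rwa [hρ.1, hρ.1] at h2
  set l := Function.minimalPeriod π x with hl
  have hl0 : 0 < l := Function.minimalPeriod_pos_of_mem_periodicPts (hinj.mem_periodicPts x)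
  have hper : π^[l] x = x := Function.iterate_minimalPeriod
  have hpal' : ∀ i j, i ≤ j → ρ (π^[j] x) ≠ π^[i] x := by
    intro i j hij h
    have h1 : π^[j] x = π^[j - i] (π^[i] x) := by
      rw [← Function.iterate_add_apply, Nat.sub_add_cancel hij]
    rw [h1] at h
    exact hpal D τ ρ hτ hρ (j - i) (π^[i] x) h
  have hpal2 : ∀ i j, ρ (π^[j] x) ≠ π^[i] x := by
    intro i j h
    rcases le_total i j with hij | hij
    · exact hpal' i j hij h
    · refine hpal' j i hij ?_
      rw [← h, hρ.1]
  have hinj2 : ∀ i < l, ∀ j < l, π^[i] x = π^[j] x → i = j := fun i hi j hj h =>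
    Function.iterate_injOn_Iio_minimalPeriod hi hj h
  have hall : ∀ y : D, ∃ i, i < l ∧ (y = π^[i] x ∨ ρ y = π^[i] x) := by
    have hmod : ∀ (y : D) (i : ℕ), (y = π^[i] x ∨ ρ y = π^[i] x) →
        ∃ i, i < l ∧ (y = π^[i] x ∨ ρ y = π^[i] x) := by
      intro y i h
      refine ⟨i % l, Nat.mod_lt _ hl0, ?_⟩
      rw [hl, Function.iterate_mod_minimalPeriod_eq]
      exact h
    intro y
    have h := hc x y
    induction h with
    | refl => exact ⟨0, hl0, Or.inl rfl⟩
    | tail _ hbc ih =>
      rename_i b c _
      obtain ⟨i, hi, hb⟩ := ih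
      rcases hbc with h | h
      · rcases hb with hb | hb
        · have hb' : b = π^[i + l] x := by
            rw [Function.iterate_add_apply, hper, hb]
          obtain ⟨k, hk⟩ : ∃ k, i + l = k + 1 := ⟨i + l - 1, by omega⟩
          rw [hk, Function.iterate_succ_apply'] at hb'
          refine hmod c k (Or.inr ?_)
          rw [h, hb', hπ, Function.comp_apply, hτ.1, hρ.1]
        · refine hmod c (i + 1) (Or.inl ?_)
          rw [Function.iterate_succ_apply', ← hb, hπ, Function.comp_apply, hρ.1, h]
      · refine ⟨i, hi, ?_⟩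
        rcases hb with hb | hb
        · right
          rw [h, hρ.1, hb]
        · left
          rw [h, hb]
  -- the number of darts
  have hcard : Fintype.card D = 2 * l := by
    let f : Fin l × Bool → D := fun p => if p.2 then ρ (π^[p.1] x) else π^[p.1] x
    have hf' : Function.Bijective f := by
      constructor
      · rintro ⟨i, b⟩ ⟨j, b'⟩ h
        rcases b with _ | _ <;> rcases b' with _ | _ <;>
          simp only [f, if_true, if_false, Bool.false_eq_true] at h
        · have := hinj2 i i.2 j j.2 h
          rw [Fin.ext this]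
        · exact absurd h.symm (hpal2 _ _)
        · exact absurd h (hpal2 _ _)
        · have h2 := congrArg ρ h
          rw [hρ.1, hρ.1] at h2
          have := hinj2 i i.2 j j.2 h2
          rw [Fin.ext this]
      · intro y
        obtain ⟨i, hi, h | h⟩ := hall y
        · exact ⟨(⟨i, hi⟩, false), by simp [f, h]⟩
        · refine ⟨(⟨i, hi⟩, true), ?_⟩
          simp only [f, if_true]
          rw [← h, hρ.1]
    have := Fintype.card_of_bijective hf'
    rw [← this]
    simp [mul_comm]
  have hdiv : Fintype.card D / 2 = l := by omega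
  rw [hdiv]
  have : NeZero l := ⟨hl0.ne'⟩
  have hstep : ∀ t : ZMod l, π^[(t + 1).val] x = π (π^[t.val] x) := by
    intro t
    have hm : ∀ k : ℕ, π^[k % l] x = π^[k] x := fun k =>
      Function.iterate_mod_minimalPeriod_eq
    rw [ZMod.val_add, ZMod.val_one_eq_one_mod, Nat.add_mod_mod, hm,
      Function.iterate_succ_apply']
  refine ⟨fun t => π^[t.val] x, ⟨?_, ?_⟩, ?_⟩
  · intro t
    show src (π^[(t + 1).val] x) = src (ρ (π^[t.val] x))
    rw [hstep, hπ, Function.comp_apply, hf]
  · intro y
    obtain ⟨i, hi, h⟩ := hall y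
    have hv : ((i : ZMod l)).val = i := by
      rw [ZMod.val_natCast, Nat.mod_eq_of_lt hi]
    refine ⟨(i : ZMod l), ?_, ?_⟩
    · show π^[((i : ZMod l)).val] x = y ∨ π^[((i : ZMod l)).val] x = ρ y
      rw [hv]
      rcases h with h | h
      · exact Or.inl h.symm
      · exact Or.inr h.symm
    · intro t ht
      have ht' : π^[t.val] x = y ∨ π^[t.val] x = ρ y := ht
      have : π^[t.val] x = π^[i] x := by
        rcases h with h | h <;> rcases ht' with h' | h'
        · rw [h', h]
        · exfalso
          rw [h] at h'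
          exact hpal2 _ _ h'.symm
        · exfalso
          rw [← h'] at h
          exact hpal2 _ _ h
        · rw [h', h]
      have h2 := hinj2 t.val (ZMod.val_lt t) i hi this
      rw [← h2, ZMod.natCast_zmod_val]
  · intro t
    exact hstep t

end H20JT
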