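import Pool.Agent.H20.JT.Pal
import Pool.Agent.H20.JT.Even
import Pool.Agent.H20.JT.Mrg
import Pool.Agent.H20.JT.Step
import Pool.Agent.H20.JT.Eul
import Pool.Agent.H20.JT.Tr
import Pool.Agent.H20.JT.Walk
import Pool.Agent.H20.JT.Sw
import Pool.Agent.H20.JT.Des
import Pool.Agent.H20.JT.Avl
import Pool.Agent.H20.JT.Exm
import Pool.Agent.H20.JT.Cp
import Pool.Agent.H20.JT.Proc
import Pool.Agent.H20.JT.Frame
import Pool.Agent.H20.JT.Av2
import Pool.Agent.H20.JT.Bl2
import Pool.Agent.H20.JT.One2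
import Pool.Agent.H20.JT.Num2
import Pool.Agent.H20.JT.Num3
import Pool.Agent.H20.JT.Sel2
import Pool.Agent.H20.JT.Core2
import Pool.Agent.H20.JT.Grp2
import Pool.Agent.H20.JT.Ll2
import Pool.Agent.H20.JT.Dart2
import Pool.Agent.H20.JT.Fin2
import Pool.Agent.H20.JT.Tour
import Pool.Agent.H20.JT.Mfin

/-! # Project JT: assembly of the version with the error term `O(d^(4/5))` -/

namespace H20JT

universe u

theorem core2_main : S_CORE2 :=
  core2 (sel2 (one2 (bl2 (av2 (sw pal)) des)) num2) (proc (cp (exm avl) mrg'))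

theorem ll2_main : S_LL2 := ll2 core2_main frame grp2 num3 tr

theorem dart2_main : S_DART2.{u} := dart2 ll2_main tr (step even) (eul even mrg')

theorem fin2_main : S_FIN2.{u} := fin2 dart2_main (walk pal)

theorem mfin_main : S_MFIN.{u} := mfin dart2_main (tour pal)

end H20JT
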