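import Pool.Agent.H20.JT.Stm

namespace H20JT

universe u

theorem pal : S_PAL.{u} := by
  intro X T N hT hN i
  induction i using Nat.twoStepInduction with
  | zero => intro x; simpa using hN.2 x
  | one =>
    intro x h
    have h1 : T (N x) = N x := by
      have := congrArg N h
      simpa [hN.1] using this
    exact hT.2 _ h1
  | more i ih _ =>
    intro x h
    have e : (T ∘ N)^[i + 2] x = T (N ((T ∘ N)^[i] ((T ∘ N) x))) := by
      rw [show i + 2 = (i + 1) + 1 from rfl, Function.iterate_succ_apply', Function.iterate_succ_apply]
      rfl
    rw [e] at h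
    have h1 : T (N ((T ∘ N)^[i] ((T ∘ N) x))) = N x := by
      have := congrArg N h
      simpa [hN.1] using this
    have h2 : N ((T ∘ N)^[i] ((T ∘ N) x)) = (T ∘ N) x := by
      have := congrArg T h1
      simpa [hT.1] using this
    exact ih _ h2

end H20JT
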