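import Pool.Agent.H20.JT.Defs

/-! # Project JT: stub statements.  Each `S_xxx` is to be proved as `theorem xxx : S_xxx` (lower
case) in its own file `Pool/Agent/H20/JT/<Xxx>.lean`, or as an implication from the named stubs
when the note says so. -/

namespace H20JT

open Finset

universe u v

/-! ## A. cycles, graph part -/

/-- PAL (15 lines). `x` and `N(x)` are never in the same orbit of `T ∘ N`.
Proof: if `N ((T∘N)^i x) = x`, then for `i = 2s`, `N` has the fixed point `(T∘N)^s x`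
(`N (TN)^(2s) = (NT)^s N (TN)^s` and `(NT)^s` is the inverse of `(TN)^s`), for `i = 2s+1` the
map `T` has the fixed point `N (TN)^s x`. -/
def S_PAL : Prop := ∀ (X : Type u) (T N : X → X), Fpf T → Fpf N →
  ∀ (i : ℕ) (x : X), N ((T ∘ N)^[i] x) ≠ x

/-- EVEN (40 lines). A finite set with a colouring all of whose colour classes are even has a
fixed point free involution preserving the colours. (Induction on `|X|`, or `Fin (2k)` with
`i ↦ i xor 1` on every class.) -/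
def S_EVEN : Prop := ∀ (X : Type u) (ι : Type v) [Fintype X] [DecidableEq X] [DecidableEq ι]
  (c : X → ι), (∀ i, Even (univ.filter fun x => c x = i).card) →
  ∃ N : X → X, Fpf N ∧ ∀ x, c (N x) = c x

/-- MRG (80 lines), merging two cycles. Key point: for `x` in the orbit `O` of `a` under
`T, N`, `x` can be reached from `a` without using the edge `a T(a)`. Parity proof: let `K` be the
set of vertices reached from `a` with `N` everywhere and `T` off `{a, T a}`. If `T a ∉ K`, then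
`K` is closed under `N` and `K \ {a}` is closed under `T`, so both have an even number of
elements (fixed point free involutions), contradiction. Hence `T a ∈ K`, `K` is closed under `T`
and `N`, so `K ⊇ O`. The same for `c`; the steps used are also steps of `mrg T a c`
(which differs from `T` at `a, T a, c, T c` only), and `mrg` joins `a` and `c`. -/
def S_MRG : Prop := ∀ (X : Type u) [Fintype X] [DecidableEq X] (T N : X → X) (a c : X),
  Fpf T → Fpf N → ¬ Reach T N a c →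
  Fpf (mrg T a c) ∧ mrg T a c a = c ∧ mrg T a c (T a) = T c ∧ mrg T a c c = a ∧
  mrg T a c (T c) = T a ∧
  (∀ x, x ≠ a → x ≠ T a → x ≠ c → x ≠ T c → mrg T a c x = T x) ∧
  (∀ x y, Reach T N x y → Reach (mrg T a c) N x y) ∧ Reach (mrg T a c) N a c

/-- STEP (120 lines; prove `theorem step : S_EVEN.{u,u} → S_STEP.{u}`), first return matching. `A` is closed under `τ`. Consider the equivalence
relation on `D` generated by `ρ` everywhere and `τ` off `A`; a class `K` is closed under `ρ`, so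
`|K|` is even; `K \ A` is closed under `τ`, so `|K \ A|` is even; hence `|K ∩ A|` is even and
there is a fixed point free involution `N` of `A` preserving all the classes (any one will do).
If `T` on `A` satisfies `Conn T N`, then all of `A` is in one orbit of `τ'` (`= T` on `A`, `τ` off
`A`) and `ρ`, and each `y ∉ A` is connected to a point of `A` (if `A` is nonempty) by the
beginning of a `τ, ρ` path up to the first point of `A`; if `A` is empty, `τ' = τ`. -/
def S_STEP : Prop := ∀ (D : Type u) [Fintype D] [DecidableEq D] (τ ρ : D → D) (A : Finset D),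
  Fpf τ → Fpf ρ → Conn τ ρ → (∀ x ∈ A, τ x ∈ A) →
  ∃ N : A → A, Fpf N ∧ ∀ T : A → A, Fpf T → Conn T N →
    Conn (fun x => if h : x ∈ A then (T ⟨x, h⟩ : D) else τ x) ρ

/-- EUL (120 lines; prove `theorem eul : S_EVEN.{u,u} → S_MRG.{u} → S_EUL.{u}`), an Euler tour
exists. Take `τ` (fixed point free involution
preserving `src`; exists since the fibres are even) such that the orbit of a fixed `x₀` is as
large as possible; if it is not everything, there are `a` in it and `c` not in it with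
`src a = src c`, and `mrg τ a c` has a larger orbit. -/
def S_EUL : Prop := ∀ (D V : Type u) [Fintype D] [DecidableEq D] [DecidableEq V] (ρ : D → D)
  (src : D → V), Fpf ρ → (∀ v, Even (univ.filter fun x => src x = v).card) →
  (∀ x y, Relation.ReflTransGen (fun x y => y = ρ x ∨ src y = src x) x y) →
  ∃ τ : D → D, Fpf τ ∧ (∀ x, src (τ x) = src x) ∧ Conn τ ρ

/-- TR (20 lines), transport. -/
def S_TR : Prop := ∀ (X : Type u) (Y : Type v) (_ : X ≃ Y) (r : ℕ), LLX X r → LLX Y r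

/-- LL, the local lemma (100 lines; prove
`theorem ll : S_CORE → S_FRAME → S_GRP → S_TR.{0,0} → S_LL`). Given `ε` (replace it by
`min ε 1`) take `A, φ, R` from GRP with `ε/2`, `u = |A|`; for `n` even and large let `m` be the
largest odd number with `u m ≤ n`, so `n = u m + 2ρ`, `ρ < u`; FRAME and CORE give
`LLX X r` for `r ≤ (u - |R| - 3) m`, and `(1-ε)(u m + 2u) ≤ (1 - ε/2) u m` once
`m ≥ 4/ε`. -/
def S_LL : Prop := ∀ ε : ℝ, 0 < ε → ∃ n₁ : ℕ, ∀ n r : ℕ, Even n → n₁ ≤ n →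
  (r : ℝ) ≤ (1 - ε) * n → LLX (Fin n) r

/-- DART (120 lines; prove `theorem dart : S_LL → S_TR.{0,u} → S_STEP.{u} → S_EUL.{u} →
S_DART.{u}`). Process the vertices one at a time: for a set `W` of processed vertices there are
`τ i` (fixed point free, `src` preserving, `Conn (τ i) ρ`) with `τ i x ≠ τ j x` for all `x` with
`src x ∈ W`, `i ≠ j`. Start: all `τ i` equal (EUL). Step at `v ∉ W`: STEP for every `τ i`
with `A` the fibre of `v` gives `N i`, the local lemma gives `T i`. -/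
def S_DART : Prop := ∀ ε : ℝ, 0 < ε → ∃ n₁ : ℕ, ∀ (D V : Type u) [Fintype D] [DecidableEq D]
  [Fintype V] [DecidableEq V] (ρ : D → D) (src : D → V) (r : ℕ), Fpf ρ →
  (∀ v, Even (univ.filter fun x => src x = v).card) →
  (∀ v, n₁ ≤ (univ.filter fun x => src x = v).card) →
  (∀ v, (r : ℝ) ≤ (1 - ε) * (univ.filter fun x => src x = v).card) →
  (∀ x y, Relation.ReflTransGen (fun x y => y = ρ x ∨ src y = src x) x y) →
  ∃ τ : Fin r → D → D, (∀ i, Fpf (τ i) ∧ (∀ x, src (τ i x) = src x) ∧ Conn (τ i) ρ) ∧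
    ∀ i j, i ≠ j → ∀ x, τ i x ≠ τ j x

/-- WALK (150 lines; prove `theorem walk : S_PAL.{u} → S_WALK.{u}`). From the transition system to the closed walk: the walk goes
through the darts `x, π x, π² x, …`, `π = τ ∘ symm`. By PAL the orbit `O` of `x` under `π` is
disjoint from `symm O`, and `O ∪ symm O` is closed under `τ`, `symm`, so it is everything: every
edge has exactly one dart in `O`. -/
def S_WALK : Prop := ∀ (V : Type u) [Fintype V] [DecidableEq V] (G : SimpleGraph V)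
  [DecidableRel G.Adj] (τ : G.Dart → G.Dart), Nonempty G.Dart → Fpf τ →
  (∀ x, (τ x).fst = x.fst) → Conn τ SimpleGraph.Dart.symm →
  ∃ (v : V) (p : G.Walk v v), p.IsEulerian ∧
    ∀ t ∈ transitions p, ∃ y : G.Dart, t = s(y.edge, (τ y).edge)

/-- FIN (100 lines; prove `theorem fin : S_DART.{u} → S_WALK.{u} → S_FIN.{u}`). The final
theorem. `D = G.Dart`, `ρ = Dart.symm`, `src = Dart.fst`, `r = ⌈(2-ε)d⌉₊`, DART with `min (ε/4) (1/2)`.
Disjointness: if `s(y.edge, (τ i y).edge) = s(z.edge, (τ j z).edge)`, then (two different edges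
of a simple graph share at most one vertex) `τ i` and `τ j` agree at `y`. -/
def S_FIN : Prop := ∀ ε : ℝ, 0 < ε → ∃ d₀ : ℕ, ∀ (V : Type u) [Fintype V] [DecidableEq V]
  (G : SimpleGraph V) [DecidableRel G.Adj] (d : ℕ), d₀ ≤ d → G.Connected →
  (∀ v, Even (G.degree v)) → G.minDegree = 2 * d →
  ∃ r : ℕ, (2 - ε) * d ≤ r ∧ ∃ (v : Fin r → V) (p : ∀ i, G.Walk (v i) (v i)),
    (∀ i, (p i).IsEulerian) ∧ ∀ i j, i ≠ j → Disjoint (transitions (p i)) (transitions (p j))

/-! ## B. selection stage -/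

/-- SW (150 lines; prove `theorem sw : S_PAL.{0} → S_SW`), switching. Let `ℓ(σ) = minimalPeriod (rel σ M ∘ N) x`,
`T = rel σ M`. Inject pairs (σ with `ℓ(σ) = l`, `x'` in a class not on the cycle) into `Om cl`.
Case `cl x = some p`: `x'` of class `p`, not in `{(TN)^i x, N (TN)^i x : i < l}` (at most `2l`
points), image `σ * swap x x'`; the new matching is `T' = s T s`, `s = swap x x'`, and
`(T'N)^i x = (TN)^i x` for `i < l` (PAL: `N (TN)^i x ≠ x`), `(T'N)^l x = x'`, so `x'` and `σ`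
can be recovered. Case `cl x = none`: `v = T x` has class `q = cl (M x)` (all `σ` fix `x`);
`v'` of class `q` not on the cycle, image `σ * swap v v'`; the new matching `T'` has
`T' x = v'` and `N (T'N)^(l-1) x = v`, so again everything can be recovered. -/
def S_SW : Prop := ∀ (A X : Type) [DecidableEq A] [Fintype X] [DecidableEq X]
  (cl : X → Option A) (m : ℕ) (M N : X → X) (x : X) (l : ℕ),
  (∀ p, (univ.filter fun x => cl x = some p).card = m) → Fpf M → Fpf N →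
  (∀ x, cl x = none → cl (M x) ≠ none) → 1 ≤ l →
  ((Om cl).filter fun σ => Function.minimalPeriod (rel σ M ∘ N) x = l).card * (m - 2 * l) ≤
    (Om cl).card

/-- AV (100 lines; prove `theorem av : S_SW → S_AV`). Averaging over `σ ∈ Om cl`: for every `x`
and `j`, with `s = Nat.sqrt m`, the mean of `1/ℓ` is at most
`∑_{l=1}^{s} 1/(m-2l) + 1/s ≤ 2s/m + 1/s ≤ 3/s` (as `m - 2s ≥ m/2` for `m ≥ 16`). -/
def S_AV : Prop := ∀ (A X : Type) [DecidableEq A] [Fintype X] [DecidableEq X]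
  (cl : X → Option A) (m : ℕ) (M N : Fin m → X → X) (w : X → ℝ), 16 ≤ m →
  (∀ p, (univ.filter fun x => cl x = some p).card = m) → (∀ j, Fpf (M j)) →
  (∀ j, Fpf (N j)) → (∀ j x, cl x = none → cl (M j x) ≠ none) → (∀ x, 0 ≤ w x) →
  ∃ σ ∈ Om cl, ∑ j, cost (rel σ (M j)) (N j) w ≤ 3 * m / (Nat.sqrt m : ℝ) * ∑ x, w x

/-- DES (120 lines), designated vertices. Let `O` run over the orbits (classes of `Reach T N`).
`O' = {x ∈ O : cl x ≠ none, cl (T x) ≠ none}`; `|O \ O'| ≤ 2 n₀`. `O'` is nonempty: otherwise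
`|O| ≤ 2 n₀` and `O` contains `z` with `cl z = none`, `cost ≥ w z / |O| ≥ m/(2 n₀)`,
contradiction (`minimalPeriod (T∘N) x ≤ |O|`). Choose `a ∈ O'` with `w a + w (T a)` minimal; then
`|O'| (w a + w (T a)) ≤ 2 ∑_{x ∈ O'} w x` and `|O| ≤ (1 + 2 n₀) |O'|`, hence
`w a + w (T a) ≤ (2 + 4 n₀) ∑_{x ∈ O} w x / minimalPeriod (T∘N) x`. `E` = the set of these `a`. -/
def S_DES : Prop := ∀ (A X : Type) [DecidableEq A] [Fintype X] [DecidableEq X]
  (cl : X → Option A) (m n₀ : ℕ) (T N : X → X) (w : X → ℝ), 0 < m →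
  (univ.filter fun x => cl x = none).card = n₀ → Fpf T → Fpf N →
  (∀ x, cl x = none → cl (T x) ≠ none) → (∀ x, 1 ≤ w x) →
  (∀ x, cl x = none → (m : ℝ) ≤ w x) → 16 * (2 + 4 * n₀) * cost T N w ≤ m →
  ∃ E : Finset X, (∀ a ∈ E, cl a ≠ none ∧ cl (T a) ≠ none) ∧
    (∀ x, ∃ a ∈ E, Reach T N x a) ∧
    ∑ a ∈ E, (w a + w (T a)) ≤ (2 + 4 * n₀) * cost T N w

/-- BL (100 lines; prove `theorem bl : S_AV → S_DES → S_BL`), one block: `σ` from AV, `J` the set
of colours with `16 (2+4n₀) cost ≤ m`, `E j` from DES (`2 |E j| ≤ ∑ (w a + w (T a))`). -/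
def S_BL : Prop := ∀ (A X : Type) [AddCommGroup A] [DecidableEq A] [Fintype X]
  [DecidableEq X] (m n₀ : ℕ) (F : Frame A X m n₀) (γ : A) (N : Fin m → X → X) (w : X → ℝ),
  γ ≠ 0 → 16 ≤ m → (∀ j, Fpf (N j)) → (∀ x, 1 ≤ w x) →
  (∀ x, F.cl x = none → (m : ℝ) ≤ w x) →
  ∃ (σ : Equiv.Perm X) (J : Finset (Fin m)) (E : Fin m → Finset X), σ ∈ Om F.cl ∧
    (m : ℝ) - J.card ≤ 48 * (2 + 4 * n₀) / (Nat.sqrt m : ℝ) * ∑ x, w x ∧
    (∀ j ∈ J, (∀ a ∈ E j, F.cl a ≠ none ∧ F.cl (rel σ (F.M γ j) a) ≠ none) ∧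
      (∀ x, ∃ a ∈ E j, Reach (rel σ (F.M γ j)) (N j) x a) ∧ 32 * (E j).card ≤ m) ∧
    ∑ j ∈ J, ∑ a ∈ E j, (w a + w (rel σ (F.M γ j) a)) ≤
      (2 + 4 * n₀) * (3 * m / (Nat.sqrt m : ℝ) * ∑ x, w x)

/-- ONE (180 lines; prove `theorem one : S_BL → S_ONE`), one step of the selection. Let
`ι : Fin m → Fin r` be such that every `i ∈ J` has at least `t` preimages (`|J| t ≤ m`; if `J` is
empty the conclusion is easy as well: only `P` grows); apply BL with
`N' j = N (ι j)`. `J'` = the `i ∈ J` with a kept colour (choose one), `S' = S ∪ J'`,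
`t |J \ J'| ≤` number of dropped colours. `f x = #{i ∈ J' : x ∈ E i ∨ T i x ∈ E i} ≤ m`,
`w' x = w x * B` if `16 u f x > m` and `cl x ≠ none` (`f x = 0` if `cl x = none`), else `w x`.
`∑ w' ≤ ∑ w + (B-1) (16u/m) ∑ w x f x`, `∑ w x f x ≤ K (3m/s) ∑ w`. Disjointness of the new
matchings from the old ones: different types (use `κ_inj`, and if `cl (T x) = none` look from
`T x`). `rel σ` preserves `IsType` and disjointness. -/
def S_ONE : Prop := ∀ (A X : Type) [AddCommGroup A] [Fintype A] [DecidableEq A] [Fintype X]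
  [DecidableEq X] (m n₀ : ℕ) (F : Frame A X m n₀) (r : ℕ) (N : Fin r → X → X) (B : ℕ)
  (P : Finset A) (S : Finset (Fin r)) (g : Fin r → A) (T : Fin r → X → X)
  (E : Fin r → Finset X) (w : X → ℝ) (γ : A) (J : Finset (Fin r)) (t : ℕ),
  (∀ i, Fpf (N i)) → 16 ≤ m → 1 ≤ B →
  48 * Fintype.card A * (2 + 4 * n₀) * B ≤ Nat.sqrt m → γ ≠ 0 → γ ∉ P →
  St F N B P S g T E w → Disjoint J S → 1 ≤ t → J.card * t ≤ m →
  ∃ (S' : Finset (Fin r)) (g' : Fin r → A) (T' : Fin r → X → X) (E' : Fin r → Finset X)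
    (w' : X → ℝ), St F N B (insert γ P) S' g' T' E' w' ∧ S ⊆ S' ∧
    (((J \ S').card * t : ℕ) : ℝ) ≤ 48 * (2 + 4 * n₀) / (Nat.sqrt m : ℝ) *
      (2 ^ Fintype.card A * ((Fintype.card A + n₀) * m))

/-- NUM (80 lines), the numerical inequalities for SEL. `s = Nat.sqrt m`, `s² ≤ m ≤ 3 s²`,
`K = 2 + 4n₀ ≤ 10 u`, `D ≤ C s` with `C = 4320 u² 2^u ≤ 2^(3u+13)`; `B = s / (480 u²)`,
`t₁ = ⌊m/(u D)⌋`, `t₂ = ⌊D⌋ + 1`; `D/t₁ ≤ 2 u D²/m ≤ 2 u C²`; `u ≤ 2^u`. -/
def S_NUM : Prop := ∀ u n₀ m : ℕ, 1 ≤ u → n₀ ≤ 2 * u → 2 ^ (10 * u + 60) ≤ Nat.sqrt m →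
  ∀ D : ℝ, D = 48 * (2 + 4 * n₀) / (Nat.sqrt m : ℝ) * (2 ^ u * ((u + n₀) * m)) →
  16 ≤ m ∧ 0 < D ∧ ∃ B t₁ t₂ : ℕ, 1 ≤ B ∧ 48 * u * (2 + 4 * n₀) * B ≤ Nat.sqrt m ∧
    (2 ^ u * ((u + n₀) * m) : ℝ) < (B : ℝ) ^ 3 ∧ 1 ≤ t₁ ∧ u * D * t₁ ≤ m ∧ 1 ≤ t₂ ∧
    D < t₂ ∧ D / t₁ * t₂ ≤ m ∧
    2048 * (u * ((2 + 4 * n₀) * (3 * m / (2 * (Nat.sqrt m : ℝ))) *
      (2 ^ u * ((u + n₀) * m)))) ≤ (m : ℝ) * m

/-- SEL (180 lines; prove `theorem sel : S_ONE → S_NUM → S_SEL`), the whole selection. `u = |A|`,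
`s = Nat.sqrt m` (`s² ≤ m ≤ 3 s²`), `K = 2 + 4n₀ ≤ 10 u`, `B = s / (480 u²)`,
`D = 48 K / s * 2^u (u+n₀) m ≤ C s`, `C = 4320 u² 2^u`. Start: `P = ∅`, `w = 1` or `m`. Using
`|P| - 2` types with `t = 1`, `|J| = min (unserved) m`: the number of unserved indices is at most
`max 0 (r - k m) + k D` after `k` types, so at most `u D` in the end. Then one type with
`t = ⌊m/(u D)⌋` leaves at most `D/t ≤ 2uD²/m ≤ 2 u C²`, and the last one with `t = ⌊D⌋ + 1`
leaves none. `b ≤ 2` since `B³ > 2^u (u+n₀) m`, so the count is `≤ 33m/16`. All the inequalities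
hold as `s ≥ 2^(10u+60)`. -/
def S_SEL : Prop := ∀ (A X : Type) [AddCommGroup A] [Fintype A] [DecidableEq A] [Fintype X]
  [DecidableEq X] (m n₀ : ℕ) (F : Frame A X m n₀) (r : ℕ) (N : Fin r → X → X) (P : Finset A),
  n₀ ≤ 2 * Fintype.card A → 2 ^ (10 * Fintype.card A + 60) ≤ Nat.sqrt m → (0 : A) ∉ P →
  2 ≤ P.card → r ≤ (P.card - 2) * m → (∀ i, Fpf (N i)) →
  ∃ (g : Fin r → A) (T : Fin r → X → X) (E : Fin r → Finset X), Sel F N P univ g T E ∧
    (∀ x, (univ.filter fun i => x ∈ E i ∨ T i x ∈ E i).card ≤ 3 * m) ∧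
    2048 * ∑ i, (E i).card ≤ m * m

/-! ## C. merging stage -/

/-- AVL (100 lines), counting. Of the `m` vertices `c` of class `p + h` at most `5m/16` are not
good (`T' c ≠ T c`: `≤ 4|E| ≤ m/8`; `cl (T c) = none`: `≤ n₀ ≤ m/16`; `c` or `T c` not light:
`≤ m/32` each; `c` or `T c` in `E`: `≤ m/32` each) and at most
`ldh U h a + ldh U h (T a) ≤ m/8` are excluded by `U`
(`T c` has class `p + h + g = cl (T a) + h`). -/
def S_AVL : Prop := ∀ (A X : Type) [AddCommGroup A] [DecidableEq A] [Fintype X] [DecidableEq X]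
  (cl : X → Option A) (κ : X → A → A) (m n₀ : ℕ) (R : Finset A) (g : A) (T N : X → X)
  (U : Finset (X × X)) (E : Finset X) (T' : X → X) (E' : Finset X),
  Ctx cl κ m n₀ R g T N U E → Inv cl m R T N U E T' E' →
  ∀ (a : X) (p h : A), h ∈ R → cl a = some p → cl (T a) ≠ none →
  8 * (ldh cl U h a + ldh cl U h (T a)) ≤ m →
  ∃ C : Finset X, m < 2 * C.card ∧ ∀ c ∈ C, cl c = some (p + h) ∧ Good cl m T U E T' c ∧
    (a, c) ∉ U ∧ (T a, T c) ∉ U

/-- EXM (120 lines; prove `theorem exm : S_AVL → S_EXM`), a merge exists. Suppose not. For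
`e ∈ E'` there is `h ∈ R` with `ldh e + ldh (T e) ≤ m/8` (as `|R| ≥ 64`,
`∑_h ldh ≤ ld`, `E4`), and by AVL more than half of class `cl e + h` is good and in the orbit of
`e`; for a good `a` every `h ∈ R` works (`ldh ≤ ld < m/16`). By `gen` more than half of every
class is in the orbit of `e`. The same for another `e' ∈ E'`, so the orbits meet,
contradiction. -/
def S_EXM : Prop := ∀ (A X : Type) [AddCommGroup A] [DecidableEq A] [Fintype X] [DecidableEq X]
  (cl : X → Option A) (κ : X → A → A) (m n₀ : ℕ) (R : Finset A) (g : A) (T N : X → X)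
  (U : Finset (X × X)) (E : Finset X) (T' : X → X) (E' : Finset X),
  Ctx cl κ m n₀ R g T N U E → Inv cl m R T N U E T' E' →
  (∀ a ∈ E', ∀ b ∈ E', a ≠ b → ¬ Reach T' N a b) → 2 ≤ E'.card →
  ∃ a c, (a ∈ E' ∨ Good cl m T U E T' a) ∧ Good cl m T U E T' c ∧ T' a = T a ∧
    cl (T a) ≠ none ∧ ResEdge cl R a c ∧ (a, c) ∉ U ∧ (T a, T c) ∉ U ∧ ¬ Reach T' N a c

/-- CP (150 lines; prove `theorem cp : S_EXM → S_MRG.{0} → S_CP`), one colour. Induction on
`|E'|` with the invariant `Inv` (start: `T' = T`, `E' = E`). If `|E'| ≤ 1` the covering gives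
`Conn`. If two different elements of `E'` are in one orbit, drop one of them. Otherwise take
`a, c` from EXM, replace `T'` by `mrg T' a c` and drop from `E'` the element `e` of the orbit of
`a` (it is not the one of the orbit of `c`); the four new values are reserve edges
(`cl (T a) = p + g`, `cl (T c) = p + h + g`). -/
def S_CP : Prop := ∀ (A X : Type) [AddCommGroup A] [DecidableEq A] [Fintype X] [DecidableEq X]
  (cl : X → Option A) (κ : X → A → A) (m n₀ : ℕ) (R : Finset A) (g : A) (T N : X → X)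
  (U : Finset (X × X)) (E : Finset X), Ctx cl κ m n₀ R g T N U E →
  ∃ T' : X → X, Fpf T' ∧ Conn T' N ∧
    (∀ x, T' x = T x ∨ (ResEdge cl R x (T' x) ∧ (x, T' x) ∉ U)) ∧
    (∀ x, T' x ≠ T x → 16 * ld U x < m ∨ x ∈ E ∨ T x ∈ E) ∧
    (univ.filter fun x => T' x ≠ T x).card ≤ 4 * E.card

/-- PROC (180 lines; prove `theorem proc : S_CP → S_PROC`), all colours, one after the other.
After the indices `i < k`: `U = {(x, T' i x) : i < k, T' i x ≠ T i x}` is symmetric,
`16 ld U x ≤ 16 #{i < k : x ∈ E i ∨ T i x ∈ E i} + m + 16`, `|U| ≤ 4 ∑_{i<k} |E i|`. So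
`ld U x ≤ 4m`, and `#{x : m ≤ 16 ld U x} * m ≤ 16 |U|`. Disjointness: unchanged values by
`Sel.disj`, changed against unchanged by types (`P`, `R` disjoint), changed against changed
by `∉ U`. -/
def S_PROC : Prop := ∀ (A X : Type) [AddCommGroup A] [DecidableEq A] [Fintype X]
  [DecidableEq X] (m n₀ : ℕ) (F : Frame A X m n₀) (R P : Finset A) (r : ℕ)
  (N : Fin r → X → X) (g : Fin r → A) (T : Fin r → X → X) (E : Fin r → Finset X),
  (0 : A) ∉ R → 64 ≤ R.card →
  (∀ S : Set A, S.Nonempty → (∀ p ∈ S, ∀ h ∈ R, p + h ∈ S) → ∀ p, p ∈ S) →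
  Disjoint P R → (0 : A) ∉ P → 16 ≤ m → 16 * n₀ ≤ m → (∀ i, Fpf (N i)) →
  Sel F N P univ g T E →
  (∀ x, (univ.filter fun i => x ∈ E i ∨ T i x ∈ E i).card ≤ 3 * m) →
  2048 * ∑ i, (E i).card ≤ m * m →
  ∃ T' : Fin r → X → X, (∀ i, Fpf (T' i)) ∧ (∀ i j, i ≠ j → ∀ x, T' i x ≠ T' j x) ∧
    ∀ i, Conn (T' i) (N i)

/-! ## D. base system -/

/-- FRAME (150 lines). `X = (Fin ρ × Bool) ⊕ (A × ZMod m)` (or `A × Fin m`), class of `(p, a)` is
`p`, the points `z_l = (l, false)`, `z'_l = (l, true)` have no class. `M g j`: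
`(p, a) ↦ (p + g, j - a)`, except that for `l < ρ` the pair `(φ g, 2j + l)`, `(φ g + g, -j - l)`
is separated: `z_l ↔ (φ g, 2j + l)`, `z'_l ↔ (φ g + g, -j - l)`. `κ z_l g = φ g`,
`κ z'_l g = φ g + g`, `κ x g = g` for the others. `m` odd makes `j ↦ 2j` injective. -/
def S_FRAME : Prop := ∀ (A : Type) [AddCommGroup A] [Fintype A] [DecidableEq A] (φ : A → A)
  (m ρ : ℕ), (∀ p : A, p + p = 0) → Function.Injective φ →
  (Function.Injective fun g => φ g + g) → Odd m → ρ ≤ m →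
  ∃ (X : Type) (_ : Fintype X) (_ : DecidableEq X),
    Fintype.card X = Fintype.card A * m + 2 * ρ ∧ Nonempty (Frame A X m (2 * ρ))

/-- GRP (80 lines). `A = Fin b → ZMod 2 × ZMod 2` (`|A| = 4^b`), `φ f i = ((f i).2, (f i).1 +
(f i).2)`, `R` = the `2b` unit vectors, `b` large. -/
def S_GRP : Prop := ∀ ε : ℝ, 0 < ε → ∃ (A : Type) (_ : AddCommGroup A) (_ : Fintype A)
  (_ : DecidableEq A) (φ : A → A) (R : Finset A), (∀ p : A, p + p = 0) ∧
  Function.Injective φ ∧ (Function.Injective fun g => φ g + g) ∧ (0 : A) ∉ R ∧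
  64 ≤ R.card ∧ (∀ S : Set A, S.Nonempty → (∀ p ∈ S, ∀ h ∈ R, p + h ∈ S) → ∀ p, p ∈ S) ∧
  ((R.card + 3 : ℕ) : ℝ) ≤ ε * Fintype.card A ∧ Even (Fintype.card A)

/-- CORE (40 lines; prove `theorem core : S_SEL → S_PROC → S_CORE`): `P = univ \ ({0} ∪ R)`. -/
def S_CORE : Prop := ∀ (A X : Type) [AddCommGroup A] [Fintype A] [DecidableEq A] [Fintype X]
  [DecidableEq X] (m n₀ : ℕ) (_ : Frame A X m n₀) (R : Finset A) (r : ℕ),
  n₀ ≤ 2 * Fintype.card A → 2 ^ (10 * Fintype.card A + 60) ≤ Nat.sqrt m → (0 : A) ∉ R →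
  64 ≤ R.card → (∀ S : Set A, S.Nonempty → (∀ p ∈ S, ∀ h ∈ R, p + h ∈ S) → ∀ p, p ∈ S) →
  R.card + 3 ≤ Fintype.card A → r ≤ (Fintype.card A - (R.card + 3)) * m → LLX X r

end H20JT
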