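import Pool.Agent.H20.JT.Stm

/-! # Project JT2: the same with an error term `O(d^(4/5))`

Changes against `Stm.lean`: the average in AV is estimated by the harmonic sum
(`lam m = 6 + 2 log m` instead of `3 m / sqrt m`), the potential is `B ^ (count / m)` (real
powers, convexity) and grows by a factor `1 + 1/|A|` per type. -/

namespace H20JT

open Finset

universe u v

/-- the bound for the sum of the mean inverse lengths over the `m` colours -/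
noncomputable def lam (m : ℕ) : ℝ := 6 + 2 * Real.log m

/-- state of the selection stage after the types in `P` have been used -/
structure St2 {A X : Type} [AddCommGroup A] [Fintype A] [DecidableEq A] [Fintype X]
    [DecidableEq X] {m n₀ : ℕ} (F : Frame A X m n₀) {r : ℕ} (N : Fin r → X → X) (B : ℝ)
    (P : Finset A) (S : Finset (Fin r)) (g : Fin r → A) (T : Fin r → X → X)
    (E : Fin r → Finset X) (w : X → ℝ) : Prop where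
  sel : Sel F N P S g T E
  w1 : ∀ x, 1 ≤ w x
  wm : ∀ x, F.cl x = none → (m : ℝ) ≤ w x
  tot : ∑ x, w x ≤ (1 + 1 / (Fintype.card A : ℝ)) ^ P.card * ((Fintype.card A + n₀) * m)
  pot : ∀ x, B ^ (((S.filter fun i => x ∈ E i ∨ T i x ∈ E i).card : ℝ) / (m : ℝ)) ≤ w x
  sumE : ((∑ i ∈ S, (E i).card : ℕ) : ℝ) ≤
    P.card * ((2 + 4 * n₀) * lam m / 2 * (3 * ((Fintype.card A + n₀) * m)))

/-- AV2 (prove `theorem av2 : S_SW → S_AV2`; adapt Av.lean). Mean of `1/ℓ` at most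
`∑_{l=1}^{L} 1/(l (m-2l)) + 1/(L+1)`, `L = m/4`, so at most
`(2/m) (1 + log m) + 4/m = lam m / m` (`harmonic_le_one_add_log`). -/
def S_AV2 : Prop := ∀ (A X : Type) [DecidableEq A] [Fintype X] [DecidableEq X]
  (cl : X → Option A) (m : ℕ) (M N : Fin m → X → X) (w : X → ℝ), 16 ≤ m →
  (∀ p, (univ.filter fun x => cl x = some p).card = m) → (∀ j, Fpf (M j)) →
  (∀ j, Fpf (N j)) → (∀ j x, cl x = none → cl (M j x) ≠ none) → (∀ x, 0 ≤ w x) →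
  ∃ σ ∈ Om cl, ∑ j, cost (rel σ (M j)) (N j) w ≤ lam m * ∑ x, w x

/-- BL2 (prove `theorem bl2 : S_AV2 → S_DES → S_BL2`; adapt Bl.lean): `J` = the colours with
`16 (2+4n₀) cost ≤ m`. -/
def S_BL2 : Prop := ∀ (A X : Type) [AddCommGroup A] [DecidableEq A] [Fintype X]
  [DecidableEq X] (m n₀ : ℕ) (F : Frame A X m n₀) (γ : A) (N : Fin m → X → X) (w : X → ℝ),
  γ ≠ 0 → 16 ≤ m → (∀ j, Fpf (N j)) → (∀ x, 1 ≤ w x) →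
  (∀ x, F.cl x = none → (m : ℝ) ≤ w x) →
  ∃ (σ : Equiv.Perm X) (J : Finset (Fin m)) (E : Fin m → Finset X), σ ∈ Om F.cl ∧
    (m : ℝ) - J.card ≤ 16 * (2 + 4 * n₀) / (m : ℝ) * (lam m * ∑ x, w x) ∧
    (∀ j ∈ J, (∀ a ∈ E j, F.cl a ≠ none ∧ F.cl (rel σ (F.M γ j) a) ≠ none) ∧
      (∀ x, ∃ a ∈ E j, Reach (rel σ (F.M γ j)) (N j) x a) ∧ 32 * (E j).card ≤ m) ∧
    ∑ j ∈ J, ∑ a ∈ E j, (w a + w (rel σ (F.M γ j) a)) ≤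
      (2 + 4 * n₀) * (lam m * ∑ x, w x)

/-- ONE2 (prove `theorem one2 : S_BL2 → S_ONE2`; adapt One.lean). Now
`w' x = w x * B ^ (f x / m)`, `f x = #{i ∈ J' : x ∈ E i ∨ T i x ∈ E i} ≤ m`, and
`B ^ y ≤ 1 + y (B - 1)` for `0 ≤ y ≤ 1` (`Real.rpow_one_add_le_one_add_mul_self`), so
`∑ w' ≤ ∑ w + (B-1)/m * ∑ w f ≤ (1 + 1/u) ∑ w`. `(1+1/u)^|P| ≤ (1+1/u)^u ≤ e ≤ 3`. -/
def S_ONE2 : Prop := ∀ (A X : Type) [AddCommGroup A] [Fintype A] [DecidableEq A] [Fintype X]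
  [DecidableEq X] (m n₀ : ℕ) (F : Frame A X m n₀) (r : ℕ) (N : Fin r → X → X) (B : ℝ)
  (P : Finset A) (S : Finset (Fin r)) (g : Fin r → A) (T : Fin r → X → X)
  (E : Fin r → Finset X) (w : X → ℝ) (γ : A) (J : Finset (Fin r)) (t : ℕ),
  (∀ i, Fpf (N i)) → 16 ≤ m → 1 ≤ B →
  Fintype.card A * (2 + 4 * n₀) * lam m * B ≤ m → γ ≠ 0 → γ ∉ P →
  St2 F N B P S g T E w → Disjoint J S → 1 ≤ t → J.card * t ≤ m →
  ∃ (S' : Finset (Fin r)) (g' : Fin r → A) (T' : Fin r → X → X) (E' : Fin r → Finset X)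
    (w' : X → ℝ), St2 F N B (insert γ P) S' g' T' E' w' ∧ S ⊆ S' ∧
    (((J \ S').card * t : ℕ) : ℝ) ≤ 48 * (2 + 4 * n₀) * lam m * (Fintype.card A + n₀)

/-- NUM2 (inequalities). `K = 2+4n₀ ≤ 10u`, `B = m/(u K lam)`,
`D = 48 K lam (u+n₀) ≤ 1440 u² lam`, `t₁ = ⌊m/(u D)⌋`, `t₂ = ⌊D⌋ + 1`, `lam ≥ 6`. -/
def S_NUM2 : Prop := ∀ u n₀ m : ℕ, 1 ≤ u → n₀ ≤ 2 * u →
  4 * 10 ^ 10 * (u : ℝ) ^ 7 * lam m ^ 3 ≤ (m : ℝ) ^ 2 →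
  ∀ D : ℝ, D = 48 * (2 + 4 * n₀) * lam m * (u + n₀) →
  16 ≤ m ∧ 0 < D ∧ ∃ (B : ℝ) (t₁ t₂ : ℕ), 1 < B ∧ u * (2 + 4 * n₀) * lam m * B ≤ m ∧
    3 * ((u + n₀) * m) < B ^ 3 ∧ 1 ≤ t₁ ∧ u * D * t₁ ≤ m ∧ 1 ≤ t₂ ∧
    D < t₂ ∧ D / t₁ * t₂ ≤ m ∧
    2048 * (u * ((2 + 4 * n₀) * lam m / 2 * (3 * ((u + n₀) * m)))) ≤ (m : ℝ) * m

/-- SEL2 (prove `theorem sel2 : S_ONE2 → S_NUM2 → S_SEL2`; adapt Sel.lean). In the end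
`B ^ (count/m) ≤ w x ≤ ∑ w ≤ 3 (u+n₀) m < B ^ 3`, so `count ≤ 3 m`. -/
def S_SEL2 : Prop := ∀ (A X : Type) [AddCommGroup A] [Fintype A] [DecidableEq A] [Fintype X]
  [DecidableEq X] (m n₀ : ℕ) (F : Frame A X m n₀) (r : ℕ) (N : Fin r → X → X) (P : Finset A),
  n₀ ≤ 2 * Fintype.card A →
  4 * 10 ^ 10 * (Fintype.card A : ℝ) ^ 7 * lam m ^ 3 ≤ (m : ℝ) ^ 2 → (0 : A) ∉ P →
  2 ≤ P.card → r ≤ (P.card - 2) * m → (∀ i, Fpf (N i)) →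
  ∃ (g : Fin r → A) (T : Fin r → X → X) (E : Fin r → Finset X), Sel F N P univ g T E ∧
    (∀ x, (univ.filter fun i => x ∈ E i ∨ T i x ∈ E i).card ≤ 3 * m) ∧
    2048 * ∑ i, (E i).card ≤ m * m

/-- CORE2 (prove `theorem core2 : S_SEL2 → S_PROC → S_CORE2`; adapt Core.lean). -/
def S_CORE2 : Prop := ∀ (A X : Type) [AddCommGroup A] [Fintype A] [DecidableEq A] [Fintype X]
  [DecidableEq X] (m n₀ : ℕ) (_ : Frame A X m n₀) (R : Finset A) (r : ℕ),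
  n₀ ≤ 2 * Fintype.card A →
  4 * 10 ^ 10 * (Fintype.card A : ℝ) ^ 7 * lam m ^ 3 ≤ (m : ℝ) ^ 2 → (0 : A) ∉ R →
  64 ≤ R.card → (∀ S : Set A, S.Nonempty → (∀ p ∈ S, ∀ h ∈ R, p + h ∈ S) → ∀ p, p ∈ S) →
  R.card + 3 ≤ Fintype.card A → r ≤ (Fintype.card A - (R.card + 3)) * m → LLX X r

/-- GRP2 (adapt Grp.lean) -/
def S_GRP2 : Prop := ∀ b : ℕ, 32 ≤ b → ∃ (A : Type) (_ : AddCommGroup A) (_ : Fintype A)
  (_ : DecidableEq A) (φ : A → A) (R : Finset A), (∀ p : A, p + p = 0) ∧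
  Function.Injective φ ∧ (Function.Injective fun g => φ g + g) ∧ (0 : A) ∉ R ∧
  R.card = 2 * b ∧ (∀ S : Set A, S.Nonempty → (∀ p ∈ S, ∀ h ∈ R, p + h ∈ S) → ∀ p, p ∈ S) ∧
  Fintype.card A = 4 ^ b

/-- NUM3 (inequalities). `b` with `4^b ≤ n^0.21 < 4^(b+1)`, `m` the largest odd number with
`4^b m ≤ n`, `n = 4^b m + 2ρ`. Then `m ≥ n^0.79 / 2` for large `n`,
`4^b ≥ n^0.21 / 4`, `u^7 ≤ n^1.47`, `m² ≥ n^1.58 / 4`; `n - (4^b - 2b - 3) m ≤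
(2b + 3) m + 2 * 4^b ≤ n^0.8`. -/
def S_NUM3 : Prop := ∃ n₁ : ℕ, ∀ n : ℕ, Even n → n₁ ≤ n → ∃ b m ρ : ℕ, 32 ≤ b ∧ Odd m ∧
  n = 4 ^ b * m + 2 * ρ ∧ ρ ≤ 4 ^ b ∧ ρ ≤ m ∧ 2 * b + 3 ≤ 4 ^ b ∧
  4 * 10 ^ 10 * ((4 : ℝ) ^ b) ^ 7 * lam m ^ 3 ≤ (m : ℝ) ^ 2 ∧
  (n : ℝ) - (n : ℝ) ^ (4 / 5 : ℝ) ≤ ((4 ^ b - (2 * b + 3) : ℕ) : ℝ) * m

/-- LL2 (60 lines; prove `theorem ll2 : S_CORE2 → S_FRAME → S_GRP2 → S_NUM3 → S_TR.{0,0} →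
S_LL2`; adapt Ll.lean) -/
def S_LL2 : Prop := ∃ n₁ : ℕ, ∀ n r : ℕ, Even n → n₁ ≤ n →
  (r : ℝ) ≤ (n : ℝ) - (n : ℝ) ^ (4 / 5 : ℝ) → LLX (Fin n) r

/-- DART2 (prove `theorem dart2 : S_LL2 → S_TR.{0,u} → S_STEP.{u} → S_EUL.{u} → S_DART2.{u}`;
adapt Dart.lean) -/
def S_DART2 : Prop := ∃ n₁ : ℕ, ∀ (D V : Type u) [Fintype D] [DecidableEq D]
  [Fintype V] [DecidableEq V] (ρ : D → D) (src : D → V) (r : ℕ), Fpf ρ →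
  (∀ v, Even (univ.filter fun x => src x = v).card) →
  (∀ v, n₁ ≤ (univ.filter fun x => src x = v).card) →
  (∀ v, (r : ℝ) ≤ ((univ.filter fun x => src x = v).card : ℝ) -
    ((univ.filter fun x => src x = v).card : ℝ) ^ (4 / 5 : ℝ)) →
  (∀ x y, Relation.ReflTransGen (fun x y => y = ρ x ∨ src y = src x) x y) →
  ∃ τ : Fin r → D → D, (∀ i, Fpf (τ i) ∧ (∀ x, src (τ i x) = src x) ∧ Conn (τ i) ρ) ∧
    ∀ i j, i ≠ j → ∀ x, τ i x ≠ τ j x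

/-- FIN2 (prove `theorem fin2 : S_DART2.{u} → S_WALK.{u} → S_FIN2.{u}`; adapt Fin.lean). The
final theorem. For `d < d₀` take `r = 0` and `C ≥ 2 d₀`; for `d ≥ d₀` take
`r = ⌈2d - C d^(4/5)⌉₊` with `C ≥ 3`: `r ≤ 2d - (2d)^(4/5) ≤ k - k^(4/5)` for all `k ≥ 2d`
(`k ↦ k - k^(4/5)` is increasing for `k ≥ 1`). -/
def S_FIN2 : Prop := ∃ C : ℝ, ∀ (V : Type u) [Fintype V] [DecidableEq V]
  (G : SimpleGraph V) [DecidableRel G.Adj] (d : ℕ), G.Connected →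
  (∀ v, Even (G.degree v)) → G.minDegree = 2 * d →
  ∃ r : ℕ, 2 * (d : ℝ) - C * (d : ℝ) ^ (4 / 5 : ℝ) ≤ r ∧
    ∃ (v : Fin r → V) (p : ∀ i, G.Walk (v i) (v i)),
    (∀ i, (p i).IsEulerian) ∧ ∀ i j, i ≠ j → Disjoint (transitions (p i)) (transitions (p j))

end H20JT
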