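import Pool.Agent.H20.JT.Stm2

/-! # Project JT: multigraphs

A finite multigraph (loops and parallel edges allowed) is given by a set `D` of darts
(half-edges), a fixed point free involution `ρ` of `D` (the edges are the pairs `{x, ρ x}`) and a
map `src : D → V`. -/

namespace H20JT

open Finset

universe u v

/-- `c` is an Euler tour: a cyclic sequence of darts, each starting where the previous one ends,
which passes every edge exactly once -/
structure IsTour {D : Type u} {V : Type v} (ρ : D → D) (src : D → V) (m : ℕ) (c : ZMod m → D) :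
    Prop where
  step : ∀ t, src (c (t + 1)) = src (ρ (c t))
  once : ∀ x, ∃! t, c t = x ∨ c t = ρ x

/-- the transitions of a tour: unordered pairs of half-edges at a vertex -/
def dtrans {D : Type u} (ρ : D → D) {m : ℕ} (c : ZMod m → D) : Set (Sym2 D) :=
  {t | ∃ i, t = s(ρ (c i), c (i + 1))}

/-- TOUR. `c t = (τ ∘ ρ)^t x₀`, `m = minimalPeriod`. -/
def S_TOUR : Prop := ∀ (D : Type u) (V : Type v) [Fintype D] [DecidableEq D] (ρ τ : D → D)
  (src : D → V), Nonempty D → Fpf ρ → Fpf τ → (∀ x, src (τ x) = src x) → Conn τ ρ →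
  ∃ c : ZMod (Fintype.card D / 2) → D, IsTour ρ src (Fintype.card D / 2) c ∧
    ∀ t, c (t + 1) = τ (ρ (c t))

/-- MFIN. The final theorem for multigraphs. -/
def S_MFIN : Prop := ∃ C : ℝ, ∀ (D V : Type u) [Fintype D] [DecidableEq D] [Fintype V]
  [DecidableEq V] [Nonempty V] (ρ : D → D) (src : D → V) (d : ℕ), Fpf ρ →
  (∀ v w : V, Relation.ReflTransGen (fun v w => ∃ x, src x = v ∧ src (ρ x) = w) v w) →
  (∀ v, Even (univ.filter fun x => src x = v).card) →
  (∀ v, 2 * d ≤ (univ.filter fun x => src x = v).card) →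
  ∃ r : ℕ, 2 * (d : ℝ) - C * (d : ℝ) ^ (4 / 5 : ℝ) ≤ r ∧
    ∃ c : Fin r → ZMod (Fintype.card D / 2) → D,
      (∀ i, IsTour ρ src (Fintype.card D / 2) (c i)) ∧
      ∀ i j, i ≠ j → Disjoint (dtrans ρ (c i)) (dtrans ρ (c j))

end H20JT
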